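import Mathlib

/-!
# The group acting on `ℝ⁴`
-/

set_option autoImplicit false

open Set Topology
open scoped ContDiff

namespace Pool.Agent.Lib.MP_3704ac_gt

noncomputable section

/-- `ℝ⁴`, with coordinates `(u, s, ω, t)`. -/
abbrev E4 : Type := EuclideanSpace ℝ (Fin 4)

/-- The larger eigenvalue of `A = [[2, 5], [13, 33]]`. -/
def lam : ℝ := (35 + √1221) / 2

/-- The smaller eigenvalue of `A = [[2, 5], [13, 33]]`. -/
def mu : ℝ := (35 - √1221) / 2

lemma sqrt_sq' : √1221 * √1221 = 1221 := Real.mul_self_sqrt (by norm_num)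

lemma sqrt_lt : √1221 < 35 := by
  rw [Real.sqrt_lt' (by norm_num)]
  norm_num

lemma lt_sqrt' : 34 < √1221 := by
  apply Real.lt_sqrt_of_sq_lt
  norm_num

lemma lam_mul_mu : lam * mu = 1 := by
  unfold lam mu
  linear_combination (-1 / 4) * sqrt_sq'

lemma lam_add_mu : lam + mu = 35 := by
  unfold lam mu
  ring

lemma lam_sq : lam * lam = 35 * lam - 1 := by
  have h1 := lam_mul_mu
  have h2 : mu = 35 - lam := by linear_combination lam_add_mu
  rw [h2] at h1
  linear_combination -h1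

lemma mu_sq : mu * mu = 35 * mu - 1 := by
  have h1 := lam_mul_mu
  have h2 : lam = 35 - mu := by linear_combination lam_add_mu
  rw [h2] at h1
  linear_combination -h1

lemma lam_gt : 34 < lam := by
  unfold lam
  linarith [lt_sqrt']

lemma lam_pos : 0 < lam := by linarith [lam_gt]

lemma mu_pos : 0 < mu := by
  unfold mu
  linarith [sqrt_lt]

lemma mu_lt_one : mu < 1 := by
  unfold mu
  linarith [lt_sqrt']

lemma mu_eq : mu = lam⁻¹ := eq_inv_of_mul_eq_one_right lam_mul_mu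

lemma mu_ne_lam : mu ≠ lam := by
  have := lam_gt
  have := mu_lt_one
  intro h
  linarith

/-- The period in the direction `t`. -/
def per : ℝ := Real.log lam

lemma per_pos : 0 < per := Real.log_pos (by linarith [lam_gt])

/-- The unstable coordinate of a lattice vector. -/
def lu (n : ℤ × ℤ) : ℝ := 13 * n.1 + (lam - 2) * n.2

/-- The stable coordinate of a lattice vector. -/
def ls (n : ℤ × ℤ) : ℝ := 13 * n.1 + (mu - 2) * n.2

lemma lu_zero : lu 0 = 0 := by simp [lu]

lemma ls_zero : ls 0 = 0 := by simp [ls]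

lemma lu_add (m n : ℤ × ℤ) : lu (m + n) = lu m + lu n := by
  simp only [lu, Prod.fst_add, Prod.snd_add]
  push_cast
  ring

lemma ls_add (m n : ℤ × ℤ) : ls (m + n) = ls m + ls n := by
  simp only [ls, Prod.fst_add, Prod.snd_add]
  push_cast
  ring

lemma lu_neg (n : ℤ × ℤ) : lu (-n) = -lu n := by
  simp only [lu, Prod.fst_neg, Prod.snd_neg]
  push_cast
  ring

lemma ls_neg (n : ℤ × ℤ) : ls (-n) = -ls n := by
  simp only [ls, Prod.fst_neg, Prod.snd_neg]
  push_cast
  ring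

/-- The group `GL(2, ℤ)`. -/
abbrev GL2 : Type := (ℤ × ℤ) ≃ₗ[ℤ] (ℤ × ℤ)

/-- The matrix `A = [[2, 5], [13, 33]]` as an automorphism of `ℤ²`. -/
def Aa : GL2 where
  toFun n := (2 * n.1 + 5 * n.2, 13 * n.1 + 33 * n.2)
  invFun n := (33 * n.1 - 5 * n.2, -13 * n.1 + 2 * n.2)
  left_inv n := by
    ext <;> simp <;> ring
  right_inv n := by
    ext <;> simp <;> ring
  map_add' m n := by
    ext <;> simp <;> ring
  map_smul' c n := by
    ext <;> simp <;> ring

/-- `-1` as an automorphism of `ℤ²`. -/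
def Na : GL2 := LinearEquiv.neg ℤ

lemma Aa_apply (n : ℤ × ℤ) : Aa n = (2 * n.1 + 5 * n.2, 13 * n.1 + 33 * n.2) := rfl

lemma Na_apply (n : ℤ × ℤ) : Na n = -n := rfl

lemma lu_Aa (n : ℤ × ℤ) : lu (Aa n) = lam * lu n := by
  simp only [lu, Aa_apply]
  push_cast
  linear_combination (-(n.2 : ℝ)) * lam_sq

lemma ls_Aa (n : ℤ × ℤ) : ls (Aa n) = mu * ls n := by
  simp only [ls, Aa_apply]
  push_cast
  linear_combination (-(n.2 : ℝ)) * mu_sq

lemma zpow_scale {l : ℤ × ℤ → ℝ} {φ : GL2} {c : ℝ} (hc : c ≠ 0)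
    (h : ∀ n, l (φ n) = c * l n) (k : ℤ) (n : ℤ × ℤ) : l ((φ ^ k) n) = c ^ k * l n := by
  have hinv : ∀ n, l (φ⁻¹ n) = c⁻¹ * l n := by
    intro n
    have := h (φ⁻¹ n)
    rw [show φ (φ⁻¹ n) = n from φ.apply_symm_apply n] at this
    rw [this, inv_mul_cancel_left₀ hc]
  induction k using Int.induction_on generalizing n with
  | zero => simp
  | succ i ih => rw [zpow_add_one, LinearEquiv.mul_apply, ih, h, zpow_add_one₀ hc, mul_assoc]
  | pred i ih => rw [zpow_sub_one, LinearEquiv.mul_apply, ih, hinv, zpow_sub_one₀ hc, mul_assoc]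

lemma commute_Na_Aa : Commute Na Aa := by
  ext n <;> simp [LinearEquiv.mul_apply, Na_apply, Aa_apply] <;> ring

/-- The linear part of an element of the group. -/
def lin (j k : ℤ) : GL2 := Na ^ j * Aa ^ k

lemma lin_mul (j k j' k' : ℤ) : lin j k * lin j' k' = lin (j + j') (k + k') := by
  unfold lin
  have h : Commute (Aa ^ k) (Na ^ j') := (commute_Na_Aa.symm.zpow_zpow k j')
  rw [mul_assoc, ← mul_assoc (Aa ^ k), h.eq, mul_assoc, ← zpow_add, ← mul_assoc, ← zpow_add]

lemma lin_zero : lin 0 0 = 1 := by simp [lin]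

lemma lin_apply_lin (j k j' k' : ℤ) (n : ℤ × ℤ) :
    lin j k (lin j' k' n) = lin (j + j') (k + k') n := by
  rw [← lin_mul, LinearEquiv.mul_apply]

lemma lu_lin (j k : ℤ) (n : ℤ × ℤ) : lu (lin j k n) = (-1) ^ j * lam ^ k * lu n := by
  unfold lin
  rw [LinearEquiv.mul_apply, zpow_scale (l := lu) (φ := Na) (c := -1) (by norm_num)
    (fun n => by rw [Na_apply, lu_neg, neg_one_mul]), zpow_scale lam_pos.ne' lu_Aa, mul_assoc]

lemma ls_lin (j k : ℤ) (n : ℤ × ℤ) : ls (lin j k n) = (-1) ^ j * mu ^ k * ls n := by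
  unfold lin
  rw [LinearEquiv.mul_apply, zpow_scale (l := ls) (φ := Na) (c := -1) (by norm_num)
    (fun n => by rw [Na_apply, ls_neg, neg_one_mul]), zpow_scale mu_pos.ne' ls_Aa, mul_assoc]

/-- The action of a group element on `ℝ⁴`. -/
def actFun (n : ℤ × ℤ) (j k : ℤ) (p : E4) : E4 :=
  !₂[(-1) ^ j * lam ^ k * p 0 + lu n, (-1) ^ j * mu ^ k * p 1 + ls n, p 2 + j * Real.pi,
    p 3 + k * per]

lemma actFun_actFun (n n' : ℤ × ℤ) (j k j' k' : ℤ) (p : E4) :
    actFun n j k (actFun n' j' k' p) = actFun (n + lin j k n') (j + j') (k + k') p := by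
  ext i
  fin_cases i
  · simp [actFun, lu_add, lu_lin, zpow_add₀ lam_pos.ne', zpow_add₀ (show (-1 : ℝ) ≠ 0 by norm_num)]
    ring
  · simp [actFun, ls_add, ls_lin, zpow_add₀ mu_pos.ne', zpow_add₀ (show (-1 : ℝ) ≠ 0 by norm_num)]
    ring
  · simp [actFun]
    ring
  · simp [actFun]
    ring

lemma actFun_zero (p : E4) : actFun 0 0 0 p = p := by
  ext i
  fin_cases i <;> simp [actFun, lu_zero, ls_zero]

/-- The action of a group element on `ℝ⁴`, as a permutation. -/
def actEquiv (n : ℤ × ℤ) (j k : ℤ) : Equiv.Perm E4 where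
  toFun := actFun n j k
  invFun := actFun (-(lin (-j) (-k) n)) (-j) (-k)
  left_inv p := by
    rw [actFun_actFun, neg_add_cancel, neg_add_cancel, neg_add_cancel, actFun_zero]
  right_inv p := by
    rw [actFun_actFun, map_neg, lin_apply_lin, add_neg_cancel, add_neg_cancel, lin_zero,
      show (1 : GL2) n = n from rfl, add_neg_cancel, actFun_zero]

/-- The group. -/
def Gam : Subgroup (Equiv.Perm E4) where
  carrier := {g | ∃ (n : ℤ × ℤ) (j k : ℤ), g = actEquiv n j k}
  mul_mem' := by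
    rintro _ _ ⟨n, j, k, rfl⟩ ⟨n', j', k', rfl⟩
    refine ⟨n + lin j k n', j + j', k + k', ?_⟩
    ext1 p
    exact actFun_actFun n n' j k j' k' p
  one_mem' := ⟨0, 0, 0, by ext1 p; exact (actFun_zero p).symm⟩
  inv_mem' := by
    rintro _ ⟨n, j, k, rfl⟩
    refine ⟨-(lin (-j) (-k) n), -j, -k, ?_⟩
    ext1 p
    rfl

/-- The group acting on `ℝ⁴`. -/
abbrev GG : Type := Gam

/-- The element of the group with given parameters. -/
def el (n : ℤ × ℤ) (j k : ℤ) : GG := ⟨actEquiv n j k, n, j, k, rfl⟩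

lemma el_smul (n : ℤ × ℤ) (j k : ℤ) (p : E4) : el n j k • p = actFun n j k p := rfl

lemma exists_el (g : GG) : ∃ (n : ℤ × ℤ) (j k : ℤ), g = el n j k := by
  obtain ⟨g, n, j, k, rfl⟩ := g
  exact ⟨n, j, k, rfl⟩

end

end Pool.Agent.Lib.MP_3704ac_gt
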