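import Mathlib

/-!
# Quotients of a normed space by a free, properly discontinuous smooth action
-/

set_option autoImplicit false
set_option linter.unusedSectionVars false

open Set Topology Manifold MulAction
open scoped ContDiff

namespace Pool.Agent.Lib.MP_3704ac_gt

noncomputable section

variable {E : Type} [NormedAddCommGroup E] [NormedSpace ℝ E] [FiniteDimensional ℝ E]
  [LocallyCompactSpace E]
variable (G : Type) [Group G] [MulAction G E] [ProperlyDiscontinuousSMul G E]
  [ContinuousConstSMul G E] [IsCancelSMul G E]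

variable (E) in
/-- The quotient space. -/
abbrev Q : Type := MulAction.orbitRel.Quotient G E

/-- The projection. -/
def proj (x : E) : Q E G := Quotient.mk _ x

lemma proj_surjective : Function.Surjective (proj G : E → Q E G) := Quotient.mk_surjective

lemma isQuotientCoveringMap_proj : IsQuotientCoveringMap (proj G : E → Q E G) G :=
  isQuotientCoveringMap_quotientMk_of_properlyDiscontinuousSMul

lemma isCoveringMap_proj : IsCoveringMap (proj G : E → Q E G) :=
  (isQuotientCoveringMap_proj G).isCoveringMap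

lemma isLocalHomeomorph_proj : IsLocalHomeomorph (proj G : E → Q E G) :=
  (isCoveringMap_proj G).isLocalHomeomorph

lemma proj_eq_iff {x y : E} : proj G x = proj G y ↔ ∃ g : G, x = g • y := by
  rw [(isQuotientCoveringMap_proj G).apply_eq_iff_mem_orbit]
  constructor
  · rintro ⟨g, hg⟩
    exact ⟨g, hg.symm⟩
  · rintro ⟨g, hg⟩
    exact ⟨g, hg.symm⟩

lemma proj_smul (g : G) (x : E) : proj G (g • x) = proj G x := (proj_eq_iff G).mpr ⟨g, rfl⟩

/-- The local inverse of the projection at `x`. -/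
def linv (x : E) : OpenPartialHomeomorph (Q E G) E := (isLocalHomeomorph_proj G).localInverseAt x

lemma mem_linv_source (x : E) : proj G x ∈ (linv G x).source :=
  (isLocalHomeomorph_proj G).apply_self_mem_localInverseAt_source

lemma linv_proj_self (x : E) : linv G x (proj G x) = x :=
  (isLocalHomeomorph_proj G).localInverseAt_apply_self

lemma proj_linv (x : E) {q : Q E G} (hq : q ∈ (linv G x).source) : proj G (linv G x q) = q :=
  (isLocalHomeomorph_proj G).apply_localInverseAt_of_mem hq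

lemma linv_symm (x : E) : ((linv G x).symm : E → Q E G) = proj G :=
  (isLocalHomeomorph_proj G).localInverseAt_symm x

/-- A representative of a point of the quotient. -/
def rep (q : Q E G) : E := (proj_surjective G q).choose

lemma proj_rep (q : Q E G) : proj G (rep G q) = q := (proj_surjective G q).choose_spec

/-- The charted space structure on the quotient. -/
instance instCS : ChartedSpace E (Q E G) where
  atlas := {linv G x | x : E}
  chartAt q := linv G (rep G q)
  mem_chart_source q := by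
    have := mem_linv_source G (rep G q)
    rwa [proj_rep] at this
  chart_mem_atlas q := ⟨_, rfl⟩

variable {G} in
/-- Two local inverses of the projection differ locally by the action of an element of the
group. -/
lemma eventually_smul (x₀ : E) (f : E → E) (hf : ContinuousAt f x₀)
    (hfp : ∀ᶠ x in 𝓝 x₀, proj G (f x) = proj G x) :
    ∃ g : G, ∀ᶠ x in 𝓝 x₀, f x = g • x := by
  obtain ⟨g, hg⟩ := (proj_eq_iff G).mp hfp.self_of_nhds
  refine ⟨g, ?_⟩
  obtain ⟨U, hU, hdis⟩ := (isQuotientCoveringMap_proj G (E := E)).disjoint (f x₀)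
  have h1 : ∀ᶠ x in 𝓝 x₀, f x ∈ U := hf hU
  have h2 : ∀ᶠ x in 𝓝 x₀, g • x ∈ U := by
    have : ContinuousAt (fun x : E => g • x) x₀ := (continuous_const_smul g).continuousAt
    apply this
    change U ∈ 𝓝 (g • x₀)
    rw [← hg]
    exact hU
  filter_upwards [h1, h2, hfp] with x hx1 hx2 hx3
  rw [← proj_smul G g x] at hx3
  obtain ⟨g', hg'⟩ := (proj_eq_iff G).mp hx3
  have : g' = 1 := by
    apply hdis
    exact ⟨f x, ⟨g • x, hx2, hg'.symm⟩, hx1⟩
  rw [hg', this, one_smul]

variable (hs : ∀ g : G, ContDiff ℝ ∞ (fun x : E => g • x))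
include hs

lemma contDiffAt_of_proj_eq (x₀ : E) (f : E → E) (hf : ContinuousAt f x₀)
    (hfp : ∀ᶠ x in 𝓝 x₀, proj G (f x) = proj G x) : ContDiffAt ℝ ∞ f x₀ := by
  obtain ⟨g, hg⟩ := eventually_smul x₀ f hf hfp
  exact (hs g).contDiffAt.congr_of_eventuallyEq hg

theorem isManifold_quot : IsManifold 𝓘(ℝ, E) ∞ (Q E G) := by
  apply isManifold_of_contDiffOn
  rintro _ _ ⟨x, rfl⟩ ⟨x', rfl⟩
  simp only [modelWithCornersSelf_coe, modelWithCornersSelf_coe_symm, Function.id_comp,
    Function.comp_id, range_id, preimage_id_eq, id_eq, inter_univ]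
  intro y hy
  apply ContDiffAt.contDiffWithinAt
  apply contDiffAt_of_proj_eq G hs
  · exact ((linv G x).symm.trans (linv G x')).continuousAt hy
  · filter_upwards [((linv G x).symm.trans (linv G x')).open_source.mem_nhds hy] with z hz
    rw [OpenPartialHomeomorph.trans_source] at hz
    simp only [OpenPartialHomeomorph.coe_trans, Function.comp_apply]
    rw [proj_linv G x' hz.2, linv_symm]

theorem contMDiff_proj : ContMDiff 𝓘(ℝ, E) 𝓘(ℝ, E) ∞ (proj G : E → Q E G) := by
  have := isManifold_quot G hs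
  intro x₀
  rw [contMDiffAt_iff]
  refine ⟨(isCoveringMap_proj G).continuous.continuousAt, ?_⟩
  apply ContDiffAt.contDiffWithinAt
  have hx₀ : extChartAt 𝓘(ℝ, E) x₀ x₀ = x₀ := rfl
  rw [hx₀]
  have hmem : proj G x₀ ∈ (linv G (rep G (proj G x₀))).source := by
    have := mem_linv_source G (rep G (proj G x₀))
    rwa [proj_rep] at this
  have hfun : (extChartAt 𝓘(ℝ, E) (proj G x₀) ∘ proj G ∘ (extChartAt 𝓘(ℝ, E) x₀).symm : E → E) =
      fun x => linv G (rep G (proj G x₀)) (proj G x) := by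
    funext x
    simp only [extChartAt, mfld_simps]
    rfl
  rw [hfun]
  apply contDiffAt_of_proj_eq G hs
  · exact ((linv G (rep G (proj G x₀))).continuousAt hmem).comp
      (isCoveringMap_proj G).continuous.continuousAt
  · have h1 : (proj G) ⁻¹' (linv G (rep G (proj G x₀))).source ∈ 𝓝 x₀ :=
      (isCoveringMap_proj G).continuous.continuousAt
        ((linv G (rep G (proj G x₀))).open_source.mem_nhds hmem)
    filter_upwards [h1] with x hx
    exact proj_linv G _ hx

theorem contMDiffOn_linv (x : E) :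
    ContMDiffOn 𝓘(ℝ, E) 𝓘(ℝ, E) ∞ (linv G x) (linv G x).source := by
  have := isManifold_quot G hs
  apply contMDiffOn_of_mem_maximalAtlas
  apply IsManifold.subset_maximalAtlas
  exact ⟨x, rfl⟩

theorem isLocalDiffeomorph_proj :
    IsLocalDiffeomorph 𝓘(ℝ, E) 𝓘(ℝ, E) ∞ (proj G : E → Q E G) := by
  intro x
  refine ⟨{ toPartialEquiv := (linv G x).symm.toPartialEquiv
            open_source := (linv G x).open_target
            open_target := (linv G x).open_source
            contMDiffOn_toFun := ?_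
            contMDiffOn_invFun := ?_ }, ?_, ?_⟩
  · have h : ((linv G x).symm.toPartialEquiv : E → Q E G) = proj G := linv_symm G x
    change ContMDiffOn 𝓘(ℝ, E) 𝓘(ℝ, E) ∞ ((linv G x).symm.toPartialEquiv : E → Q E G) _
    rw [h]
    exact (contMDiff_proj G hs).contMDiffOn
  · exact contMDiffOn_linv G hs x
  · exact (isLocalHomeomorph_proj G).self_mem_localInverseAt_target
  · intro y _
    exact (congrFun (linv_symm G x) y).symm

/-- The derivative of the projection, as a linear equivalence. -/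
def dproj (x : E) : E ≃L[ℝ] E :=
  (isLocalDiffeomorph_proj G hs).mfderivToContinuousLinearEquiv (by simp) x

lemma dproj_coe (x : E) :
    ((dproj G hs x : E ≃L[ℝ] E) : E →L[ℝ] E) = mfderiv 𝓘(ℝ, E) 𝓘(ℝ, E) (proj G) x :=
  IsLocalDiffeomorph.mfderivToContinuousLinearEquiv_coe _ _ _

lemma mfderiv_proj_smul (g : G) (x v : E) :
    mfderiv 𝓘(ℝ, E) 𝓘(ℝ, E) (proj G) (g • x) (fderiv ℝ (fun y : E => g • y) x v) =
      mfderiv 𝓘(ℝ, E) 𝓘(ℝ, E) (proj G) x v := by
  have h1 : (proj G : E → Q E G) = proj G ∘ (fun y : E => g • y) := by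
    funext y
    exact (proj_smul G g y).symm
  have hp : MDifferentiableAt 𝓘(ℝ, E) 𝓘(ℝ, E) (proj G : E → Q E G) (g • x) :=
    (contMDiff_proj G hs).mdifferentiable (by simp) _
  have hg : MDifferentiableAt 𝓘(ℝ, E) 𝓘(ℝ, E) (fun y : E => g • y) x :=
    ((hs g).contMDiff).mdifferentiable (by simp) _
  have h2 := mfderiv_comp x hp hg
  rw [← h1, mfderiv_eq_fderiv] at h2
  rw [h2]
  rfl

/-- The vector field on the quotient induced by an invariant vector field. -/
def descend (V : E → E) (q : Q E G) : TangentSpace 𝓘(ℝ, E) q :=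
  mfderiv 𝓘(ℝ, E) 𝓘(ℝ, E) (proj G) (rep G q) (V (rep G q))

lemma descend_proj {V : E → E} (hV : ∀ (g : G) (x : E), fderiv ℝ (fun y : E => g • y) x (V x) =
    V (g • x)) (x : E) :
    descend G V (proj G x) = mfderiv 𝓘(ℝ, E) 𝓘(ℝ, E) (proj G) x (V x) := by
  obtain ⟨g, hg⟩ := (proj_eq_iff G).mp (proj_rep G (proj G x))
  unfold descend
  rw [hg, ← hV, mfderiv_proj_smul G hs]

lemma contMDiff_descend [IsManifold 𝓘(ℝ, E) ∞ (Q E G)] {V : E → E} (hVs : ContDiff ℝ ∞ V)
    (hV : ∀ (g : G) (x : E), fderiv ℝ (fun y : E => g • y) x (V x) = V (g • x)) :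
    ContMDiff 𝓘(ℝ, E) (𝓘(ℝ, E)).tangent ∞
      (fun q => (descend G V q : TangentBundle 𝓘(ℝ, E) (Q E G))) := by
  intro q
  have hq : q ∈ (linv G (rep G q)).source := by
    have := mem_linv_source G (rep G q)
    rwa [proj_rep] at this
  have h1 : ContMDiffAt 𝓘(ℝ, E) 𝓘(ℝ, E) ∞ (linv G (rep G q)) q :=
    (contMDiffOn_linv G hs (rep G q)).contMDiffAt ((linv G (rep G q)).open_source.mem_nhds hq)
  have h2 : ContMDiff 𝓘(ℝ, E) (𝓘(ℝ, E)).tangent ∞
      (fun x : E => (⟨x, V x⟩ : TangentBundle 𝓘(ℝ, E) E)) :=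
    contMDiff_vectorSpace_iff_contDiff.mpr hVs
  have h3 : ContMDiff (𝓘(ℝ, E)).tangent (𝓘(ℝ, E)).tangent ∞
      (tangentMap 𝓘(ℝ, E) 𝓘(ℝ, E) (proj G : E → Q E G)) :=
    (contMDiff_proj G hs).contMDiff_tangentMap (by simp)
  have h4 := (h3.comp h2).contMDiffAt.comp q h1
  apply h4.congr_of_eventuallyEq
  filter_upwards [(linv G (rep G q)).open_source.mem_nhds hq] with q' hq'
  have h5 := proj_linv G (rep G q) hq'
  have h6 := descend_proj G hs hV (linv G (rep G q) q')
  simp only [Function.comp_apply, tangentMap]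
  rw [← h6, h5]

lemma mfderiv_proj_injective (x : E) :
    Function.Injective (mfderiv 𝓘(ℝ, E) 𝓘(ℝ, E) (proj G : E → Q E G) x) := by
  rw [← dproj_coe G hs x]
  exact (dproj G hs x).injective

lemma mfderiv_proj_surjective (x : E) :
    Function.Surjective (mfderiv 𝓘(ℝ, E) 𝓘(ℝ, E) (proj G : E → Q E G) x) := by
  rw [← dproj_coe G hs x]
  exact (dproj G hs x).surjective

lemma isInvertible_mfderiv_proj (x : E) :
    (mfderiv 𝓘(ℝ, E) 𝓘(ℝ, E) (proj G : E → Q E G) x).IsInvertible :=
  ⟨(isLocalDiffeomorph_proj G hs).mfderivToContinuousLinearEquiv (by simp) x, rfl⟩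

lemma mpullback_descend {V : E → E}
    (hV : ∀ (g : G) (x : E), fderiv ℝ (fun y : E => g • y) x (V x) = V (g • x)) (x : E) :
    VectorField.mpullback 𝓘(ℝ, E) 𝓘(ℝ, E) (proj G : E → Q E G) (descend G V) x = V x := by
  change (mfderiv 𝓘(ℝ, E) 𝓘(ℝ, E) (proj G : E → Q E G) x).inverse (descend G V (proj G x)) = V x
  rw [descend_proj G hs hV]
  exact (isInvertible_mfderiv_proj G hs x).inverse_apply_eq.mpr rfl

omit hs in
/-- The Lie bracket of vector fields on `E`. -/
def lb (V W : E → E) (x : E) : E := fderiv ℝ W x (V x) - fderiv ℝ V x (W x)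

omit hs in
lemma mlieBracket_eq_lb (V W : E → E) (x : E) :
    VectorField.mlieBracket 𝓘(ℝ, E) (fun x => (V x : TangentSpace 𝓘(ℝ, E) x))
      (fun x => (W x : TangentSpace 𝓘(ℝ, E) x)) x = lb (E := E) V W x := by
  have h1 := congrFun (VectorField.mlieBracketWithin_eq_lieBracketWithin (𝕜 := ℝ)
    (V := fun x => (V x : TangentSpace 𝓘(ℝ, E) x))
    (W := fun x => (W x : TangentSpace 𝓘(ℝ, E) x)) (s := univ)) x
  have h2 := congrFun (VectorField.mlieBracketWithin_univ (I := 𝓘(ℝ, E))
    (V := fun x => (V x : TangentSpace 𝓘(ℝ, E) x))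
    (W := fun x => (W x : TangentSpace 𝓘(ℝ, E) x))) x
  have h3 := congrFun (VectorField.lieBracketWithin_univ (𝕜 := ℝ) (V := V) (W := W)) x
  exact h2.symm.trans (h1.trans h3)

lemma mlieBracket_proj [IsManifold 𝓘(ℝ, E) ∞ (Q E G)] {V W : E → E} (hVs : ContDiff ℝ ∞ V)
    (hWs : ContDiff ℝ ∞ W)
    (hV : ∀ (g : G) (x : E), fderiv ℝ (fun y : E => g • y) x (V x) = V (g • x))
    (hW : ∀ (g : G) (x : E), fderiv ℝ (fun y : E => g • y) x (W x) = W (g • x)) (x : E) :
    VectorField.mlieBracket 𝓘(ℝ, E) (descend G V) (descend G W) (proj G x) =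
      mfderiv 𝓘(ℝ, E) 𝓘(ℝ, E) (proj G) x (lb (E := E) V W x) := by
  have h2 : minSmoothness ℝ 2 ≤ ∞ := by
    rw [minSmoothness_of_isRCLikeNormedField]
    exact ENat.LEInfty.out
  have : IsManifold 𝓘(ℝ, E) (minSmoothness ℝ 2) (Q E G) := IsManifold.of_le (n := ∞) h2
  have h1 := VectorField.mpullback_mlieBracket (I := 𝓘(ℝ, E)) (I' := 𝓘(ℝ, E)) (f := proj G)
    (V := descend G V) (W := descend G W) (x₀ := x) (n := ∞)
    (((contMDiff_descend G hs hVs hV).mdifferentiable (by simp)) _)
    (((contMDiff_descend G hs hWs hW).mdifferentiable (by simp)) _)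
    ((contMDiff_proj G hs) x) h2
  have hV' : VectorField.mpullback 𝓘(ℝ, E) 𝓘(ℝ, E) (proj G : E → Q E G) (descend G V) =
      fun x => (V x : TangentSpace 𝓘(ℝ, E) x) := funext fun x => mpullback_descend G hs hV x
  have hW' : VectorField.mpullback 𝓘(ℝ, E) 𝓘(ℝ, E) (proj G : E → Q E G) (descend G W) =
      fun x => (W x : TangentSpace 𝓘(ℝ, E) x) := funext fun x => mpullback_descend G hs hW x
  rw [hV', hW', mlieBracket_eq_lb] at h1
  exact (isInvertible_mfderiv_proj G hs x).inverse_apply_eq.mp h1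

lemma lb_invariant [IsManifold 𝓘(ℝ, E) ∞ (Q E G)] {V W : E → E} (hVs : ContDiff ℝ ∞ V)
    (hWs : ContDiff ℝ ∞ W)
    (hV : ∀ (g : G) (x : E), fderiv ℝ (fun y : E => g • y) x (V x) = V (g • x))
    (hW : ∀ (g : G) (x : E), fderiv ℝ (fun y : E => g • y) x (W x) = W (g • x)) (g : G) (x : E) :
    fderiv ℝ (fun y : E => g • y) x (lb V W x) = lb V W (g • x) := by
  apply mfderiv_proj_injective G hs (g • x)
  rw [mfderiv_proj_smul G hs, ← mlieBracket_proj G hs hVs hWs hV hW,
    ← mlieBracket_proj G hs hVs hWs hV hW, proj_smul]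

lemma mlieBracket_descend [IsManifold 𝓘(ℝ, E) ∞ (Q E G)] {V W : E → E} (hVs : ContDiff ℝ ∞ V)
    (hWs : ContDiff ℝ ∞ W)
    (hV : ∀ (g : G) (x : E), fderiv ℝ (fun y : E => g • y) x (V x) = V (g • x))
    (hW : ∀ (g : G) (x : E), fderiv ℝ (fun y : E => g • y) x (W x) = W (g • x)) :
    VectorField.mlieBracket 𝓘(ℝ, E) (descend G V) (descend G W) = descend G (lb V W) := by
  funext q
  have h := mlieBracket_proj G hs hVs hWs hV hW (rep G q)
  rw [proj_rep] at h
  exact h

end

end Pool.Agent.Lib.MP_3704ac_gt
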