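import Pool.Agent.Lib.MP_3704ac_gt.Action
import Pool.Agent.Lib.MP_3704ac_gt.Quot

/-!
# The action on `ℝ⁴` is smooth, free, properly discontinuous and cocompact
-/

set_option autoImplicit false

open Set Topology
open scoped ContDiff

namespace Pool.Agent.Lib.MP_3704ac_gt

noncomputable section

lemma contDiff_vec {f0 f1 f2 f3 : E4 → ℝ} (h0 : ContDiff ℝ ∞ f0) (h1 : ContDiff ℝ ∞ f1)
    (h2 : ContDiff ℝ ∞ f2) (h3 : ContDiff ℝ ∞ f3) :
    ContDiff ℝ ∞ (fun p : E4 => (!₂[f0 p, f1 p, f2 p, f3 p] : E4)) := by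
  rw [contDiff_euclidean]
  intro i
  fin_cases i <;> simpa

lemma contDiff_coord (i : Fin 4) : ContDiff ℝ ∞ (fun p : E4 => p i) := by
  fun_prop

lemma contDiff_smul_el (g : GG) : ContDiff ℝ ∞ (fun p : E4 => g • p) := by
  obtain ⟨n, j, k, rfl⟩ := exists_el g
  apply contDiff_vec <;> fun_prop

instance : ContinuousConstSMul GG E4 := ⟨fun g => (contDiff_smul_el g).continuous⟩

lemma hasFDerivAt_proj (m : Fin 4) (x : E4) :
    HasFDerivAt (fun p : E4 => p m) (EuclideanSpace.proj m : E4 →L[ℝ] ℝ) x :=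
  (EuclideanSpace.proj m : E4 →L[ℝ] ℝ).hasFDerivAt

lemma hasFDerivAt_coord {F : E4 → E4} {x : E4} (hF : DifferentiableAt ℝ F x) (i : Fin 4) :
    HasFDerivAt (fun p => F p i) ((EuclideanSpace.proj i : E4 →L[ℝ] ℝ).comp (fderiv ℝ F x)) x :=
  (hasFDerivAt_proj i (F x)).comp x hF.hasFDerivAt

lemma fderiv_coord {F : E4 → E4} {x : E4} (hF : DifferentiableAt ℝ F x) (v : E4) (i : Fin 4) :
    (fderiv ℝ F x v) i = fderiv ℝ (fun p => F p i) x v := by
  rw [(hasFDerivAt_coord hF i).fderiv]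
  rfl

lemma fderiv_smul_el (n : ℤ × ℤ) (j k : ℤ) (x v : E4) :
    fderiv ℝ (fun p : E4 => el n j k • p) x v =
      !₂[(-1) ^ j * lam ^ k * v 0, (-1) ^ j * mu ^ k * v 1, v 2, v 3] := by
  have hd : DifferentiableAt ℝ (fun p : E4 => el n j k • p) x :=
    (contDiff_smul_el _).differentiable (by simp) x
  ext i
  rw [fderiv_coord hd]
  have key : ∀ (c d : ℝ) (m : Fin 4), (∀ p : E4, (el n j k • p) i = c * p m + d) →
      fderiv ℝ (fun p : E4 => (el n j k • p) i) x v = c * v m := by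
    intro c d m hc
    have h1 : (fun p : E4 => (el n j k • p) i) = fun p => c * p m + d := funext hc
    rw [h1, (((hasFDerivAt_proj m x).const_mul c).add_const d).fderiv]
    simp
  fin_cases i
  · simpa using key ((-1) ^ j * lam ^ k) (lu n) 0 (fun p => rfl)
  · simpa using key ((-1) ^ j * mu ^ k) (ls n) 1 (fun p => rfl)
  · simpa using key 1 (j * Real.pi) 2 (fun p => by simp [el_smul, actFun])
  · simpa using key 1 (k * per) 3 (fun p => by simp [el_smul, actFun])

lemma lattice_finite (R : ℝ) : {n : ℤ × ℤ | |lu n| ≤ R ∧ |ls n| ≤ R}.Finite := by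
  apply ((Set.finite_Icc (-⌈6 * R⌉) ⌈6 * R⌉).prod (Set.finite_Icc (-⌈6 * R⌉) ⌈6 * R⌉)).subset
  rintro ⟨a, b⟩ ⟨h1, h2⟩
  have hl := lam_gt
  have hm := mu_lt_one
  have hs := lam_add_mu
  have hmp := mu_pos
  have hR : 0 ≤ R := (abs_nonneg _).trans h1
  have e1 : (lam - mu) * b = lu (a, b) - ls (a, b) := by
    simp only [lu, ls]
    ring
  have e2 : (13 : ℝ) * a = lu (a, b) - (lam - 2) * b := by
    simp only [lu]
    ring
  have hb : |(b : ℝ)| ≤ 2 * R := by
    have h3 : |(lam - mu) * b| ≤ 2 * R := by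
      rw [e1]
      calc |lu (a, b) - ls (a, b)| ≤ |lu (a, b)| + |ls (a, b)| := abs_sub _ _
        _ ≤ 2 * R := by linarith
    rw [abs_mul, abs_of_pos (by linarith)] at h3
    nlinarith [abs_nonneg (b : ℝ)]
  have ha : |(a : ℝ)| ≤ 6 * R := by
    have h3 : |(13 : ℝ) * a| ≤ R + 33 * (2 * R) := by
      rw [e2]
      calc |lu (a, b) - (lam - 2) * b| ≤ |lu (a, b)| + |(lam - 2) * b| := abs_sub _ _
        _ ≤ R + 33 * (2 * R) := by
          rw [abs_mul, abs_of_pos (show (0 : ℝ) < lam - 2 by linarith)]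
          have : (lam - 2) * |(b : ℝ)| ≤ 33 * (2 * R) := by
            apply mul_le_mul (by linarith) hb (abs_nonneg _) (by norm_num)
          linarith
    rw [abs_mul, abs_of_pos (show (0 : ℝ) < 13 by norm_num)] at h3
    linarith
  have key : ∀ c : ℤ, |(c : ℝ)| ≤ 6 * R → c ∈ Icc (-⌈6 * R⌉) ⌈6 * R⌉ := by
    intro c hc
    rw [abs_le] at hc
    constructor
    · have : (-c : ℝ) ≤ ⌈6 * R⌉ := le_trans (by linarith) (Int.le_ceil _)
      have : -c ≤ ⌈6 * R⌉ := by exact_mod_cast this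
      linarith
    · have : (c : ℝ) ≤ ⌈6 * R⌉ := le_trans hc.2 (Int.le_ceil _)
      exact_mod_cast this
  exact ⟨key a ha, key b (hb.trans (by linarith))⟩

lemma lu_ls_injective {n : ℤ × ℤ} (h1 : lu n = 0) (h2 : ls n = 0) : n = 0 := by
  obtain ⟨a, b⟩ := n
  have hl := lam_gt
  have hm := mu_lt_one
  simp only [lu, ls] at h1 h2
  have hb : (b : ℝ) = 0 := by
    have : (lam - mu) * b = 0 := by linear_combination h1 - h2
    rcases mul_eq_zero.mp this with h | h
    · linarith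
    · exact h
  have ha : (a : ℝ) = 0 := by
    rw [hb] at h1
    linarith
  ext
  · exact_mod_cast ha
  · exact_mod_cast hb

lemma abs_negone_zpow (j : ℤ) : |(-1 : ℝ) ^ j| = 1 := by
  rw [abs_zpow]
  simp

instance : IsCancelSMul GG E4 := by
  rw [isCancelSMul_iff_eq_one_of_smul_eq]
  intro g p hp
  obtain ⟨n, j, k, rfl⟩ := exists_el g
  rw [el_smul] at hp
  have h2 := congrArg (fun q : E4 => q 2) hp
  have h3 := congrArg (fun q : E4 => q 3) hp
  simp only [actFun] at h2 h3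
  have hj : j = 0 := by
    have : (j : ℝ) * Real.pi = 0 := by
      simpa using h2
    rcases mul_eq_zero.mp this with h | h
    · exact_mod_cast h
    · exact absurd h Real.pi_ne_zero
  have hk : k = 0 := by
    have : (k : ℝ) * per = 0 := by
      simpa using h3
    rcases mul_eq_zero.mp this with h | h
    · exact_mod_cast h
    · exact absurd h per_pos.ne'
  subst hj hk
  have h0 := congrArg (fun q : E4 => q 0) hp
  have h1 := congrArg (fun q : E4 => q 1) hp
  have hu : lu n = 0 := by simpa [actFun] using h0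
  have hs : ls n = 0 := by simpa [actFun] using h1
  rw [lu_ls_injective hu hs]
  apply Subtype.ext
  ext1 q
  exact actFun_zero q

lemma abs_coord_le {K : Set E4} (hK : IsCompact K) :
    ∃ R : ℝ, 0 ≤ R ∧ ∀ p ∈ K, ∀ i, |p i| ≤ R := by
  obtain ⟨R, hR, hKR⟩ := hK.isBounded.subset_closedBall_lt 0 0
  refine ⟨R, hR.le, fun p hp i => ?_⟩
  have h1 : ‖p‖ ≤ R := by simpa using hKR hp
  exact (PiLp.norm_apply_le p i).trans h1

lemma zpow_le_of_abs {c : ℝ} (hc : 1 ≤ c) {k : ℤ} {N : ℕ} (hk : |k| ≤ N) : c ^ k ≤ c ^ N := by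
  rw [← zpow_natCast c N]
  exact zpow_le_zpow_right₀ hc ((le_abs_self k).trans hk)

instance : ProperlyDiscontinuousSMul GG E4 where
  finite_disjoint_inter_image := by
    intro K L hK hL
    obtain ⟨R1, hR1, hK⟩ := abs_coord_le hK
    obtain ⟨R2, hR2, hL⟩ := abs_coord_le hL
    obtain ⟨N, hN⟩ := exists_nat_ge ((R1 + R2) / per)
    obtain ⟨N', hN'⟩ := exists_nat_ge ((R1 + R2) / Real.pi)
    set B : ℝ := R2 + lam ^ N * R1 with hB
    have hfin : (⋃ j ∈ Set.Icc (-(N' : ℤ)) N', ⋃ k ∈ Set.Icc (-(N : ℤ)) N,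
        (fun n => el n j k) '' {n : ℤ × ℤ | |lu n| ≤ B ∧ |ls n| ≤ B}).Finite := by
      apply (Set.finite_Icc _ _).biUnion
      intro j _
      apply (Set.finite_Icc _ _).biUnion
      intro k _
      exact (lattice_finite B).image _
    apply hfin.subset
    rintro g ⟨q, ⟨p, hp, rfl⟩, hq⟩
    obtain ⟨n, j, k, rfl⟩ := exists_el g
    have h1lam : (1 : ℝ) ≤ lam := by linarith [lam_gt]
    have hq0 := hL _ hq 0
    have hq1 := hL _ hq 1
    have hq2 := hL _ hq 2
    have hq3 := hL _ hq 3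
    have hp0 := hK _ hp 0
    have hp1 := hK _ hp 1
    have hp2 := hK _ hp 2
    have hp3 := hK _ hp 3
    simp only [el_smul, actFun] at hq0 hq1 hq2 hq3
    change |(-1) ^ j * lam ^ k * p 0 + lu n| ≤ R2 at hq0
    change |(-1) ^ j * mu ^ k * p 1 + ls n| ≤ R2 at hq1
    change |p 2 + j * Real.pi| ≤ R2 at hq2
    change |p 3 + k * per| ≤ R2 at hq3
    have hk : |k| ≤ (N : ℤ) := by
      have h1 : |(k : ℝ) * per| ≤ R1 + R2 := by
        have : (k : ℝ) * per = (p 3 + k * per) - p 3 := by ring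
        rw [this]
        exact (abs_sub _ _).trans (by linarith)
      rw [abs_mul, abs_of_pos per_pos] at h1
      have h2 : |(k : ℝ)| ≤ N := ((le_div_iff₀ per_pos).mpr h1).trans hN
      exact_mod_cast h2
    have hj : |j| ≤ (N' : ℤ) := by
      have h1 : |(j : ℝ) * Real.pi| ≤ R1 + R2 := by
        have : (j : ℝ) * Real.pi = (p 2 + j * Real.pi) - p 2 := by ring
        rw [this]
        exact (abs_sub _ _).trans (by linarith)
      rw [abs_mul, abs_of_pos Real.pi_pos] at h1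
      have h2 : |(j : ℝ)| ≤ N' := ((le_div_iff₀ Real.pi_pos).mpr h1).trans hN'
      exact_mod_cast h2
    have hlk : lam ^ k ≤ lam ^ N := zpow_le_of_abs h1lam hk
    have hmk : mu ^ k ≤ lam ^ N := by
      rw [mu_eq, inv_zpow, ← zpow_neg]
      exact zpow_le_of_abs h1lam (by rwa [abs_neg])
    have hlk0 : 0 < lam ^ k := zpow_pos lam_pos k
    have hmk0 : 0 < mu ^ k := zpow_pos mu_pos k
    have hu : |lu n| ≤ B := by
      have h1 : lu n = ((-1) ^ j * lam ^ k * p 0 + lu n) - (-1) ^ j * lam ^ k * p 0 := by ring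
      rw [h1]
      refine (abs_sub _ _).trans ?_
      have h2 : |(-1 : ℝ) ^ j * lam ^ k * p 0| ≤ lam ^ N * R1 := by
        rw [abs_mul, abs_mul, abs_negone_zpow, one_mul, abs_of_pos hlk0]
        exact mul_le_mul hlk hp0 (abs_nonneg _) (by positivity)
      linarith
    have hs : |ls n| ≤ B := by
      have h1 : ls n = ((-1) ^ j * mu ^ k * p 1 + ls n) - (-1) ^ j * mu ^ k * p 1 := by ring
      rw [h1]
      refine (abs_sub _ _).trans ?_
      have h2 : |(-1 : ℝ) ^ j * mu ^ k * p 1| ≤ lam ^ N * R1 := by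
        rw [abs_mul, abs_mul, abs_negone_zpow, one_mul, abs_of_pos hmk0]
        exact mul_le_mul hmk hp1 (abs_nonneg _) (by positivity)
      linarith
    exact mem_iUnion₂.mpr ⟨j, abs_le.mp hj, mem_iUnion₂.mpr ⟨k, abs_le.mp hk, n, ⟨hu, hs⟩, rfl⟩⟩

/-- Every orbit meets a compact set. -/
lemma exists_smul_bounded (p : E4) : ∃ g : GG, ∀ i, |(g • p) i| ≤ 64 := by
  have hl := lam_gt
  have hm := mu_lt_one
  have hmp := mu_pos
  have hsum := lam_add_mu
  set k : ℤ := -⌊p 3 / per⌋ with hk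
  set j : ℤ := -⌊p 2 / Real.pi⌋ with hj
  set u : ℝ := (-1) ^ j * lam ^ k * p 0 with hu
  set s : ℝ := (-1) ^ j * mu ^ k * p 1 with hs
  set y : ℝ := (s - u) / (lam - mu) with hy
  set x : ℝ := (-u - (lam - 2) * y) / 13 with hx
  refine ⟨el (⌊x⌋, ⌊y⌋) j k, ?_⟩
  have hd : lam - mu ≠ 0 := by linarith
  have e1 : 13 * x + (lam - 2) * y = -u := by
    rw [hx]
    ring
  have e2 : 13 * x + (mu - 2) * y = -s := by
    have : (lam - mu) * y = s - u := by
      rw [hy]
      field_simp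
    linear_combination e1 - this
  have hfx := Int.floor_le x
  have hfx' := Int.lt_floor_add_one x
  have hfy := Int.floor_le y
  have hfy' := Int.lt_floor_add_one y
  have hf3 := Int.floor_le (p 3 / per)
  have hf3' := Int.lt_floor_add_one (p 3 / per)
  have hf2 := Int.floor_le (p 2 / Real.pi)
  have hf2' := Int.lt_floor_add_one (p 2 / Real.pi)
  rw [le_div_iff₀ per_pos] at hf3
  rw [div_lt_iff₀ per_pos] at hf3'
  rw [le_div_iff₀ Real.pi_pos] at hf2
  rw [div_lt_iff₀ Real.pi_pos] at hf2'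
  have hper : per ≤ 64 := by
    have h1 : per ≤ lam - 1 := Real.log_le_sub_one_of_pos lam_pos
    linarith
  have hpi : Real.pi ≤ 4 := Real.pi_le_four
  intro i
  rw [el_smul]
  fin_cases i
  · change |u + lu (⌊x⌋, ⌊y⌋)| ≤ 64
    have : u + lu (⌊x⌋, ⌊y⌋) = -(13 * (x - ⌊x⌋) + (lam - 2) * (y - ⌊y⌋)) := by
      simp only [lu]
      linear_combination e1
    rw [this, abs_neg, abs_le]
    constructor <;> nlinarith
  · change |s + ls (⌊x⌋, ⌊y⌋)| ≤ 64
    have : s + ls (⌊x⌋, ⌊y⌋) = -(13 * (x - ⌊x⌋) + (mu - 2) * (y - ⌊y⌋)) := by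
      simp only [ls]
      linear_combination e2
    rw [this, abs_neg, abs_le]
    constructor <;> nlinarith
  · change |p 2 + (j : ℝ) * Real.pi| ≤ 64
    rw [hj]
    push_cast
    rw [abs_le]
    constructor <;> nlinarith
  · change |p 3 + (k : ℝ) * per| ≤ 64
    rw [hk]
    push_cast
    rw [abs_le]
    constructor <;> nlinarith

instance : CompactSpace (Q E4 GG) := by
  have h1 : IsCompact (Metric.closedBall (0 : E4) 128) := isCompact_closedBall _ _
  have h2 : (proj GG : E4 → Q E4 GG) '' Metric.closedBall (0 : E4) 128 = univ := by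
    apply eq_univ_of_forall
    intro q
    obtain ⟨p, rfl⟩ := proj_surjective GG q
    obtain ⟨g, hg⟩ := exists_smul_bounded p
    refine ⟨g • p, ?_, proj_smul GG g p⟩
    rw [mem_closedBall_zero_iff, EuclideanSpace.norm_eq]
    apply Real.sqrt_le_iff.mpr
    refine ⟨by norm_num, ?_⟩
    have h3 : ∀ i, ‖(g • p) i‖ ^ 2 ≤ 64 ^ 2 := by
      intro i
      apply pow_le_pow_left₀ (norm_nonneg _) (hg i)
    calc ∑ i, ‖(g • p) i‖ ^ 2 ≤ ∑ _i : Fin 4, (64 : ℝ) ^ 2 := Finset.sum_le_sum (fun i _ => h3 i)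
      _ ≤ 128 ^ 2 := by
        simp
        norm_num
  constructor
  rw [← h2]
  exact h1.image (isCoveringMap_proj GG).continuous

instance : T2Space (Q E4 GG) := t2Space_of_properlyDiscontinuousSMul_of_t2Space

end

end Pool.Agent.Lib.MP_3704ac_gt
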