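import Pool.Agent.Lib.MP_3704ac_gt.ActionTop

/-!
# Arithmetic of the matrix `A = [[2, 5], [13, 33]]`
-/

set_option autoImplicit false

open Set Topology

namespace Pool.Agent.Lib.MP_3704ac_gt

noncomputable section

/-- The values of the quadratic form `13 x² + 31 x y - 5 y²` which divide `1221`: there are
none. -/
lemma form_ne {m x y : ℤ} (hm : m ∣ 1221) (h : 13 * x ^ 2 + 31 * x * y - 5 * y ^ 2 = m) :
    False := by
  have c3 : ∀ x y : ZMod 3, 13 * x ^ 2 + 31 * x * y - 5 * y ^ 2 ≠ -1 := by decide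
  have c11 : ∀ x y : ZMod 11, 13 * x ^ 2 + 31 * x * y - 5 * y ^ 2 ≠ 1 ∧
      13 * x ^ 2 + 31 * x * y - 5 * y ^ 2 ≠ 3 ∧ 13 * x ^ 2 + 31 * x * y - 5 * y ^ 2 ≠ 4 := by
    decide +kernel
  have c37 : ∀ x y : ZMod 37, 13 * x ^ 2 + 31 * x * y - 5 * y ^ 2 ≠ -11 ∧
      13 * x ^ 2 + 31 * x * y - 5 * y ^ 2 ≠ -33 := by decide +kernel
  have c9 : ∀ x y : ZMod 9, 13 * x ^ 2 + 31 * x * y - 5 * y ^ 2 ≠ -3 := by decide +kernel
  have c121 : ∀ x y : ZMod 121, 13 * x ^ 2 + 31 * x * y - 5 * y ^ 2 ≠ -407 ∧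
      13 * x ^ 2 + 31 * x * y - 5 * y ^ 2 ≠ -1221 := by decide +kernel
  have hN : ∀ N : ℕ, (13 * (x : ZMod N) ^ 2 + 31 * x * y - 5 * y ^ 2) = m := by
    intro N
    rw [← h]
    push_cast
    ring
  have h1 : m.natAbs ∈ Nat.divisors 1221 := by
    rw [Nat.mem_divisors]
    exact ⟨by simpa using Int.natAbs_dvd_natAbs.mpr hm, by norm_num⟩
  have h2 : Nat.divisors 1221 = {1, 3, 11, 33, 37, 111, 407, 1221} := by decide +kernel
  rw [h2] at h1
  simp only [Finset.mem_insert, Finset.mem_singleton] at h1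
  rcases h1 with h1 | h1 | h1 | h1 | h1 | h1 | h1 | h1 <;>
    rcases Int.natAbs_eq m with h3 | h3 <;> rw [h1] at h3 <;> push_cast at h3
  · exact (c11 x y).1 (by rw [hN, h3]; rfl)
  · exact c3 x y (by rw [hN, h3]; rfl)
  · exact (c11 x y).2.1 (by rw [hN, h3]; rfl)
  · exact c9 x y (by rw [hN, h3]; rfl)
  · exact c3 x y (by rw [hN, h3]; rfl)
  · exact (c37 x y).1 (by rw [hN, h3]; rfl)
  · exact c9 x y (by rw [hN, h3]; rfl)
  · exact (c37 x y).2 (by rw [hN, h3]; rfl)
  · exact (c11 x y).2.2 (by rw [hN, h3]; rfl)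
  · exact c3 x y (by rw [hN, h3]; rfl)
  · exact (c11 x y).1 (by rw [hN, h3]; rfl)
  · exact c9 x y (by rw [hN, h3]; rfl)
  · exact c3 x y (by rw [hN, h3]; rfl)
  · exact (c121 x y).1 (by rw [hN, h3]; rfl)
  · exact c9 x y (by rw [hN, h3]; rfl)
  · exact (c121 x y).2 (by rw [hN, h3]; rfl)

/-- `A` is not conjugate to its inverse by an element of determinant `-1`. -/
lemma no_reflection {p q r : ℤ} (h1 : 31 * p = 13 * q + 5 * r) (h2 : p ^ 2 + q * r = 1) :
    False := by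
  have hr : r ≠ 0 := by
    rintro rfl
    have hp : p = 1 ∨ p = -1 := by
      have : (p - 1) * (p + 1) = 0 := by linear_combination h2
      rcases mul_eq_zero.mp this with h | h
      · left; linarith
      · right; linarith
    rcases hp with rfl | rfl <;> omega
  obtain ⟨g, x, y, hg, hxy, hx, hy⟩ : ∃ g x y : ℤ, g ≠ 0 ∧ IsCoprime x y ∧ 1 + p = g * x ∧
      r = g * y := by
    have hpos : 0 < Int.gcd (1 + p) r := Int.gcd_pos_of_ne_zero_right _ hr
    obtain ⟨x, y, hxy, hx, hy⟩ := Int.exists_gcd_one hpos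
    refine ⟨Int.gcd (1 + p) r, x, y, by exact_mod_cast hpos.ne', ?_, ?_, ?_⟩
    · exact Int.isCoprime_iff_gcd_eq_one.mpr hxy
    · rw [mul_comm]
      exact hx
    · rw [mul_comm]
      exact hy
  have hy0 : y ≠ 0 := by
    rintro rfl
    exact hr (by rw [hy, mul_zero])
  have e1 : (1 - p) * x = q * y := by
    apply mul_left_cancel₀ hg
    linear_combination -(1 - p) * hx + q * hy - h2
  obtain ⟨h, hh⟩ : y ∣ 1 - p := by
    apply hxy.symm.dvd_of_dvd_mul_right
    exact ⟨q, by rw [e1, mul_comm]⟩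
  have hq : q = h * x := by
    apply mul_left_cancel₀ hy0
    linear_combination x * hh - e1
  have e2 : g * x + h * y = 2 := by linear_combination -hx - hh
  set m := 13 * x ^ 2 + 31 * x * y - 5 * y ^ 2 with hm
  have e3 : g * (31 * x - 10 * y) = h * (26 * x + 31 * y) := by
    linear_combination 2 * h1 - 31 * hx + 31 * hh + 26 * hq + 10 * hy
  have e4 : g * m = 26 * x + 31 * y := by
    have : 2 * (g * m) = 2 * (26 * x + 31 * y) := by
      rw [hm]
      linear_combination y * e3 + (26 * x + 31 * y) * e2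
    linarith
  have e5 : h * m = 31 * x - 10 * y := by
    have : 2 * (h * m) = 2 * (31 * x - 10 * y) := by
      rw [hm]
      linear_combination -x * e3 + (31 * x - 10 * y) * e2
    linarith
  have e6 : m ∣ 1221 := by
    obtain ⟨a, b, hab⟩ := hxy
    refine ⟨a * (10 * g + 31 * h) + b * (31 * g - 26 * h), ?_⟩
    linear_combination (-1221) * hab - (10 * a + 31 * b) * e4 - (31 * a - 26 * b) * e5
  exact form_ne e6 rfl

/-- `A` is not conjugate to its inverse by an element of determinant `1`. -/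
lemma no_rotation {p q r : ℤ} (h1 : 31 * p = 13 * q + 5 * r) (h2 : p ^ 2 + q * r = -1) :
    False := by
  have h3 : (13 * q - 5 * r) ^ 2 + 961 = 1221 * (p ^ 2 + 1) := by
    linear_combination (-(31 * p) - (13 * q + 5 * r)) * h1 - 260 * h2
  have c3 : ∀ w p : ZMod 3, w ^ 2 + 961 ≠ 1221 * (p ^ 2 + 1) := by decide
  apply c3 (13 * q - 5 * r : ℤ) p
  exact_mod_cast congrArg (Int.cast : ℤ → ZMod 3) h3

end

end Pool.Agent.Lib.MP_3704ac_gt
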