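import Pool.Agent.Lib.MP_3704ac_gt.Arith

/-!
# Additive bijections of `ℤ²` normalizing `A`
-/

set_option autoImplicit false

open Set Topology

namespace Pool.Agent.Lib.MP_3704ac_gt

noncomputable section

lemma additive_form {B : ℤ × ℤ → ℤ × ℤ} (hB : ∀ m n, B (m + n) = B m + B n) :
    ∃ p q r s : ℤ, ∀ n : ℤ × ℤ, B n = (p * n.1 + q * n.2, r * n.1 + s * n.2) := by
  set φ : ℤ × ℤ →+ ℤ × ℤ := AddMonoidHom.mk' B hB with hφ
  refine ⟨(B (1, 0)).1, (B (0, 1)).1, (B (1, 0)).2, (B (0, 1)).2, fun n => ?_⟩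
  have h1 : n = n.1 • ((1, 0) : ℤ × ℤ) + n.2 • ((0, 1) : ℤ × ℤ) := by
    ext <;> simp
  have h2 : B n = n.1 • B (1, 0) + n.2 • B (0, 1) := by
    have h3 : φ n = n.1 • φ (1, 0) + n.2 • φ (0, 1) := by
      conv_lhs => rw [h1]
      rw [map_add, map_zsmul, map_zsmul]
    exact h3
  rw [h2]
  ext
  · simp
    ring
  · simp
    ring

lemma det_eq {B B' : ℤ × ℤ → ℤ × ℤ} (hB' : ∀ m n, B' (m + n) = B' m + B' n)
    (hBB : ∀ n, B' (B n) = n) {p q r s : ℤ}
    (h : ∀ n : ℤ × ℤ, B n = (p * n.1 + q * n.2, r * n.1 + s * n.2)) :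
    p * s - q * r = 1 ∨ p * s - q * r = -1 := by
  obtain ⟨p', q', r', s', h'⟩ := additive_form hB'
  have e1 := hBB (1, 0)
  have e2 := hBB (0, 1)
  rw [h, h', Prod.ext_iff] at e1 e2
  simp only [mul_one, mul_zero, add_zero, zero_add] at e1 e2
  obtain ⟨e1, e3⟩ := e1
  obtain ⟨e2, e4⟩ := e2
  apply Int.eq_one_or_neg_one_of_mul_eq_one (v := p' * s' - q' * r')
  linear_combination (r' * q + s' * s) * e1 + e4 - (p' * q + q' * s) * e3

/-- `A` is not conjugate to its inverse. -/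
lemma not_inverting {B B' : ℤ × ℤ → ℤ × ℤ} (hB : ∀ m n, B (m + n) = B m + B n)
    (hB' : ∀ m n, B' (m + n) = B' m + B' n) (hBB : ∀ n, B' (B n) = n)
    (h : ∀ n, Aa (B (Aa n)) = B n) : False := by
  obtain ⟨p, q, r, s, hf⟩ := additive_form hB
  have hdet := det_eq hB' hBB hf
  have e1 := h (1, 0)
  have e2 := h (0, 1)
  simp only [hf, Aa_apply, Prod.ext_iff, mul_one, mul_zero, add_zero, zero_add] at e1 e2
  have hs : s = -p := by omega
  have h31 : 31 * p = 13 * q + 5 * r := by omega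
  subst hs
  rcases hdet with hd | hd
  · exact no_rotation h31 (by linear_combination -hd)
  · exact no_reflection h31 (by linear_combination -hd)

lemma commuting_form {B : ℤ × ℤ → ℤ × ℤ} (hB : ∀ m n, B (m + n) = B m + B n)
    (h : ∀ n, B (Aa n) = Aa (B n)) :
    ∃ x y : ℤ, ∀ n : ℤ × ℤ, B n = ((x + 2 * y) * n.1 + (5 * y) * n.2,
      (13 * y) * n.1 + (x + 33 * y) * n.2) := by
  obtain ⟨p, q, r, s, hf⟩ := additive_form hB
  have e1 := h (1, 0)
  have e2 := h (0, 1)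
  simp only [hf, Aa_apply, Prod.ext_iff, mul_one, mul_zero, add_zero, zero_add] at e1 e2
  obtain ⟨y, hy⟩ : ∃ y, s - p = 31 * y := ⟨(s - p) / 31, by omega⟩
  refine ⟨p - 2 * y, y, fun n => ?_⟩
  have hq : q = 5 * y := by omega
  have hr : r = 13 * y := by omega
  have hs : s = p - 2 * y + 33 * y := by omega
  rw [hf, hq, hr, hs]
  ext
  · simp
  · rfl

lemma lu_form {B : ℤ × ℤ → ℤ × ℤ} {x y : ℤ}
    (h : ∀ n : ℤ × ℤ, B n = ((x + 2 * y) * n.1 + (5 * y) * n.2,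
      (13 * y) * n.1 + (x + 33 * y) * n.2)) (n : ℤ × ℤ) : lu (B n) = (x + y * lam) * lu n := by
  rw [h]
  simp only [lu]
  push_cast
  linear_combination (-(y : ℝ) * n.2) * lam_sq

lemma ls_form {B : ℤ × ℤ → ℤ × ℤ} {x y : ℤ}
    (h : ∀ n : ℤ × ℤ, B n = ((x + 2 * y) * n.1 + (5 * y) * n.2,
      (13 * y) * n.1 + (x + 33 * y) * n.2)) (n : ℤ × ℤ) : ls (B n) = (x + y * mu) * ls n := by
  rw [h]
  simp only [ls]
  push_cast
  linear_combination (-(y : ℝ) * n.2) * mu_sq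

lemma Aa_lin (j k : ℤ) (n : ℤ × ℤ) : lin j k (Aa n) = Aa (lin j k n) := by
  have h1 : Aa = lin 0 1 := by simp [lin]
  rw [h1, lin_apply_lin, lin_apply_lin, add_comm j, add_comm k]

lemma exists_sign (κ : ℝ) (hκ : κ ≠ 0) : ∃ j : ℤ, (-1 : ℝ) ^ j * κ = |κ| := by
  rcases lt_or_gt_of_ne hκ with h | h
  · exact ⟨1, by rw [abs_of_neg h]; simp⟩
  · exact ⟨0, by rw [abs_of_pos h]; simp⟩

lemma neg_one_zpow_mul_self (j : ℤ) : (-1 : ℝ) ^ j * (-1) ^ j = 1 := by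
  rw [← mul_zpow]
  simp

/-- The commutant of `A`. -/
lemma commuting {B B' : ℤ × ℤ → ℤ × ℤ} (hB : ∀ m n, B (m + n) = B m + B n)
    (hB' : ∀ m n, B' (m + n) = B' m + B' n) (hBB : ∀ n, B' (B n) = n)
    (h : ∀ n, B (Aa n) = Aa (B n)) : ∃ j k : ℤ, ∀ n, B n = lin j k n := by
  obtain ⟨x, y, hf⟩ := commuting_form hB h
  have hdet := det_eq hB' hBB hf
  have hd : x ^ 2 + 35 * x * y + y ^ 2 = 1 := by
    rcases hdet with hd | hd
    · linear_combination hd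
    · exfalso
      have c3 : ∀ x y : ZMod 3, (x + 2 * y) * (x + 33 * y) - 5 * y * (13 * y) ≠ -1 := by decide
      apply c3 x y
      exact_mod_cast congrArg (Int.cast : ℤ → ZMod 3) hd
  have hdR : ((x : ℝ) + y * lam) * (x + y * mu) = 1 := by
    have : (x : ℝ) ^ 2 + 35 * x * y + y ^ 2 = 1 := by exact_mod_cast hd
    linear_combination this + (x * y : ℝ) * lam_add_mu + (y ^ 2 : ℝ) * lam_mul_mu
  set κ := (x : ℝ) + y * lam with hκ
  set κ' := (x : ℝ) + y * mu with hκ'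
  have hκ0 : κ ≠ 0 := left_ne_zero_of_mul_eq_one hdR
  obtain ⟨j, hj⟩ := exists_sign κ hκ0
  obtain ⟨k, hk1, hk2⟩ := exists_mem_Ico_zpow (abs_pos.mpr hκ0)
    (show 1 < lam by linarith [lam_gt])
  -- the normalized map
  have hC : ∀ m n, lin j (-k) (B (m + n)) = lin j (-k) (B m) + lin j (-k) (B n) := by
    intro m n
    rw [hB, map_add]
  have hCA : ∀ n, lin j (-k) (B (Aa n)) = Aa (lin j (-k) (B n)) := by
    intro n
    rw [h, Aa_lin]
  obtain ⟨x₁, y₁, hf₁⟩ := commuting_form (B := fun n => lin j (-k) (B n)) hC hCA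
  have a1 := lu_form hf₁ (1, 0)
  have a2 := ls_form hf₁ (1, 0)
  rw [lu_lin, lu_form hf, ← hκ] at a1
  rw [ls_lin, ls_form hf, ← hκ'] at a2
  have l1 : lu (1, 0) = 13 := by simp [lu]
  have l2 : ls (1, 0) = 13 := by simp [ls]
  rw [l1] at a1
  rw [l2] at a2
  have hlk : 0 < lam ^ k := zpow_pos lam_pos k
  have b1 : (x₁ : ℝ) + y₁ * lam = |κ| * (lam ^ k)⁻¹ := by
    rw [← hj, ← zpow_neg]
    linear_combination (-1 / 13) * a1
  have b2 : ((x₁ : ℝ) + y₁ * lam) * (x₁ + y₁ * mu) = 1 := by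
    have c1 : (x₁ : ℝ) + y₁ * lam = (-1) ^ j * lam ^ (-k) * κ := by linear_combination (-1 / 13) * a1
    have c2 : (x₁ : ℝ) + y₁ * mu = (-1) ^ j * mu ^ (-k) * κ' := by linear_combination (-1 / 13) * a2
    have c3 : lam ^ (-k) * mu ^ (-k) = 1 := by rw [← mul_zpow, lam_mul_mu, one_zpow]
    rw [c1, c2]
    linear_combination ((-1 : ℝ) ^ j * (-1) ^ j * (κ * κ')) * c3 +
      ((-1 : ℝ) ^ j * (-1) ^ j) * hdR + neg_one_zpow_mul_self j
  have b3 : 1 ≤ (x₁ : ℝ) + y₁ * lam := by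
    rw [b1, ← div_eq_mul_inv, le_div_iff₀ hlk, one_mul]
    exact hk1
  have b4 : (x₁ : ℝ) + y₁ * lam < lam := by
    rw [b1, ← div_eq_mul_inv, div_lt_iff₀ hlk, mul_comm, ← zpow_add_one₀ lam_pos.ne']
    exact hk2
  have hl := lam_gt
  have hm := mu_lt_one
  have hmp := mu_pos
  have b5 : (x₁ : ℝ) + y₁ * mu ≤ 1 := by
    by_contra hcon
    push Not at hcon
    nlinarith
  have b6 : mu < (x₁ : ℝ) + y₁ * mu := by
    by_contra hcon
    push Not at hcon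
    have : ((x₁ : ℝ) + y₁ * lam) * (x₁ + y₁ * mu) < lam * mu := by
      have p1 : ((x₁ : ℝ) + y₁ * lam) * (x₁ + y₁ * mu) ≤ ((x₁ : ℝ) + y₁ * lam) * mu :=
        mul_le_mul_of_nonneg_left hcon (by linarith)
      have p2 : ((x₁ : ℝ) + y₁ * lam) * mu < lam * mu := mul_lt_mul_of_pos_right b4 hmp
      linarith
    rw [b2, lam_mul_mu] at this
    exact lt_irrefl _ this
  have hy1 : (y₁ : ℝ) < 1 := by
    by_contra hcon
    push Not at hcon
    nlinarith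
  have hy2 : (-1 : ℝ) < y₁ := by
    by_contra hcon
    push Not at hcon
    nlinarith
  have hy : y₁ = 0 := by
    have q1 : y₁ < 1 := by exact_mod_cast hy1
    have q2 : -1 < y₁ := by exact_mod_cast hy2
    omega
  subst hy
  have hx : x₁ = 1 := by
    have q1 : (x₁ : ℝ) * x₁ = 1 := by simpa using b2
    have q2 : (1 : ℝ) ≤ x₁ := by simpa using b3
    have q3 : (x₁ : ℝ) = 1 := by nlinarith
    exact_mod_cast q3
  subst hx
  refine ⟨-j, k, fun n => ?_⟩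
  have e : lin j (-k) (B n) = n := by
    rw [hf₁]
    simp
  rw [← e, lin_apply_lin, neg_add_cancel, add_neg_cancel, lin_zero, e]
  rfl

end

end Pool.Agent.Lib.MP_3704ac_gt
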