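import Pool.Agent.Lib.MP_3704ac_gt.Quot

/-!
# Lifting diffeomorphisms of the quotient
-/

set_option autoImplicit false
set_option linter.unusedSectionVars false

open Set Topology Manifold MulAction
open scoped ContDiff

namespace Pool.Agent.Lib.MP_3704ac_gt

noncomputable section

variable {E : Type} [NormedAddCommGroup E] [NormedSpace ℝ E] [FiniteDimensional ℝ E]
  [LocallyCompactSpace E]
variable (G : Type) [Group G] [MulAction G E] [ProperlyDiscontinuousSMul G E]
  [ContinuousConstSMul G E] [IsCancelSMul G E]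

/-- Two lifts of the same map differ by an element of the group. -/
lemma lift_unique {F F' : E → E} (hF : Continuous F) (hF' : Continuous F')
    (h : ∀ x, proj G (F x) = proj G (F' x)) : ∃ g : G, ∀ x, F x = g • F' x := by
  obtain ⟨g, hg⟩ := (proj_eq_iff G).mp (h 0)
  refine ⟨g, ?_⟩
  have h1 : F = fun x => g • F' x := by
    apply (isCoveringMap_proj G).eq_of_comp_eq hF ((continuous_const_smul g).comp hF')
      (funext fun x => ?_) 0 hg
    simp only [Function.comp_apply, h x, proj_smul]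
  exact fun x => congrFun h1 x

/-- Existence of lifts, with prescribed value at one point. -/
lemma lift_exists (f : Q E G → Q E G) (hf : Continuous f) (x₀ y₀ : E)
    (h : proj G y₀ = f (proj G x₀)) :
    ∃ F : E → E, Continuous F ∧ F x₀ = y₀ ∧ ∀ x, proj G (F x) = f (proj G x) := by
  obtain ⟨F, ⟨hF0, hF⟩, -⟩ := (isCoveringMap_proj G (E := E)).existsUnique_continuousMap_lifts
    ⟨fun x => f (proj G x), hf.comp (isCoveringMap_proj G).continuous⟩ x₀ y₀ h
  exact ⟨F, F.continuous, hF0, fun x => congrFun hF x⟩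

variable (hs : ∀ g : G, ContDiff ℝ ∞ (fun x : E => g • x))
include hs

lemma contDiff_lift {f : Q E G → Q E G} (hf : ContMDiff 𝓘(ℝ, E) 𝓘(ℝ, E) ∞ f) {F : E → E}
    (hF : Continuous F) (h : ∀ x, proj G (F x) = f (proj G x)) : ContDiff ℝ ∞ F := by
  rw [contDiff_iff_contDiffAt]
  intro x₀
  have h1 : ContMDiffAt 𝓘(ℝ, E) 𝓘(ℝ, E) ∞ (linv G (F x₀)) (proj G (F x₀)) :=
    (contMDiffOn_linv G hs (F x₀)).contMDiffAt
      ((linv G (F x₀)).open_source.mem_nhds (mem_linv_source G (F x₀)))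
  have h2 : ContMDiffAt 𝓘(ℝ, E) 𝓘(ℝ, E) ∞ (fun x => proj G (F x)) x₀ := by
    have : (fun x => proj G (F x)) = fun x => f (proj G x) := funext h
    rw [this]
    exact (hf.comp (contMDiff_proj G hs)) x₀
  have h3 : ContMDiffAt 𝓘(ℝ, E) 𝓘(ℝ, E) ∞ (fun x => linv G (F x₀) (proj G (F x))) x₀ :=
    ContMDiffAt.comp x₀ h1 h2
  have h4 : ContDiffAt ℝ ∞ (fun x => linv G (F x₀) (proj G (F x))) x₀ := h3.contDiffAt
  apply h4.congr_of_eventuallyEq
  have h5 : F x₀ ∈ (linv G (F x₀)).target :=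
    (isLocalHomeomorph_proj G).self_mem_localInverseAt_target
  filter_upwards [hF.continuousAt ((linv G (F x₀)).open_target.mem_nhds h5)] with x hx
  have h6 := (linv G (F x₀)).right_inv hx
  rw [linv_symm] at h6
  exact h6.symm

lemma mfderiv_lift {f : Q E G → Q E G} (hf : ContMDiff 𝓘(ℝ, E) 𝓘(ℝ, E) ∞ f) {F : E → E}
    (hF : Continuous F) (h : ∀ x, proj G (F x) = f (proj G x)) (x v : E) :
    mfderiv 𝓘(ℝ, E) 𝓘(ℝ, E) (proj G) (F x) (fderiv ℝ F x v) =
      mfderiv 𝓘(ℝ, E) 𝓘(ℝ, E) f (proj G x) (mfderiv 𝓘(ℝ, E) 𝓘(ℝ, E) (proj G) x v) := by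
  have hFs := contDiff_lift G hs hf hF h
  have h1 : (proj G : E → Q E G) ∘ F = f ∘ proj G := funext h
  have hp : ∀ y : E, MDifferentiableAt 𝓘(ℝ, E) 𝓘(ℝ, E) (proj G : E → Q E G) y :=
    (contMDiff_proj G hs).mdifferentiable (by simp)
  have hFd : MDifferentiableAt 𝓘(ℝ, E) 𝓘(ℝ, E) F x :=
    (hFs.contMDiff).mdifferentiable (by simp) _
  have hfd : MDifferentiableAt 𝓘(ℝ, E) 𝓘(ℝ, E) f (proj G x) :=
    hf.mdifferentiable (by simp) _
  have h2 := mfderiv_comp x (hp (F x)) hFd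
  have h3 := mfderiv_comp x hfd (hp x)
  rw [h1] at h2
  rw [h2, mfderiv_eq_fderiv] at h3
  exact congrArg (fun L => L v) h3

end

end Pool.Agent.Lib.MP_3704ac_gt
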