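import Pool.Agent.Lib.MP_3704ac_gt.Fields
import Pool.Agent.Lib.MP_3704ac_gt.Lift

/-!
# The Engel structure on the quotient
-/

set_option autoImplicit false

open Set Topology Manifold
open scoped ContDiff

namespace Pool.Agent.Lib.MP_3704ac_gt

noncomputable section

/-- The closed manifold. -/
abbrev MM : Type := Q E4 GG

instance : IsManifold (𝓡 4) ∞ MM := isManifold_quot GG contDiff_smul_el

instance : Nonempty MM := ⟨proj GG 0⟩

/-- The Engel structure. -/
def DD (x : MM) : Submodule ℝ (TangentSpace (𝓡 4) x) :=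
  Submodule.span ℝ {descend GG Tf x, descend GG Xf x}

lemma Zf_inv (g : GG) (x : E4) : fderiv ℝ (fun y : E4 => g • y) x (Zf x) = Zf (g • x) := by
  rw [← lb_Tf_Xf]
  exact lb_invariant GG contDiff_smul_el contDiff_Tf contDiff_Xf Tf_inv Xf_inv g x

lemma Wf_inv (g : GG) (x : E4) : fderiv ℝ (fun y : E4 => g • y) x (Wf x) = Wf (g • x) := by
  rw [← lb_Xf_Zf]
  exact lb_invariant GG contDiff_smul_el contDiff_Xf contDiff_Zf Xf_inv Zf_inv g x

lemma mlieBracket_Tf_Xf : VectorField.mlieBracket (𝓡 4) (descend GG Tf) (descend GG Xf) =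
    descend GG Zf := by
  rw [← lb_Tf_Xf]
  exact mlieBracket_descend GG contDiff_smul_el contDiff_Tf contDiff_Xf Tf_inv Xf_inv

lemma mlieBracket_Xf_Zf : VectorField.mlieBracket (𝓡 4) (descend GG Xf) (descend GG Zf) =
    descend GG Wf := by
  rw [← lb_Xf_Zf]
  exact mlieBracket_descend GG contDiff_smul_el contDiff_Xf contDiff_Zf Xf_inv Zf_inv

/-- The derivative of the projection. -/
def dpr (x : E4) : E4 →ₗ[ℝ] E4 :=
  ((dproj GG contDiff_smul_el x : E4 ≃L[ℝ] E4) : E4 →L[ℝ] E4)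

lemma dpr_apply (x v : E4) :
    dpr x v = mfderiv (𝓡 4) (𝓡 4) (proj GG : E4 → MM) x v :=
  congrArg (fun L : E4 →L[ℝ] E4 => L v) (dproj_coe GG contDiff_smul_el x)

lemma dpr_injective (x : E4) : Function.Injective (dpr x) :=
  (dproj GG contDiff_smul_el x).injective

lemma dpr_surjective (x : E4) : Function.Surjective (dpr x) :=
  (dproj GG contDiff_smul_el x).surjective

lemma descend_eq_dpr {V : E4 → E4}
    (hV : ∀ (g : GG) (x : E4), fderiv ℝ (fun y : E4 => g • y) x (V x) = V (g • x)) (x : E4) :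
    descend GG V (proj GG x) = dpr x (V x) := by
  rw [descend_proj GG contDiff_smul_el hV, dpr_apply]

theorem engel (q : MM) : ∃ X Y : (y : MM) → TangentSpace (𝓡 4) y,
      ContMDiff (𝓡 4) (𝓡 4).tangent ∞ (fun y => (X y : TangentBundle (𝓡 4) MM)) ∧
      ContMDiff (𝓡 4) (𝓡 4).tangent ∞ (fun y => (Y y : TangentBundle (𝓡 4) MM)) ∧
      (∀ᶠ y in nhds q, DD y = Submodule.span ℝ {X y, Y y}) ∧
      LinearIndependent ℝ ![X q, Y q, VectorField.mlieBracket (𝓡 4) X Y q] ∧
      Submodule.span ℝ {X q, Y q, VectorField.mlieBracket (𝓡 4) X Y q,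
        VectorField.mlieBracket (𝓡 4) X (VectorField.mlieBracket (𝓡 4) X Y) q,
        VectorField.mlieBracket (𝓡 4) Y (VectorField.mlieBracket (𝓡 4) X Y) q} = ⊤ := by
  refine ⟨descend GG Tf, descend GG Xf,
    contMDiff_descend GG contDiff_smul_el contDiff_Tf Tf_inv,
    contMDiff_descend GG contDiff_smul_el contDiff_Xf Xf_inv,
    Filter.Eventually.of_forall fun y => rfl, ?_, ?_⟩
  · obtain ⟨x, rfl⟩ := proj_surjective GG q
    rw [mlieBracket_Tf_Xf, descend_eq_dpr Tf_inv, descend_eq_dpr Xf_inv, descend_eq_dpr Zf_inv]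
    have h1 : LinearIndependent ℝ ![Tf x, Xf x, Zf x] := by
      have h := (linearIndependent_TXZW x).comp (Fin.castSucc : Fin 3 → Fin 4)
        (Fin.castSucc_injective 3)
      convert h using 1
      funext i
      fin_cases i <;> rfl
    have h2 := h1.map' (dpr x) (LinearMap.ker_eq_bot.mpr (dpr_injective x))
    have h3 : (dpr x ∘ ![Tf x, Xf x, Zf x]) = ![dpr x (Tf x), dpr x (Xf x), dpr x (Zf x)] := by
      funext i
      fin_cases i <;> rfl
    rw [h3] at h2
    exact h2
  · obtain ⟨x, rfl⟩ := proj_surjective GG q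
    rw [mlieBracket_Tf_Xf, mlieBracket_Xf_Zf, descend_eq_dpr Tf_inv, descend_eq_dpr Xf_inv,
      descend_eq_dpr Zf_inv, descend_eq_dpr Wf_inv]
    have h1 : Submodule.span ℝ (Set.range ![Tf x, Xf x, Zf x, Wf x]) = ⊤ := by
      apply (linearIndependent_TXZW x).span_eq_top_of_card_eq_finrank'
      simp
    have h2 : Submodule.map (dpr x) (Submodule.span ℝ (Set.range ![Tf x, Xf x, Zf x, Wf x])) = ⊤ := by
      rw [h1, Submodule.map_top]
      exact LinearMap.range_eq_top.mpr (dpr_surjective x)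
    rw [Submodule.map_span] at h2
    rw [eq_top_iff]
    refine le_trans h2.ge ?_
    apply Submodule.span_mono
    rintro _ ⟨_, ⟨i, rfl⟩, rfl⟩
    fin_cases i
    · exact Or.inl rfl
    · exact Or.inr (Or.inl rfl)
    · exact Or.inr (Or.inr (Or.inl rfl))
    · exact Or.inr (Or.inr (Or.inr (Or.inr rfl)))

end

end Pool.Agent.Lib.MP_3704ac_gt
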