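import Pool.Agent.Lib.MP_3704ac_gt.ActionTop

/-!
# The invariant vector fields on `ℝ⁴`
-/

set_option autoImplicit false

open Set Topology
open scoped ContDiff

namespace Pool.Agent.Lib.MP_3704ac_gt

noncomputable section

/-- The vector field `T = ∂_t + sin (2ω) ∂_ω`. -/
def Tf (p : E4) : E4 := !₂[0, 0, Real.sin (2 * p 2), 1]

/-- The vector field `X = e^t cos ω ∂_u + e^{-t} sin ω ∂_s - cos (2ω) ∂_ω`. -/
def Xf (p : E4) : E4 :=
  !₂[Real.exp (p 3) * Real.cos (p 2), Real.exp (-p 3) * Real.sin (p 2), -Real.cos (2 * p 2), 0]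

/-- The vector field `Z = [T, X]`. -/
def Zf (p : E4) : E4 :=
  !₂[Real.cos (2 * p 2) * (Real.exp (p 3) * Real.cos (p 2)),
    Real.cos (2 * p 2) * (Real.exp (-p 3) * Real.sin (p 2)), 2, 0]

/-- The vector field `W = [X, Z]`. -/
def Wf (p : E4) : E4 :=
  !₂[Real.exp (p 3) * (2 * Real.cos (2 * p 2) * Real.sin (2 * p 2) * Real.cos (p 2) +
      (Real.cos (2 * p 2) ^ 2 + 2) * Real.sin (p 2)),
    Real.exp (-p 3) * (2 * Real.cos (2 * p 2) * Real.sin (2 * p 2) * Real.sin (p 2) -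
      (Real.cos (2 * p 2) ^ 2 + 2) * Real.cos (p 2)), -4 * Real.sin (2 * p 2), 0]

lemma contDiff_Tf : ContDiff ℝ ∞ Tf := by
  apply contDiff_vec <;> fun_prop

lemma contDiff_Xf : ContDiff ℝ ∞ Xf := by
  apply contDiff_vec <;> fun_prop

lemma contDiff_Zf : ContDiff ℝ ∞ Zf := by
  apply contDiff_vec <;> fun_prop

lemma exp_mul_per (k : ℤ) : Real.exp (k * per) = lam ^ k := by
  rw [per, ← Real.log_zpow, Real.exp_log (zpow_pos lam_pos k)]

lemma exp_neg_mul_per (k : ℤ) : Real.exp (-(k * per)) = mu ^ k := by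
  rw [Real.exp_neg, exp_mul_per, mu_eq, inv_zpow]

lemma sin_two_add (x : ℝ) (j : ℤ) : Real.sin (2 * (x + j * Real.pi)) = Real.sin (2 * x) := by
  rw [show 2 * (x + j * Real.pi) = 2 * x + j * (2 * Real.pi) by ring, Real.sin_add_int_mul_two_pi]

lemma cos_two_add (x : ℝ) (j : ℤ) : Real.cos (2 * (x + j * Real.pi)) = Real.cos (2 * x) := by
  rw [show 2 * (x + j * Real.pi) = 2 * x + j * (2 * Real.pi) by ring, Real.cos_add_int_mul_two_pi]

lemma Tf_inv (g : GG) (x : E4) : fderiv ℝ (fun y : E4 => g • y) x (Tf x) = Tf (g • x) := by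
  obtain ⟨n, j, k, rfl⟩ := exists_el g
  rw [fderiv_smul_el]
  ext i
  fin_cases i
  · simp [Tf]
  · simp [Tf]
  · simp [Tf, el_smul, actFun, sin_two_add]
  · simp [Tf]

lemma Xf_inv (g : GG) (x : E4) : fderiv ℝ (fun y : E4 => g • y) x (Xf x) = Xf (g • x) := by
  obtain ⟨n, j, k, rfl⟩ := exists_el g
  rw [fderiv_smul_el]
  ext i
  fin_cases i
  · simp [Xf, el_smul, actFun, Real.cos_add_int_mul_pi, Real.exp_add, exp_mul_per]
    ring
  · simp [Xf, el_smul, actFun, Real.sin_add_int_mul_pi, Real.exp_add, exp_neg_mul_per]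
    ring
  · simp [Xf, el_smul, actFun, cos_two_add]
  · simp [Xf]

lemma hasFDerivAt_vec {f0 f1 f2 f3 : E4 → ℝ} {L0 L1 L2 L3 : E4 →L[ℝ] ℝ} {x : E4}
    (h0 : HasFDerivAt f0 L0 x) (h1 : HasFDerivAt f1 L1 x) (h2 : HasFDerivAt f2 L2 x)
    (h3 : HasFDerivAt f3 L3 x) (v : E4) :
    fderiv ℝ (fun p : E4 => (!₂[f0 p, f1 p, f2 p, f3 p] : E4)) x v =
      !₂[L0 v, L1 v, L2 v, L3 v] := by
  have hd : DifferentiableAt ℝ (fun p : E4 => (!₂[f0 p, f1 p, f2 p, f3 p] : E4)) x := by
    rw [differentiableAt_euclidean]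
    intro i
    fin_cases i
    · exact h0.differentiableAt
    · exact h1.differentiableAt
    · exact h2.differentiableAt
    · exact h3.differentiableAt
  ext i
  rw [fderiv_coord hd]
  fin_cases i
  · exact congrArg (fun L => L v) h0.fderiv
  · exact congrArg (fun L => L v) h1.fderiv
  · exact congrArg (fun L => L v) h2.fderiv
  · exact congrArg (fun L => L v) h3.fderiv

lemma fderiv_Tf (x v : E4) :
    fderiv ℝ Tf x v = !₂[0, 0, 2 * Real.cos (2 * x 2) * v 2, 0] := by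
  have h2 := ((hasFDerivAt_proj 2 x).const_mul 2).sin
  have h := hasFDerivAt_vec (hasFDerivAt_const (0 : ℝ) x) (hasFDerivAt_const (0 : ℝ) x) h2
    (hasFDerivAt_const (1 : ℝ) x) v
  have e : Tf = fun p : E4 => !₂[0, 0, Real.sin (2 * p 2), 1] := rfl
  rw [e, h]
  ext i
  fin_cases i
  · simp
  · simp
  · simp
    ring
  · simp

lemma fderiv_Xf (x v : E4) :
    fderiv ℝ Xf x v = !₂[Real.exp (x 3) * (Real.cos (x 2) * v 3 - Real.sin (x 2) * v 2),
      Real.exp (-x 3) * (-(Real.sin (x 2) * v 3) + Real.cos (x 2) * v 2),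
      2 * Real.sin (2 * x 2) * v 2, 0] := by
  have h0 := (hasFDerivAt_proj 3 x).exp.mul (hasFDerivAt_proj 2 x).cos
  have h1 := (hasFDerivAt_proj 3 x).neg.exp.mul (hasFDerivAt_proj 2 x).sin
  have h2 := (((hasFDerivAt_proj 2 x).const_mul 2).cos).neg
  have h := hasFDerivAt_vec h0 h1 h2 (hasFDerivAt_const (0 : ℝ) x) v
  have e : Xf = fun p : E4 => !₂[Real.exp (p 3) * Real.cos (p 2),
    Real.exp (-p 3) * Real.sin (p 2), -Real.cos (2 * p 2), 0] := rfl
  rw [e]
  refine Eq.trans ?_ (h.trans ?_)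
  · rfl
  ext i
  fin_cases i
  · simp
    ring
  · simp
    ring
  · simp
    ring
  · simp

lemma fderiv_Zf (x v : E4) :
    fderiv ℝ Zf x v = !₂[
      Real.cos (2 * x 2) * (Real.exp (x 3) * (Real.cos (x 2) * v 3 - Real.sin (x 2) * v 2)) -
        2 * Real.sin (2 * x 2) * v 2 * (Real.exp (x 3) * Real.cos (x 2)),
      Real.cos (2 * x 2) * (Real.exp (-x 3) * (-(Real.sin (x 2) * v 3) + Real.cos (x 2) * v 2)) -
        2 * Real.sin (2 * x 2) * v 2 * (Real.exp (-x 3) * Real.sin (x 2)), 0, 0] := by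
  have hc := ((hasFDerivAt_proj 2 x).const_mul 2).cos
  have h0 := hc.mul ((hasFDerivAt_proj 3 x).exp.mul (hasFDerivAt_proj 2 x).cos)
  have h1 := hc.mul ((hasFDerivAt_proj 3 x).neg.exp.mul (hasFDerivAt_proj 2 x).sin)
  have h := hasFDerivAt_vec h0 h1 (hasFDerivAt_const (2 : ℝ) x) (hasFDerivAt_const (0 : ℝ) x) v
  refine Eq.trans ?_ (h.trans ?_)
  · rfl
  ext i
  fin_cases i
  · simp
    ring
  · simp
    ring
  · simp
  · simp

lemma lb_Tf_Xf : lb Tf Xf = Zf := by
  funext x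
  unfold lb
  rw [fderiv_Tf, fderiv_Xf]
  have hs : Real.sin (2 * x 2) = 2 * Real.sin (x 2) * Real.cos (x 2) := Real.sin_two_mul _
  have hc : Real.cos (2 * x 2) = 2 * Real.cos (x 2) ^ 2 - 1 := Real.cos_two_mul _
  have h1 : Real.sin (x 2) ^ 2 + Real.cos (x 2) ^ 2 = 1 := Real.sin_sq_add_cos_sq _
  ext i
  fin_cases i
  · simp only [Tf, Xf, Zf, Fin.zero_eta, PiLp.sub_apply, hs, hc]
    simp
    linear_combination (-2 * Real.exp (x 3) * Real.cos (x 2)) * h1
  · simp only [Tf, Xf, Zf, Fin.mk_one, PiLp.sub_apply, hs, hc]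
    simp
    ring
  · simp only [Tf, Xf, Zf, Fin.reduceFinMk, PiLp.sub_apply]
    simp
    linear_combination 2 * Real.sin_sq_add_cos_sq (2 * x 2)
  · simp [Tf, Xf, Zf]

lemma lb_Xf_Zf : lb Xf Zf = Wf := by
  funext x
  unfold lb
  rw [fderiv_Xf, fderiv_Zf]
  ext i
  fin_cases i
  · simp only [Xf, Zf, Wf, Fin.zero_eta, PiLp.sub_apply]
    simp
    ring
  · simp only [Xf, Zf, Wf, Fin.mk_one, PiLp.sub_apply]
    simp
    ring
  · simp only [Xf, Zf, Wf, Fin.reduceFinMk, PiLp.sub_apply]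
    simp
    ring
  · simp [Xf, Zf, Wf]

lemma linearIndependent_TXZW (x : E4) : LinearIndependent ℝ ![Tf x, Xf x, Zf x, Wf x] := by
  rw [Fintype.linearIndependent_iff]
  intro g hg
  set a := g 0 with ha
  set b := g 1 with hb
  set c := g 2 with hc
  set d := g 3 with hd
  have hsum : a • Tf x + b • Xf x + c • Zf x + d • Wf x = 0 := by
    have := hg
    rw [Fin.sum_univ_four] at this
    exact this
  set co := Real.cos (x 2) with hco
  set si := Real.sin (x 2) with hsi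
  set C := Real.cos (2 * x 2) with hC
  set S := Real.sin (2 * x 2) with hS
  set e := Real.exp (x 3) with he
  set e' := Real.exp (-x 3) with he'
  have h1 : si ^ 2 + co ^ 2 = 1 := Real.sin_sq_add_cos_sq _
  have hee : e * e' = 1 := by
    rw [he, he', ← Real.exp_add, add_neg_cancel, Real.exp_zero]
  have q0 := congrArg (fun p : E4 => p 0) hsum
  have q1 := congrArg (fun p : E4 => p 1) hsum
  have q2 := congrArg (fun p : E4 => p 2) hsum
  have q3 := congrArg (fun p : E4 => p 3) hsum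
  have p0 : b * (e * co) + c * (C * (e * co)) +
      d * (e * (2 * C * S * co + (C ^ 2 + 2) * si)) = 0 := by
    simpa [Tf, Xf, Zf, Wf] using q0
  have p1 : b * (e' * si) + c * (C * (e' * si)) +
      d * (e' * (2 * C * S * si - (C ^ 2 + 2) * co)) = 0 := by
    simpa [Tf, Xf, Zf, Wf] using q1
  have p2 : a * S + b * (-C) + c * 2 + d * (-4 * S) = 0 := by
    have := q2
    simp [Tf, Xf, Zf, Wf] at this
    linear_combination this
  have p3 : a = 0 := by simpa [Tf, Xf, Zf, Wf] using q3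
  have hP1 : b + c * C + d * (2 * C * S) = 0 := by
    linear_combination (e' * co) * p0 + (e * si) * p1 -
      (b + c * C + d * (2 * C * S)) * (co ^ 2 * hee + si ^ 2 * hee + h1)
  have hP2 : d * (C ^ 2 + 2) = 0 := by
    linear_combination (e' * si) * p0 - (e * co) * p1 -
      (d * (C ^ 2 + 2)) * (co ^ 2 * hee + si ^ 2 * hee + h1)
  have hd0 : d = 0 := by
    rcases mul_eq_zero.mp hP2 with h | h
    · exact h
    · exact absurd h (by positivity)
  have hc0 : c = 0 := by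
    have h5 : c * (C ^ 2 + 2) = 0 := by
      rw [hd0] at hP1 p2
      rw [p3] at p2
      linear_combination C * hP1 + p2
    rcases mul_eq_zero.mp h5 with h | h
    · exact h
    · exact absurd h (by positivity)
  have hb0 : b = 0 := by
    rw [hd0, hc0] at hP1
    simpa using hP1
  intro i
  fin_cases i
  · exact p3
  · exact hb0
  · exact hc0
  · exact hd0

end

end Pool.Agent.Lib.MP_3704ac_gt
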