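import Mathlib

/-!
# The flow of `ω' = sin (2ω)`
-/

set_option autoImplicit false

open Set Topology Filter
open scoped ContDiff

namespace Pool.Agent.Lib.MP_3704ac_gt

noncomputable section

/-- Numerator. -/
def fN (ϑ h : ℝ) : ℝ := Real.sinh h * Real.sin (2 * ϑ)

/-- Denominator. -/
def fM (ϑ h : ℝ) : ℝ := Real.cosh h - Real.sinh h * Real.cos (2 * ϑ)

/-- The flow of `ω' = sin (2ω)`. -/
def Wt (ϑ h : ℝ) : ℝ := ϑ + Real.arctan (fN ϑ h / fM ϑ h)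

/-- The factor `R`. -/
def fR (ϑ h : ℝ) : ℝ := Real.exp (-(2 * h)) * Real.cos ϑ ^ 2 + Real.exp (2 * h) * Real.sin ϑ ^ 2

lemma fM_eq (ϑ h : ℝ) :
    fM ϑ h = Real.exp (-h) * Real.cos ϑ ^ 2 + Real.exp h * Real.sin ϑ ^ 2 := by
  unfold fM
  rw [Real.cosh_eq, Real.sinh_eq, Real.cos_two_mul, Real.sin_sq]
  ring

lemma fM_pos (ϑ h : ℝ) : 0 < fM ϑ h := by
  rw [fM_eq]
  by_cases hc : Real.cos ϑ = 0
  · have hs : Real.sin ϑ ≠ 0 := by
      intro hs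
      have := Real.sin_sq_add_cos_sq ϑ
      rw [hc, hs] at this
      norm_num at this
    positivity
  · positivity

lemma fR_pos (ϑ h : ℝ) : 0 < fR ϑ h := by
  unfold fR
  by_cases hc : Real.cos ϑ = 0
  · have hs : Real.sin ϑ ≠ 0 := by
      intro hs
      have := Real.sin_sq_add_cos_sq ϑ
      rw [hc, hs] at this
      norm_num at this
    positivity
  · positivity

lemma fN_sq_add_fM_sq (ϑ h : ℝ) : fN ϑ h ^ 2 + fM ϑ h ^ 2 = fR ϑ h := by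
  rw [fM_eq]
  unfold fN fR
  rw [Real.sinh_eq, Real.sin_two_mul, show 2 * h = h + h by ring, Real.exp_add, neg_add,
    Real.exp_add]
  have h1 := Real.sin_sq_add_cos_sq ϑ
  have h2 : Real.exp h * Real.exp (-h) = 1 := by
    rw [← Real.exp_add, add_neg_cancel, Real.exp_zero]
  linear_combination (Real.exp (-h) ^ 2 * Real.cos ϑ ^ 2 + Real.exp h ^ 2 * Real.sin ϑ ^ 2) * h1

lemma sqrt_one_add (ϑ h : ℝ) :
    √(1 + (fN ϑ h / fM ϑ h) ^ 2) = √(fR ϑ h) / fM ϑ h := by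
  have hM := fM_pos ϑ h
  rw [div_pow, show 1 + fN ϑ h ^ 2 / fM ϑ h ^ 2 = fR ϑ h / fM ϑ h ^ 2 by
    rw [← fN_sq_add_fM_sq]
    field_simp
    ring, Real.sqrt_div (fR_pos ϑ h).le, Real.sqrt_sq hM.le]

lemma cos_Wt (ϑ h : ℝ) : √(fR ϑ h) * Real.cos (Wt ϑ h) = Real.exp (-h) * Real.cos ϑ := by
  have hM := fM_pos ϑ h
  have hR : √(fR ϑ h) ≠ 0 := (Real.sqrt_pos.mpr (fR_pos ϑ h)).ne'
  have h1 := Real.sin_sq_add_cos_sq ϑ
  unfold Wt
  rw [Real.cos_add, Real.cos_arctan, Real.sin_arctan, sqrt_one_add]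
  have e1 : √(fR ϑ h) * (Real.cos ϑ * (1 / (√(fR ϑ h) / fM ϑ h)) -
      Real.sin ϑ * (fN ϑ h / fM ϑ h / (√(fR ϑ h) / fM ϑ h))) =
      Real.cos ϑ * fM ϑ h - Real.sin ϑ * fN ϑ h := by
    field_simp
  rw [e1, fM_eq]
  unfold fN
  rw [Real.sinh_eq, Real.sin_two_mul]
  linear_combination (Real.exp (-h) * Real.cos ϑ) * h1

lemma sin_Wt (ϑ h : ℝ) : √(fR ϑ h) * Real.sin (Wt ϑ h) = Real.exp h * Real.sin ϑ := by
  have hM := fM_pos ϑ h
  have hR : √(fR ϑ h) ≠ 0 := (Real.sqrt_pos.mpr (fR_pos ϑ h)).ne'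
  have h1 := Real.sin_sq_add_cos_sq ϑ
  unfold Wt
  rw [Real.sin_add, Real.cos_arctan, Real.sin_arctan, sqrt_one_add]
  have e1 : √(fR ϑ h) * (Real.sin ϑ * (1 / (√(fR ϑ h) / fM ϑ h)) +
      Real.cos ϑ * (fN ϑ h / fM ϑ h / (√(fR ϑ h) / fM ϑ h))) =
      Real.sin ϑ * fM ϑ h + Real.cos ϑ * fN ϑ h := by
    field_simp
  rw [e1, fM_eq]
  unfold fN
  rw [Real.sinh_eq, Real.sin_two_mul]
  linear_combination (Real.exp h * Real.sin ϑ) * h1

lemma sin_two_Wt (ϑ h : ℝ) : fR ϑ h * Real.sin (2 * Wt ϑ h) = Real.sin (2 * ϑ) := by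
  have h1 := cos_Wt ϑ h
  have h2 := sin_Wt ϑ h
  have h3 : √(fR ϑ h) * √(fR ϑ h) = fR ϑ h := Real.mul_self_sqrt (fR_pos ϑ h).le
  have h4 : Real.exp h * Real.exp (-h) = 1 := by
    rw [← Real.exp_add, add_neg_cancel, Real.exp_zero]
  rw [Real.sin_two_mul, Real.sin_two_mul, ← h3]
  calc √(fR ϑ h) * √(fR ϑ h) * (2 * Real.sin (Wt ϑ h) * Real.cos (Wt ϑ h)) =
      2 * (√(fR ϑ h) * Real.sin (Wt ϑ h)) * (√(fR ϑ h) * Real.cos (Wt ϑ h)) := by ring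
    _ = 2 * Real.sin ϑ * Real.cos ϑ := by
      rw [h1, h2]
      linear_combination (2 * Real.sin ϑ * Real.cos ϑ) * h4

lemma cos_two_Wt (ϑ h : ℝ) : fR ϑ h * Real.cos (2 * Wt ϑ h) =
    Real.exp (-(2 * h)) * Real.cos ϑ ^ 2 - Real.exp (2 * h) * Real.sin ϑ ^ 2 := by
  have h1 := cos_Wt ϑ h
  have h2 := sin_Wt ϑ h
  have h3 : √(fR ϑ h) * √(fR ϑ h) = fR ϑ h := Real.mul_self_sqrt (fR_pos ϑ h).le
  have h4 : Real.exp (-(2 * h)) = Real.exp (-h) * Real.exp (-h) := by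
    rw [← Real.exp_add]
    ring_nf
  have h5 : Real.exp (2 * h) = Real.exp h * Real.exp h := by
    rw [← Real.exp_add]
    ring_nf
  rw [Real.cos_two_mul', ← h3, h4, h5]
  calc √(fR ϑ h) * √(fR ϑ h) * (Real.cos (Wt ϑ h) ^ 2 - Real.sin (Wt ϑ h) ^ 2) =
      (√(fR ϑ h) * Real.cos (Wt ϑ h)) ^ 2 - (√(fR ϑ h) * Real.sin (Wt ϑ h)) ^ 2 := by ring
    _ = Real.exp (-h) * Real.exp (-h) * Real.cos ϑ ^ 2 -
        Real.exp h * Real.exp h * Real.sin ϑ ^ 2 := by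
      rw [h1, h2]
      ring

lemma hasDerivAt_Wt_time (ϑ h : ℝ) : HasDerivAt (Wt ϑ) (Real.sin (2 * Wt ϑ h)) h := by
  have hM := fM_pos ϑ h
  have hN' : HasDerivAt (fN ϑ) (Real.cosh h * Real.sin (2 * ϑ)) h :=
    (Real.hasDerivAt_sinh h).mul_const _
  have hM' : HasDerivAt (fM ϑ) (Real.sinh h - Real.cosh h * Real.cos (2 * ϑ)) h :=
    (Real.hasDerivAt_cosh h).sub ((Real.hasDerivAt_sinh h).mul_const _)
  have h1 := (hN'.div hM' hM.ne').arctan.const_add ϑ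
  refine h1.congr_deriv ?_
  have hR := fR_pos ϑ h
  have hs := sin_two_Wt ϑ h
  have e1 : Real.sin (2 * Wt ϑ h) = Real.sin (2 * ϑ) / fR ϑ h := by
    rw [← hs]
    field_simp
  rw [e1, ← fN_sq_add_fM_sq]
  have hR' : fN ϑ h ^ 2 + fM ϑ h ^ 2 ≠ 0 := by
    rw [fN_sq_add_fM_sq]
    exact hR.ne'
  have e2 : 1 + (fN ϑ h / fM ϑ h) ^ 2 = (fN ϑ h ^ 2 + fM ϑ h ^ 2) / fM ϑ h ^ 2 := by
    field_simp
    ring
  simp only [Pi.div_apply]
  rw [e2]
  have e3 : Real.cosh h * Real.sin (2 * ϑ) * fM ϑ h -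
      fN ϑ h * (Real.sinh h - Real.cosh h * Real.cos (2 * ϑ)) = Real.sin (2 * ϑ) := by
    unfold fN fM
    linear_combination Real.sin (2 * ϑ) * Real.cosh_sq_sub_sinh_sq h
  rw [e3]
  field_simp

lemma hasDerivAt_Wt_space (ϑ h : ℝ) : HasDerivAt (fun x => Wt x h) (fR ϑ h)⁻¹ ϑ := by
  have hM := fM_pos ϑ h
  have h2 : HasDerivAt (fun x : ℝ => 2 * x) 2 ϑ := by
    simpa using (hasDerivAt_id ϑ).const_mul 2
  have hN' : HasDerivAt (fun x => fN x h) (Real.sinh h * (Real.cos (2 * ϑ) * 2)) ϑ :=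
    (h2.sin).const_mul _
  have hM' : HasDerivAt (fun x => fM x h) (-(Real.sinh h * (-Real.sin (2 * ϑ) * 2))) ϑ :=
    ((h2.cos).const_mul _).const_sub _
  have h1 := (hasDerivAt_id ϑ).add (hN'.div hM' hM.ne').arctan
  refine h1.congr_deriv ?_
  have hR := fR_pos ϑ h
  rw [← fN_sq_add_fM_sq]
  have hR' : fN ϑ h ^ 2 + fM ϑ h ^ 2 ≠ 0 := by
    rw [fN_sq_add_fM_sq]
    exact hR.ne'
  have e2 : 1 + (fN ϑ h / fM ϑ h) ^ 2 = (fN ϑ h ^ 2 + fM ϑ h ^ 2) / fM ϑ h ^ 2 := by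
    field_simp
    ring
  simp only [Pi.div_apply]
  rw [e2]
  have e3 : fN ϑ h ^ 2 + fM ϑ h ^ 2 + (Real.sinh h * (Real.cos (2 * ϑ) * 2) * fM ϑ h -
      fN ϑ h * (-(Real.sinh h * (-Real.sin (2 * ϑ) * 2)))) = 1 := by
    unfold fN fM
    linear_combination Real.cosh_sq_sub_sinh_sq h - Real.sinh h ^ 2 *
      Real.sin_sq_add_cos_sq (2 * ϑ)
  field_simp
  linear_combination e3

/-- The curvature function. -/
def fK (ϑ h : ℝ) : ℝ :=
  √(fR ϑ h) * (Real.exp (2 * h) * Real.sin ϑ ^ 2 - Real.exp (-(2 * h)) * Real.cos ϑ ^ 2)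

lemma continuous_fK (ϑ : ℝ) : Continuous (fK ϑ) := by
  unfold fK fR
  fun_prop

lemma fK_neg (ϑ h : ℝ) : fK ϑ (-h) = -fK (Real.pi / 2 - ϑ) h := by
  unfold fK fR
  rw [Real.cos_pi_div_two_sub, Real.sin_pi_div_two_sub]
  have e1 : Real.exp (-(2 * h)) * Real.sin ϑ ^ 2 + Real.exp (2 * h) * Real.cos ϑ ^ 2 =
      Real.exp (2 * h) * Real.cos ϑ ^ 2 + Real.exp (-(2 * h)) * Real.sin ϑ ^ 2 := by ring
  have e2 : 2 * (-h) = -(2 * h) := by ring
  rw [e2, neg_neg, e1]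
  ring

lemma fK_zero (ϑ : ℝ) : fK ϑ 0 = -Real.cos (2 * ϑ) := by
  unfold fK fR
  have h1 := Real.sin_sq_add_cos_sq ϑ
  have h2 : Real.cos ϑ ^ 2 + Real.sin ϑ ^ 2 = 1 := by linarith
  simp only [mul_zero, neg_zero, Real.exp_zero, one_mul, h2, Real.sqrt_one]
  rw [Real.cos_two_mul']
  ring

lemma tendsto_fK_atTop {ϑ : ℝ} (hs : Real.sin ϑ ≠ 0) : Tendsto (fK ϑ) atTop atTop := by
  have h1 : Tendsto (fun h : ℝ => Real.exp (2 * h) * Real.sin ϑ ^ 2 - Real.cos ϑ ^ 2)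
      atTop atTop := by
    apply tendsto_atTop_add_const_right
    apply Tendsto.atTop_mul_const (by positivity)
    exact Real.tendsto_exp_atTop.comp (tendsto_id.const_mul_atTop (by norm_num))
  apply tendsto_atTop_mono' _ _ h1
  filter_upwards [h1.eventually_ge_atTop 1, eventually_ge_atTop 0] with h hh h0
  have hE' : Real.exp (-(2 * h)) ≤ 1 := Real.exp_le_one_iff.mpr (by linarith)
  have hm : Real.exp (2 * h) * Real.sin ϑ ^ 2 - Real.cos ϑ ^ 2 ≤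
      Real.exp (2 * h) * Real.sin ϑ ^ 2 - Real.exp (-(2 * h)) * Real.cos ϑ ^ 2 := by
    nlinarith [sq_nonneg (Real.cos ϑ)]
  have hR : 1 ≤ √(fR ϑ h) := by
    rw [Real.one_le_sqrt]
    unfold fR
    have : 0 ≤ Real.exp (-(2 * h)) * Real.cos ϑ ^ 2 := by positivity
    nlinarith [sq_nonneg (Real.cos ϑ)]
  unfold fK
  nlinarith

lemma tendsto_fK_atBot {ϑ : ℝ} (hc : Real.cos ϑ ≠ 0) : Tendsto (fK ϑ) atBot atBot := by
  have h1 : Tendsto (fK (Real.pi / 2 - ϑ)) atTop atTop :=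
    tendsto_fK_atTop (by rwa [Real.sin_pi_div_two_sub])
  have h2 : (fK ϑ) = fun h => -(fK (Real.pi / 2 - ϑ) (-h)) := by
    funext h
    have := fK_neg ϑ (-h)
    rwa [neg_neg] at this
  rw [h2]
  exact tendsto_neg_atTop_atBot.comp (h1.comp tendsto_neg_atBot_atTop)

lemma fK_surjective {ϑ : ℝ} (h : Real.sin (2 * ϑ) ≠ 0) : Function.Surjective (fK ϑ) := by
  rw [Real.sin_two_mul] at h
  have hs : Real.sin ϑ ≠ 0 := by
    intro h0
    rw [h0] at h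
    simp at h
  have hc : Real.cos ϑ ≠ 0 := by
    intro h0
    rw [h0] at h
    simp at h
  exact (continuous_fK ϑ).surjective (tendsto_fK_atTop hs) (tendsto_fK_atBot hc)

lemma fK_lt {ϑ h : ℝ} (hh : 0 < h) : fK ϑ 0 < fK ϑ h := by
  rw [fK_zero, Real.cos_two_mul']
  have hxy := Real.sin_sq_add_cos_sq ϑ
  set x := Real.cos ϑ ^ 2 with hx
  set y := Real.sin ϑ ^ 2 with hy
  have hx0 : 0 ≤ x := sq_nonneg _
  have hy0 : 0 ≤ y := sq_nonneg _
  have hE : 1 < Real.exp (2 * h) := Real.one_lt_exp_iff.mpr (by linarith)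
  have hE' : Real.exp (-(2 * h)) < 1 := Real.exp_lt_one_iff.mpr (by linarith)
  have hE'0 : 0 < Real.exp (-(2 * h)) := Real.exp_pos _
  have hEE : Real.exp (2 * h) * Real.exp (-(2 * h)) = 1 := by
    rw [← Real.exp_add, add_neg_cancel, Real.exp_zero]
  have hfK : fK ϑ h = √(fR ϑ h) * (Real.exp (2 * h) * y - Real.exp (-(2 * h)) * x) := rfl
  have hfR : fR ϑ h = Real.exp (-(2 * h)) * x + Real.exp (2 * h) * y := rfl
  rw [hfK]
  set E := Real.exp (2 * h) with hEdef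
  set E' := Real.exp (-(2 * h)) with hE'def
  have hm : y - x < E * y - E' * x := by
    rcases eq_or_lt_of_le hx0 with h0 | h0
    · nlinarith
    · nlinarith
  have hr0 : 0 < √(fR ϑ h) := Real.sqrt_pos.mpr (fR_pos ϑ h)
  rcases le_or_gt x y with hc | hc
  · have hr : 1 ≤ √(fR ϑ h) := by
      rw [Real.one_le_sqrt, hfR]
      have h3 : 0 ≤ (E + E' - 2) * x := by
        apply mul_nonneg _ hx0
        nlinarith [sq_nonneg (E - 1), sq_nonneg (E' - 1)]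
      nlinarith
    nlinarith
  · rcases le_or_gt 0 (E * y - E' * x) with h4 | h4
    · have : 0 ≤ √(fR ϑ h) * (E * y - E' * x) := mul_nonneg hr0.le h4
      linarith
    · have hr : √(fR ϑ h) ≤ 1 := by
        rw [Real.sqrt_le_iff, hfR, one_pow]
        refine ⟨zero_le_one, ?_⟩
        have h5 : (E - 1) * y = (1 - E') * (E * y) := by
          linear_combination y * hEE
        have h6 : (1 - E') * (E * y) ≤ (1 - E') * (E' * x) :=
          mul_le_mul_of_nonneg_left (by linarith) (by linarith)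
        have h7 : (1 - E') * (E' * x) ≤ (1 - E') * x := by
          apply mul_le_mul_of_nonneg_left _ (by linarith)
          nlinarith
        nlinarith
      nlinarith

lemma fK_eq_zero_imp {ϑ h : ℝ} (h0 : fK ϑ h = fK ϑ 0) : h = 0 := by
  rcases lt_trichotomy h 0 with hh | hh | hh
  · exfalso
    have h1 := fK_lt (ϑ := Real.pi / 2 - ϑ) (h := -h) (by linarith)
    have h2 := fK_neg ϑ (-h)
    have h3 := fK_neg ϑ 0
    rw [neg_neg] at h2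
    rw [neg_zero] at h3
    linarith
  · exact hh
  · exact absurd h0 (fK_lt hh).ne'

end

end Pool.Agent.Lib.MP_3704ac_gt
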