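import Pool.Agent.Lib.MP_3704ac_gt.Arith2

/-!
# Equivariant maps of the plane
-/

set_option autoImplicit false

open Set Topology Filter

namespace Pool.Agent.Lib.MP_3704ac_gt

noncomputable section

/-- The action on the `(u, s)`-plane. -/
def pa (n : ℤ × ℤ) (j k : ℤ) (x : ℝ × ℝ) : ℝ × ℝ :=
  ((-1) ^ j * lam ^ k * x.1 + lu n, (-1) ^ j * mu ^ k * x.2 + ls n)

/-- Equivariance for maps of the plane. -/
structure PlaneMap (g : ℝ × ℝ → ℝ × ℝ) : Prop where
  cont : Continuous g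
  equi : ∀ (n : ℤ × ℤ) (j k : ℤ), ∃ (n' : ℤ × ℤ) (j' k' : ℤ), ∀ x, g (pa n j k x) =
    pa n' j' k' (g x)

lemma exists_fixed (c d : ℝ) (hc : c ≠ 1) : ∃ y, c * y + d = y := by
  refine ⟨d / (1 - c), ?_⟩
  have : 1 - c ≠ 0 := sub_ne_zero.mpr hc.symm
  field_simp
  ring

lemma zpow_ne_one' {c : ℝ} (hc : 0 < c) (hc1 : c ≠ 1) {k : ℤ} (hk : k ≠ 0) : c ^ k ≠ 1 := by
  intro h
  rw [zpow_eq_one_iff_right₀ hc.le hc1] at h
  exact hk h

lemma coef_ne_one {c : ℝ} (hc : 0 < c) (hc1 : c ≠ 1) {j k : ℤ} (h : ¬(Even j ∧ k = 0)) :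
    (-1) ^ j * c ^ k ≠ 1 := by
  rcases Int.even_or_odd j with hj | hj
  · rw [hj.neg_one_zpow, one_mul]
    exact zpow_ne_one' hc hc1 (fun hk => h ⟨hj, hk⟩)
  · rw [hj.neg_one_zpow]
    have := zpow_pos hc k
    intro h
    linarith

lemma pa_fixed {n : ℤ × ℤ} {j k : ℤ} (h : ¬(Even j ∧ k = 0)) : ∃ y, pa n j k y = y := by
  obtain ⟨y0, h0⟩ := exists_fixed _ (lu n) (coef_ne_one (j := j) (k := k) lam_pos
    (by linarith [lam_gt]) h)
  obtain ⟨y1, h1⟩ := exists_fixed _ (ls n) (coef_ne_one (j := j) (k := k) mu_pos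
    (by linarith [mu_lt_one]) h)
  exact ⟨(y0, y1), Prod.ext h0 h1⟩

lemma luls_inj {m n : ℤ × ℤ} (h1 : lu m = lu n) (h2 : ls m = ls n) : m = n := by
  have h : m + -n = 0 := lu_ls_injective (by rw [lu_add, lu_neg, h1, add_neg_cancel])
    (by rw [ls_add, ls_neg, h2, add_neg_cancel])
  exact add_neg_eq_zero.mp h

lemma pa_trans (n : ℤ × ℤ) (x : ℝ × ℝ) : pa n 0 0 x = (x.1 + lu n, x.2 + ls n) := by
  simp [pa]

lemma translation {g g' : ℝ × ℝ → ℝ × ℝ} (hg : PlaneMap g) (h1 : ∀ x, g (g' x) = x)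
    (h2 : ∀ x, g' (g x) = x) (n : ℤ × ℤ) :
    ∃ n' : ℤ × ℤ, ∀ x, g (x.1 + lu n, x.2 + ls n) = ((g x).1 + lu n', (g x).2 + ls n') := by
  obtain ⟨n', j', k', h⟩ := hg.equi n 0 0
  by_cases hjk : Even j' ∧ k' = 0
  · obtain ⟨hj, hk⟩ := hjk
    refine ⟨n', fun x => ?_⟩
    rw [← pa_trans, h]
    simp [pa, hj.neg_one_zpow, hk]
  · obtain ⟨y, hy⟩ := pa_fixed (n := n') hjk
    have e1 := h (g' y)
    rw [h1, hy] at e1
    have e2 := congrArg g' e1
    rw [h2, pa_trans, Prod.ext_iff] at e2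
    obtain ⟨e3, e4⟩ := e2
    have hn : n = 0 := lu_ls_injective (by simpa using e3) (by simpa using e4)
    refine ⟨0, fun x => ?_⟩
    simp [hn, lu_zero, ls_zero]

lemma exists_box (x : ℝ × ℝ) : ∃ n : ℤ × ℤ, |x.1 + lu n| ≤ 64 ∧ |x.2 + ls n| ≤ 64 := by
  have hl := lam_gt
  have hm := mu_lt_one
  have hmp := mu_pos
  have hsum := lam_add_mu
  set b : ℝ := (x.2 - x.1) / (lam - mu) with hb
  set a : ℝ := (-x.1 - (lam - 2) * b) / 13 with ha
  refine ⟨(⌊a⌋, ⌊b⌋), ?_⟩
  have hd : lam - mu ≠ 0 := by linarith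
  have e1 : 13 * a + (lam - 2) * b = -x.1 := by
    rw [ha]
    ring
  have e2 : 13 * a + (mu - 2) * b = -x.2 := by
    have : (lam - mu) * b = x.2 - x.1 := by
      rw [hb]
      field_simp
    linear_combination e1 - this
  have hfx := Int.floor_le a
  have hfx' := Int.lt_floor_add_one a
  have hfy := Int.floor_le b
  have hfy' := Int.lt_floor_add_one b
  constructor
  · have : x.1 + lu (⌊a⌋, ⌊b⌋) = -(13 * (a - ⌊a⌋) + (lam - 2) * (b - ⌊b⌋)) := by
      simp only [lu]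
      linear_combination e1
    rw [this, abs_neg, abs_le]
    constructor <;> nlinarith
  · have : x.2 + ls (⌊a⌋, ⌊b⌋) = -(13 * (a - ⌊a⌋) + (mu - 2) * (b - ⌊b⌋)) := by
      simp only [ls]
      linear_combination e2
    rw [this, abs_neg, abs_le]
    constructor <;> nlinarith

lemma bounded_of_periodic {φ : ℝ × ℝ → ℝ} (hc : Continuous φ)
    (hper : ∀ n x, φ (x.1 + lu n, x.2 + ls n) = φ x) : ∃ C : ℝ, ∀ x, |φ x| ≤ C := by
  have hK : IsCompact (Icc (-64 : ℝ) 64 ×ˢ Icc (-64 : ℝ) 64) := isCompact_Icc.prod isCompact_Icc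
  obtain ⟨C, hC⟩ := hK.exists_bound_of_continuousOn hc.continuousOn
  refine ⟨C, fun x => ?_⟩
  obtain ⟨n, h1, h2⟩ := exists_box x
  rw [← hper n x]
  exact hC _ ⟨abs_le.mp h1, abs_le.mp h2⟩

lemma const_of_periodic {φ : ℝ × ℝ → ℝ} (hc : Continuous φ)
    (hper : ∀ n x, φ (x.1 + lu n, x.2 + ls n) = φ x) {c d : ℝ} (hc0 : 0 < c) (hc1 : c ≠ 1)
    (h : ∀ x : ℝ × ℝ, φ (lam * x.1, mu * x.2) = c * φ x + d) (x : ℝ × ℝ) :
    φ x = d / (1 - c) := by
  have hne : 1 - c ≠ 0 := sub_ne_zero.mpr hc1.symm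
  obtain ⟨C, hC⟩ := bounded_of_periodic (φ := fun x => φ x - d / (1 - c))
    (hc.sub continuous_const) (fun n x => by rw [hper])
  have key : ∀ x : ℝ × ℝ, φ (lam * x.1, mu * x.2) - d / (1 - c) = c * (φ x - d / (1 - c)) := by
    intro x
    rw [h]
    field_simp
    ring
  have key1 : ∀ x, |φ x - d / (1 - c)| =
      c⁻¹ * |φ (lam * x.1, mu * x.2) - d / (1 - c)| := by
    intro x
    rw [key, abs_mul, abs_of_pos hc0, ← mul_assoc, inv_mul_cancel₀ hc0.ne', one_mul]
  have key2 : ∀ x : ℝ × ℝ, |φ x - d / (1 - c)| =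
      c * |φ (lam⁻¹ * x.1, mu⁻¹ * x.2) - d / (1 - c)| := by
    intro x
    have e := key (lam⁻¹ * x.1, mu⁻¹ * x.2)
    simp only [mul_inv_cancel_left₀ lam_pos.ne', mul_inv_cancel_left₀ mu_pos.ne'] at e
    have e' : φ x - d / (1 - c) = c * (φ (lam⁻¹ * x.1, mu⁻¹ * x.2) - d / (1 - c)) := e
    rw [e', abs_mul, abs_of_pos hc0]
  obtain ⟨r, hr0, hr1, hr⟩ : ∃ r : ℝ, 0 ≤ r ∧ r < 1 ∧ ∀ D : ℝ,
      (∀ x, |φ x - d / (1 - c)| ≤ D) → ∀ x, |φ x - d / (1 - c)| ≤ r * D := by
    rcases lt_or_gt_of_ne hc1 with hlt | hgt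
    · refine ⟨c, hc0.le, hlt, fun D hD x => ?_⟩
      rw [key2]
      exact mul_le_mul_of_nonneg_left (hD _) hc0.le
    · refine ⟨c⁻¹, (inv_pos.mpr hc0).le, inv_lt_one_of_one_lt₀ hgt, fun D hD x => ?_⟩
      rw [key1]
      exact mul_le_mul_of_nonneg_left (hD _) (inv_pos.mpr hc0).le
  have hpow : ∀ m : ℕ, ∀ x, |φ x - d / (1 - c)| ≤ r ^ m * C := by
    intro m
    induction m with
    | zero =>
      intro x
      rw [pow_zero, one_mul]
      exact hC x
    | succ m ih =>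
      intro x
      rw [pow_succ', mul_assoc]
      exact hr _ ih x
  have hlim : Tendsto (fun m : ℕ => r ^ m * C) atTop (𝓝 (0 * C)) :=
    (tendsto_pow_atTop_nhds_zero_of_lt_one hr0 hr1).mul_const C
  rw [zero_mul] at hlim
  have h0 : |φ x - d / (1 - c)| ≤ 0 := ge_of_tendsto' hlim (fun m => hpow m x)
  have h1 : φ x - d / (1 - c) = 0 := abs_nonpos_iff.mp h0
  linarith

theorem plane_rigid {g g' : ℝ × ℝ → ℝ × ℝ} (hg : PlaneMap g) (hg' : PlaneMap g')
    (h1 : ∀ x, g (g' x) = x) (h2 : ∀ x, g' (g x) = x) :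
    ∃ (n : ℤ × ℤ) (j k : ℤ), ∀ x, g x = pa n j k x := by
  choose B hB using translation hg h1 h2
  choose B' hB' using translation hg' h2 h1
  have hBadd : ∀ m n, B (m + n) = B m + B n := by
    intro m n
    have e1 := hB (m + n) 0
    have e2 := hB m ((0 : ℝ × ℝ).1 + lu n, (0 : ℝ × ℝ).2 + ls n)
    rw [hB n 0] at e2
    simp only [lu_add, ls_add] at e1 e2
    have e3 : ((0 : ℝ × ℝ).1 + (lu m + lu n), (0 : ℝ × ℝ).2 + (ls m + ls n)) =
      ((0 : ℝ × ℝ).1 + lu n + lu m, (0 : ℝ × ℝ).2 + ls n + ls m) := by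
      ext <;> simp <;> ring
    rw [e3, e2, Prod.ext_iff] at e1
    simp only at e1
    apply luls_inj
    · rw [lu_add]
      linarith [e1.1]
    · rw [ls_add]
      linarith [e1.2]
  have hBadd' : ∀ m n, B' (m + n) = B' m + B' n := by
    intro m n
    have e1 := hB' (m + n) 0
    have e2 := hB' m ((0 : ℝ × ℝ).1 + lu n, (0 : ℝ × ℝ).2 + ls n)
    rw [hB' n 0] at e2
    simp only [lu_add, ls_add] at e1 e2
    have e3 : ((0 : ℝ × ℝ).1 + (lu m + lu n), (0 : ℝ × ℝ).2 + (ls m + ls n)) =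
      ((0 : ℝ × ℝ).1 + lu n + lu m, (0 : ℝ × ℝ).2 + ls n + ls m) := by
      ext <;> simp <;> ring
    rw [e3, e2, Prod.ext_iff] at e1
    simp only at e1
    apply luls_inj
    · rw [lu_add]
      linarith [e1.1]
    · rw [ls_add]
      linarith [e1.2]
  have hBB : ∀ n, B' (B n) = n := by
    intro n
    have e1 := hB n 0
    have e2 := hB' (B n) (g 0)
    rw [← e1, h2, h2, Prod.ext_iff] at e2
    simp only [Prod.fst_zero, Prod.snd_zero, zero_add] at e2
    exact (luls_inj e2.1 e2.2).symm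
  -- equivariance with respect to `A`
  obtain ⟨n', j', k', hα⟩ := hg.equi 0 0 1
  set c := (-1 : ℝ) ^ j' * lam ^ k' with hc
  set c' := (-1 : ℝ) ^ j' * mu ^ k' with hc'
  have hcc : c * c' = 1 := by
    have e1 : lam ^ k' * mu ^ k' = 1 := by rw [← mul_zpow, lam_mul_mu, one_zpow]
    rw [hc, hc']
    linear_combination ((-1 : ℝ) ^ j' * (-1) ^ j') * e1 + neg_one_zpow_mul_self j'
  have hα0 : ∀ x : ℝ × ℝ, (g (lam * x.1, mu * x.2)).1 = c * (g x).1 + lu n' := by
    intro x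
    have := hα x
    simp only [pa, zpow_zero, one_mul, zpow_one, lu_zero, ls_zero, add_zero] at this
    rw [this]
  have hα1 : ∀ x : ℝ × ℝ, (g (lam * x.1, mu * x.2)).2 = c' * (g x).2 + ls n' := by
    intro x
    have := hα x
    simp only [pa, zpow_zero, one_mul, zpow_one, lu_zero, ls_zero, add_zero] at this
    rw [this]
  have hluB : ∀ n, lu (B (Aa n)) = c * lu (B n) := by
    intro n
    have e1 := hα0 (lu n, ls n)
    have e2 := hα0 0
    have e3 := hB (Aa n) 0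
    have e4 := hB n 0
    rw [lu_Aa, ls_Aa] at e3
    simp only [Prod.fst_zero, Prod.snd_zero, zero_add, mul_zero] at e1 e2 e3 e4
    rw [e3, e4] at e1
    simp only at e1
    have e2' : (g (0, 0)).1 = c * (g 0).1 + lu n' := e2
    have e5 : (g 0).1 = c * (g 0).1 + lu n' := e2'
    linear_combination e1 - e5
  have hlsB : ∀ n, ls (B (Aa n)) = c' * ls (B n) := by
    intro n
    have e1 := hα1 (lu n, ls n)
    have e2 := hα1 0
    have e3 := hB (Aa n) 0
    have e4 := hB n 0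
    rw [lu_Aa, ls_Aa] at e3
    simp only [Prod.fst_zero, Prod.snd_zero, zero_add, mul_zero] at e1 e2 e3 e4
    rw [e3, e4] at e1
    simp only at e1
    have e5 : (g 0).2 = c' * (g 0).2 + ls n' := e2
    linear_combination e1 - e5
  have hquad : c * c = 35 * c - 1 := by
    obtain ⟨n, hn⟩ : ∃ n, B n = (1, 0) := by
      obtain ⟨n, hn⟩ : ∃ n, g' ((g 0).1 + lu (1, 0), (g 0).2 + ls (1, 0)) =
          ((g' (g 0)).1 + lu n, (g' (g 0)).2 + ls n) := ⟨_, hB' (1, 0) (g 0)⟩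
      refine ⟨n, ?_⟩
      have e1 := congrArg g hn
      rw [h1, hB n (g' (g 0)), h1, Prod.ext_iff] at e1
      simp only at e1
      exact luls_inj (by linarith [e1.1]) (by linarith [e1.2])
    have e1 := hluB n
    have e2 := hluB (Aa n)
    have e3 : Aa (Aa n) + n = 35 • (Aa n) := by
      simp only [Aa_apply]
      ext
      · simp
        ring
      · simp
        ring
    have e4 : ∀ (m : ℕ) x, B (m • x) = m • B x := by
      intro m x
      exact map_nsmul (AddMonoidHom.mk' B hBadd) m x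
    have e5 : ∀ (m : ℕ) x, lu (m • x) = m • lu x := by
      intro m x
      exact map_nsmul (AddMonoidHom.mk' lu lu_add) m x
    have e6 : lu (B (Aa (Aa n) + n)) = lu (B (35 • Aa n)) := by rw [e3]
    rw [hBadd, lu_add, e2, e1, e4, e5, e1] at e6
    have e7 : lu (B n) = 13 := by
      rw [hn]
      simp [lu]
    rw [e7] at e6
    simp only [nsmul_eq_mul, Nat.cast_ofNat] at e6
    linear_combination (1 / 13) * e6
  have hccases : c = lam ∨ c = mu := by
    have e : (c - lam) * (c - mu) = 0 := by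
      linear_combination hquad + lam_mul_mu - c * lam_add_mu
    rcases mul_eq_zero.mp e with h | h
    · left; linarith
    · right; linarith
  have hclam : c = lam ∧ c' = mu := by
    rcases hccases with h | h
    · refine ⟨h, ?_⟩
      rw [h] at hcc
      exact mul_left_cancel₀ lam_pos.ne' (hcc.trans lam_mul_mu.symm)
    · exfalso
      have hc'' : c' = lam := by
        rw [h] at hcc
        exact mul_left_cancel₀ mu_pos.ne' (hcc.trans (by rw [mul_comm, lam_mul_mu]))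
      apply not_inverting hBadd hBadd' hBB
      intro n
      apply luls_inj
      · rw [lu_Aa, hluB, h]
        linear_combination lu (B n) * lam_mul_mu
      · rw [ls_Aa, hlsB, hc'']
        linear_combination ls (B n) * lam_mul_mu
  obtain ⟨hcl, hcm⟩ := hclam
  rw [hcl] at hα0 hluB
  rw [hcm] at hα1 hlsB
  obtain ⟨j, k, hlin⟩ := commuting hBadd hBadd' hBB (fun n => by
    apply luls_inj
    · rw [lu_Aa, hluB]
    · rw [ls_Aa, hlsB])
  set κ₀ := (-1 : ℝ) ^ j * lam ^ k with hκ₀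
  set κ₁ := (-1 : ℝ) ^ j * mu ^ k with hκ₁
  have hκ₀0 : κ₀ ≠ 0 := mul_ne_zero (zpow_ne_zero _ (by norm_num)) (zpow_pos lam_pos k).ne'
  have hκ₁0 : κ₁ ≠ 0 := mul_ne_zero (zpow_ne_zero _ (by norm_num)) (zpow_pos mu_pos k).ne'
  have f0 := const_of_periodic (φ := fun x => (g x).1 - κ₀ * x.1)
    ((continuous_fst.comp hg.cont).sub (continuous_const.mul continuous_fst))
    (fun n x => by
      simp only [hB n x, hlin, lu_lin]
      ring) lam_pos (by linarith [lam_gt]) (d := lu n')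
    (fun x => by
      simp only [hα0]
      ring)
  have f1 := const_of_periodic (φ := fun x => (g x).2 - κ₁ * x.2)
    ((continuous_snd.comp hg.cont).sub (continuous_const.mul continuous_snd))
    (fun n x => by
      simp only [hB n x, hlin, ls_lin]
      ring) mu_pos (by linarith [mu_lt_one]) (d := ls n')
    (fun x => by
      simp only [hα1]
      ring)
  set c₀ := lu n' / (1 - lam) with hc₀
  set c₁ := ls n' / (1 - mu) with hc₁
  have g0 : ∀ x, (g x).1 = κ₀ * x.1 + c₀ := fun x => by linarith [f0 x]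
  have g1 : ∀ x, (g x).2 = κ₁ * x.2 + c₁ := fun x => by linarith [f1 x]
  -- equivariance with respect to `-1`
  obtain ⟨n'', j'', k'', hζ⟩ := hg.equi 0 1 0
  have z0 := congrArg Prod.fst (hζ (0, 0))
  have z1 := congrArg Prod.snd (hζ (0, 0))
  have z2 := congrArg Prod.fst (hζ (1, 1))
  have z3 := congrArg Prod.snd (hζ (1, 1))
  simp only [pa, zpow_zero, zpow_one, mul_one, lu_zero, ls_zero, add_zero, g0, g1, mul_zero,
    zero_add] at z0 z1 z2 z3
  have w0 : (-1 : ℝ) ^ j'' * lam ^ k'' = -1 := by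
    apply mul_right_cancel₀ hκ₀0
    linear_combination z0 - z2
  have w1 : (-1 : ℝ) ^ j'' * mu ^ k'' = -1 := by
    apply mul_right_cancel₀ hκ₁0
    linear_combination z1 - z3
  rw [w0] at z0
  rw [w1] at z1
  have hl := lam_gt
  have hm := mu_lt_one
  have y0 : c₀ * (1 - lam) = lu n' := by
    rw [hc₀]
    exact div_mul_cancel₀ _ (by linarith)
  have y1 : c₁ * (1 - mu) = ls n' := by
    rw [hc₁]
    exact div_mul_cancel₀ _ (by linarith)
  have hn : n'' = Aa n'' + (n' + n') := by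
    apply luls_inj
    · rw [lu_add, lu_add, lu_Aa]
      linear_combination (-(1 - lam)) * z0 + 2 * y0
    · rw [ls_add, ls_add, ls_Aa]
      linear_combination (-(1 - mu)) * z1 + 2 * y1
  obtain ⟨m, hm'⟩ : ∃ m : ℤ × ℤ, n'' = m + m := by
    obtain ⟨a, b⟩ := n''
    obtain ⟨a', b'⟩ := n'
    rw [Aa_apply, Prod.ext_iff] at hn
    simp only [Prod.fst_add, Prod.snd_add] at hn
    obtain ⟨q1, q2⟩ := hn
    refine ⟨(a / 2, b / 2), ?_⟩
    ext
    · simp only [Prod.fst_add]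
      omega
    · simp only [Prod.snd_add]
      omega
  refine ⟨m, j, k, fun x => ?_⟩
  rw [hm', lu_add] at z0
  rw [hm', ls_add] at z1
  apply Prod.ext
  · rw [g0]
    simp only [pa]
    linarith
  · rw [g1]
    simp only [pa]
    linarith

end

end Pool.Agent.Lib.MP_3704ac_gt
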