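import Pool.Agent.Lib.MP_3704ac_gt.Fields

/-!
# Maps of `ℝ⁴` preserving the distribution: infinitesimal part
-/

set_option autoImplicit false

open Set Topology
open scoped ContDiff

namespace Pool.Agent.Lib.MP_3704ac_gt

noncomputable section

/-- The derivative of a function along a vector field. -/
def dd (φ : E4 → ℝ) (Y : E4 → E4) (x : E4) : ℝ := fderiv ℝ φ x (Y x)

lemma contDiff_dd {φ : E4 → ℝ} {Y : E4 → E4} (hφ : ContDiff ℝ ∞ φ) (hY : ContDiff ℝ ∞ Y) :
    ContDiff ℝ ∞ (dd φ Y) := by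
  unfold dd
  exact (hφ.fderiv_right (m := ∞) (by simp)).clm_apply hY

lemma fderiv_dd {φ : E4 → ℝ} {Y : E4 → E4} (hφ : ContDiff ℝ ∞ φ) (hY : ContDiff ℝ ∞ Y)
    (x v : E4) : fderiv ℝ (dd φ Y) x v =
      fderiv ℝ (fderiv ℝ φ) x v (Y x) + fderiv ℝ φ x (fderiv ℝ Y x v) := by
  have h1 : HasFDerivAt (fderiv ℝ φ) (fderiv ℝ (fderiv ℝ φ) x) x :=
    ((hφ.fderiv_right (m := ∞) (by simp)).differentiable (by simp) x).hasFDerivAt
  have h2 : HasFDerivAt Y (fderiv ℝ Y x) x := (hY.differentiable (by simp) x).hasFDerivAt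
  have h3 := h1.clm_apply h2
  have h4 : fderiv ℝ (dd φ Y) x = _ := h3.fderiv
  rw [h4]
  simp
  ring

lemma dd_comm {φ : E4 → ℝ} {Y Z : E4 → E4} (hφ : ContDiff ℝ ∞ φ) (hY : ContDiff ℝ ∞ Y)
    (hZ : ContDiff ℝ ∞ Z) (x : E4) :
    fderiv ℝ (dd φ Z) x (Y x) - fderiv ℝ (dd φ Y) x (Z x) = fderiv ℝ φ x (lb Y Z x) := by
  rw [fderiv_dd hφ hZ, fderiv_dd hφ hY]
  have hsymm : IsSymmSndFDerivAt ℝ φ x :=
    (hφ.contDiffAt).isSymmSndFDerivAt (by
      rw [minSmoothness_of_isRCLikeNormedField]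
      exact ENat.LEInfty.out)
  rw [hsymm.eq (Y x) (Z x)]
  unfold lb
  rw [map_sub]
  ring

/-- The contact form evaluated on the image of a vector field. -/
def heta (U S O τ : E4 → ℝ) (Z : E4 → E4) (x : E4) : ℝ :=
  Real.exp (τ x) * Real.cos (O x) * dd S Z x - Real.exp (-τ x) * Real.sin (O x) * dd U Z x

lemma fderiv_heta {U S O τ : E4 → ℝ} (hU : ContDiff ℝ ∞ U) (hS : ContDiff ℝ ∞ S)
    (hO : ContDiff ℝ ∞ O) (hτ : ContDiff ℝ ∞ τ) {Z : E4 → E4} (hZ : ContDiff ℝ ∞ Z) (x v : E4) :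
    fderiv ℝ (heta U S O τ Z) x v =
      Real.exp (τ x) * (Real.cos (O x) * fderiv ℝ τ x v - Real.sin (O x) * fderiv ℝ O x v) *
        dd S Z x + Real.exp (τ x) * Real.cos (O x) * fderiv ℝ (dd S Z) x v -
      (Real.exp (-τ x) * (-(Real.sin (O x) * fderiv ℝ τ x v) + Real.cos (O x) * fderiv ℝ O x v) *
        dd U Z x + Real.exp (-τ x) * Real.sin (O x) * fderiv ℝ (dd U Z) x v) := by
  have e1 : HasFDerivAt τ (fderiv ℝ τ x) x := (hτ.differentiable (by simp) x).hasFDerivAt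
  have e2 : HasFDerivAt O (fderiv ℝ O x) x := (hO.differentiable (by simp) x).hasFDerivAt
  have e3 : HasFDerivAt (dd S Z) (fderiv ℝ (dd S Z) x) x :=
    ((contDiff_dd hS hZ).differentiable (by simp) x).hasFDerivAt
  have e4 : HasFDerivAt (dd U Z) (fderiv ℝ (dd U Z) x) x :=
    ((contDiff_dd hU hZ).differentiable (by simp) x).hasFDerivAt
  have h := ((e1.exp.mul e2.cos).mul e3).sub ((e1.neg.exp.mul e2.sin).mul e4)
  have h4 : fderiv ℝ (heta U S O τ Z) x = _ := h.fderiv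
  rw [h4]
  simp
  ring

lemma heta_identity {U S O τ : E4 → ℝ} (hU : ContDiff ℝ ∞ U) (hS : ContDiff ℝ ∞ S)
    (hO : ContDiff ℝ ∞ O) (hτ : ContDiff ℝ ∞ τ) {Y Z : E4 → E4} (hY : ContDiff ℝ ∞ Y)
    (hZ : ContDiff ℝ ∞ Z) (hY0 : ∀ x, heta U S O τ Y x = 0) (hZ0 : ∀ x, heta U S O τ Z x = 0)
    (x : E4) :
    Real.exp (τ x) * Real.cos (O x) * fderiv ℝ S x (lb Y Z x) -
      Real.exp (-τ x) * Real.sin (O x) * fderiv ℝ U x (lb Y Z x) +
      (Real.exp (τ x) * (Real.cos (O x) * dd τ Y x - Real.sin (O x) * dd O Y x) * dd S Z x +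
        Real.exp (-τ x) * (Real.sin (O x) * dd τ Y x - Real.cos (O x) * dd O Y x) * dd U Z x) -
      (Real.exp (τ x) * (Real.cos (O x) * dd τ Z x - Real.sin (O x) * dd O Z x) * dd S Y x +
        Real.exp (-τ x) * (Real.sin (O x) * dd τ Z x - Real.cos (O x) * dd O Z x) * dd U Y x)
      = 0 := by
  have h1 : fderiv ℝ (heta U S O τ Z) x (Y x) = 0 := by
    have : heta U S O τ Z = fun _ => 0 := funext hZ0
    rw [this]
    simp
  have h2 : fderiv ℝ (heta U S O τ Y) x (Z x) = 0 := by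
    have : heta U S O τ Y = fun _ => 0 := funext hY0
    rw [this]
    simp
  rw [fderiv_heta hU hS hO hτ hZ] at h1
  rw [fderiv_heta hU hS hO hτ hY] at h2
  rw [← dd_comm hS hY hZ, ← dd_comm hU hY hZ]
  simp only [dd] at h1 h2 ⊢
  linear_combination h1 - h2

/-- The field `∂_ω`. -/
def W0 : E4 := !₂[0, 0, 1, 0]

lemma Zf_eq (x : E4) :
    Zf x = Real.cos (2 * x 2) • Xf x + (2 + Real.cos (2 * x 2) ^ 2) • W0 := by
  ext i
  fin_cases i
  · simp [Zf, Xf, W0]
  · simp [Zf, Xf, W0]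
  · simp [Zf, Xf, W0]
    ring
  · simp [Zf, Xf, W0]

lemma lb_Tf_W0 (x : E4) : lb Tf (fun _ => W0) x = (-2 * Real.cos (2 * x 2)) • W0 := by
  unfold lb
  rw [fderiv_Tf]
  ext i
  fin_cases i <;> simp [W0]

/-- Smooth maps with injective derivatives which preserve the distribution. -/
structure IsAuto (F : E4 → E4) : Prop where
  smooth : ContDiff ℝ ∞ F
  inj : ∀ x, Function.Injective (fderiv ℝ F x)
  presT : ∀ x, ∃ c a : ℝ, fderiv ℝ F x (Tf x) = c • Tf (F x) + a • Xf (F x)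
  presX : ∀ x, ∃ c a : ℝ, fderiv ℝ F x (Xf x) = c • Tf (F x) + a • Xf (F x)

lemma comb_apply (c a : ℝ) (y : E4) :
    (c • Tf y + a • Xf y) 0 = a * (Real.exp (y 3) * Real.cos (y 2)) ∧
    (c • Tf y + a • Xf y) 1 = a * (Real.exp (-y 3) * Real.sin (y 2)) ∧
    (c • Tf y + a • Xf y) 2 = c * Real.sin (2 * y 2) - a * Real.cos (2 * y 2) ∧
    (c • Tf y + a • Xf y) 3 = c := by
  refine ⟨?_, ?_, ?_, ?_⟩
  · simp [Tf, Xf]
  · simp [Tf, Xf]
  · simp [Tf, Xf]
    ring
  · simp [Tf, Xf]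

lemma ext4 {v w : E4} (h0 : v 0 = w 0) (h1 : v 1 = w 1) (h2 : v 2 = w 2) (h3 : v 3 = w 3) :
    v = w := by
  ext i
  fin_cases i
  · exact h0
  · exact h1
  · exact h2
  · exact h3

lemma Tf_ne_zero (x : E4) : Tf x ≠ 0 := by
  intro h
  have := congrArg (fun p : E4 => p 3) h
  simp [Tf] at this

lemma independent_TXW {x : E4} {α β γ : ℝ} (h : α • Tf x + β • Xf x + γ • W0 = 0) :
    α = 0 ∧ β = 0 ∧ γ = 0 := by
  have h3 := congrArg (fun p : E4 => p 3) h
  have h2 := congrArg (fun p : E4 => p 2) h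
  have h1 := congrArg (fun p : E4 => p 1) h
  have h0 := congrArg (fun p : E4 => p 0) h
  have hα : α = 0 := by simpa [Tf, Xf, W0] using h3
  subst hα
  have e0 : β * (Real.exp (x 3) * Real.cos (x 2)) = 0 := by simpa [Tf, Xf, W0] using h0
  have e1 : β * (Real.exp (-x 3) * Real.sin (x 2)) = 0 := by simpa [Tf, Xf, W0] using h1
  have hee : Real.exp (x 3) * Real.exp (-x 3) = 1 := by
    rw [← Real.exp_add, add_neg_cancel, Real.exp_zero]
  have hβ : β = 0 := by
    linear_combination (Real.exp (-x 3) * Real.cos (x 2)) * e0 +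
      (Real.exp (x 3) * Real.sin (x 2)) * e1 - β * Real.sin_sq_add_cos_sq (x 2) -
      β * (Real.sin (x 2) ^ 2 + Real.cos (x 2) ^ 2) * hee
  subst hβ
  have hγ : γ = 0 := by simpa [Tf, Xf, W0] using h2
  exact ⟨rfl, rfl, hγ⟩

namespace IsAuto

variable {F : E4 → E4} (hF : IsAuto F)
include hF

lemma contDiff_comp (i : Fin 4) : ContDiff ℝ ∞ (fun x => F x i) :=
  (contDiff_euclidean.mp hF.smooth) i

lemma fderiv_comp (x v : E4) (i : Fin 4) :
    fderiv ℝ (fun p => F p i) x v = (fderiv ℝ F x v) i :=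
  (fderiv_coord (hF.smooth.differentiable (by simp) x) v i).symm

lemma heta_of_pres (Z : E4 → E4)
    (h : ∀ x, ∃ c a : ℝ, fderiv ℝ F x (Z x) = c • Tf (F x) + a • Xf (F x)) (x : E4) :
    heta (fun x => F x 0) (fun x => F x 1) (fun x => F x 2) (fun x => F x 3) Z x = 0 := by
  obtain ⟨c, a, hca⟩ := h x
  simp only [heta, dd, hF.fderiv_comp, hca, (comb_apply c a (F x)).1, (comb_apply c a (F x)).2.1]
  ring

/-- The image of `∂_ω` is in the kernel of the contact form. -/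
lemma heta_W0 (x : E4) :
    heta (fun x => F x 0) (fun x => F x 1) (fun x => F x 2) (fun x => F x 3) (fun _ => W0) x
      = 0 := by
  have hX := hF.heta_of_pres Xf hF.presX
  have h := heta_identity (hF.contDiff_comp 0) (hF.contDiff_comp 1) (hF.contDiff_comp 2)
    (hF.contDiff_comp 3) contDiff_Tf contDiff_Xf (hF.heta_of_pres Tf hF.presT) hX x
  rw [lb_Tf_Xf, Zf_eq] at h
  obtain ⟨c, a, hT⟩ := hF.presT x
  obtain ⟨c', a', hX'⟩ := hF.presX x
  have hXx := hX x
  simp only [heta, dd, hF.fderiv_comp, map_add, map_smul, hT, hX', (comb_apply c a (F x)).1,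
    (comb_apply c a (F x)).2.1, (comb_apply c a (F x)).2.2.1, (comb_apply c a (F x)).2.2.2,
    (comb_apply c' a' (F x)).1, (comb_apply c' a' (F x)).2.1, (comb_apply c' a' (F x)).2.2.1,
    (comb_apply c' a' (F x)).2.2.2, PiLp.add_apply, PiLp.smul_apply, smul_eq_mul] at h hXx ⊢
  have hpos : (2 + Real.cos (2 * x 2) ^ 2) ≠ 0 := by positivity
  apply mul_left_cancel₀ hpos
  have h1 := Real.sin_sq_add_cos_sq (F x 2)
  have h2 := Real.sin_two_mul (F x 2)
  linear_combination h + Real.exp (F x 3) * Real.exp (-F x 3) * (a' * c - a * c') *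
    (Real.sin (2 * F x 2) * h1 + h2)

/-- The image of `∂_ω` in the `(u, s)`-plane. -/
lemma exists_b (x : E4) : ∃ b : ℝ,
    (fderiv ℝ F x W0) 0 = b * (Real.exp (F x 3) * Real.cos (F x 2)) ∧
    (fderiv ℝ F x W0) 1 = b * (Real.exp (-F x 3) * Real.sin (F x 2)) := by
  have h := hF.heta_W0 x
  simp only [heta, dd, hF.fderiv_comp] at h
  have hee : Real.exp (F x 3) * Real.exp (-F x 3) = 1 := by
    rw [← Real.exp_add, add_neg_cancel, Real.exp_zero]
  have h1 := Real.sin_sq_add_cos_sq (F x 2)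
  refine ⟨Real.exp (-F x 3) * Real.cos (F x 2) * (fderiv ℝ F x W0) 0 +
    Real.exp (F x 3) * Real.sin (F x 2) * (fderiv ℝ F x W0) 1, ?_, ?_⟩
  · linear_combination (-(fderiv ℝ F x W0) 0) * h1 -
      ((Real.cos (F x 2) ^ 2 + Real.sin (F x 2) ^ 2) * (fderiv ℝ F x W0) 0) * hee -
      (Real.exp (F x 3) * Real.sin (F x 2)) * h
  · linear_combination (-(fderiv ℝ F x W0) 1) * h1 -
      ((Real.cos (F x 2) ^ 2 + Real.sin (F x 2) ^ 2) * (fderiv ℝ F x W0) 1) * hee +
      (Real.exp (-F x 3) * Real.cos (F x 2)) * h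

/-- The characteristic line field is preserved. -/
lemma presT' (x : E4) : ∃ c : ℝ, c ≠ 0 ∧ fderiv ℝ F x (Tf x) = c • Tf (F x) := by
  have hT := hF.heta_of_pres Tf hF.presT
  have h := heta_identity (hF.contDiff_comp 0) (hF.contDiff_comp 1) (hF.contDiff_comp 2)
    (hF.contDiff_comp 3) contDiff_Tf (contDiff_const (c := W0)) hT hF.heta_W0 x
  rw [lb_Tf_W0] at h
  obtain ⟨c, a, hTx⟩ := hF.presT x
  obtain ⟨b, hb0, hb1⟩ := hF.exists_b x
  obtain ⟨c', a', hXx⟩ := hF.presX x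
  set w := fderiv ℝ F x W0 with hw
  simp only [dd, hF.fderiv_comp, map_smul, hTx, ← hw, (comb_apply c a (F x)).1,
    (comb_apply c a (F x)).2.1, (comb_apply c a (F x)).2.2.1, (comb_apply c a (F x)).2.2.2,
    PiLp.smul_apply, smul_eq_mul, hb0, hb1] at h
  have hee : Real.exp (F x 3) * Real.exp (-F x 3) = 1 := by
    rw [← Real.exp_add, add_neg_cancel, Real.exp_zero]
  have h1 := Real.sin_sq_add_cos_sq (F x 2)
  have h2 := Real.sin_two_mul (F x 2)
  -- the key equation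
  have key : a * (w 2 - Real.sin (2 * F x 2) * w 3 + Real.cos (2 * F x 2) * b) = 0 := by
    linear_combination h + Real.exp (F x 3) * Real.exp (-F x 3) *
      (b * (c * Real.sin (2 * F x 2) - a * Real.cos (2 * F x 2)) - a * w 2) * h1 +
      Real.exp (F x 3) * Real.exp (-F x 3) * (b * c - a * w 3) * h2 -
      (a * w 2 - a * Real.sin (2 * F x 2) * w 3 + a * b * Real.cos (2 * F x 2)) * hee
  rcases mul_eq_zero.mp key with ha | hdel
  · subst ha
    refine ⟨c, ?_, by simpa using hTx⟩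
    rintro rfl
    have h0 : fderiv ℝ F x (Tf x) = fderiv ℝ F x 0 := by
      rw [hTx]
      simp
    exact Tf_ne_zero x (hF.inj x h0)
  · exfalso
    obtain ⟨d, hd⟩ : ∃ d : ℝ, w 3 = d := ⟨_, rfl⟩
    rw [hd] at hdel
    have hwx : w = d • Tf (F x) + b • Xf (F x) := by
      obtain ⟨q0, q1, q2, q3⟩ := comb_apply d b (F x)
      apply ext4
      · rw [q0, hb0]
      · rw [q1, hb1]
      · rw [q2]
        linear_combination hdel
      · rw [q3, hd]
    have hz : (c' * b - d * a') • Tf x + (d * a - c * b) • Xf x + (c * a' - c' * a) • W0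
        = 0 := by
      apply hF.inj x
      rw [map_zero, map_add, map_add, map_smul, map_smul, map_smul, hTx, hXx, ← hw, hwx]
      module
    obtain ⟨h3, h4, h5⟩ := independent_TXW hz
    have hz' : a' • Tf x + (-a) • Xf x + (0 : ℝ) • W0 = 0 := by
      apply hF.inj x
      rw [map_zero, map_add, map_add, map_smul, map_smul, map_smul, hTx, hXx]
      have e4 : c * a' = c' * a := by linarith
      have e5 : a' • (c • Tf (F x) + a • Xf (F x)) + -a • (c' • Tf (F x) + a' • Xf (F x)) +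
          (0 : ℝ) • fderiv ℝ F x W0 = (c * a' - c' * a) • Tf (F x) := by
        module
      rw [e5, h5, zero_smul]
    obtain ⟨h6, h7, -⟩ := independent_TXW hz'
    have ha : a = 0 := by linarith
    -- now the image of `T` and `X` are parallel
    have hz'' : c' • Tf x + (-c) • Xf x + (0 : ℝ) • W0 = 0 := by
      apply hF.inj x
      rw [map_zero, map_add, map_add, map_smul, map_smul, map_smul, hTx, hXx, ha, h6]
      module
    obtain ⟨h8, h9, -⟩ := independent_TXW hz''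
    have hc : c = 0 := by linarith
    have h0 : fderiv ℝ F x (Tf x) = fderiv ℝ F x 0 := by
      rw [hTx, ha, hc]
      simp
    exact Tf_ne_zero x (hF.inj x h0)

lemma presX' (x : E4) : ∃ c a : ℝ, a ≠ 0 ∧
    fderiv ℝ F x (Xf x) = c • Tf (F x) + a • Xf (F x) := by
  obtain ⟨c, a, h⟩ := hF.presX x
  obtain ⟨cT, hcT, hT⟩ := hF.presT' x
  refine ⟨c, a, ?_, h⟩
  rintro rfl
  have hz : c • Tf x + (-cT) • Xf x + (0 : ℝ) • W0 = 0 := by
    apply hF.inj x
    rw [map_zero, map_add, map_add, map_smul, map_smul, map_smul, hT, h]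
    module
  obtain ⟨-, h2, -⟩ := independent_TXW hz
  exact hcT (by linarith)

/-- The `(u, s)`-coordinates of `F` are constant in the direction `T`. -/
lemma fderiv_T_zero (x : E4) : (fderiv ℝ F x (Tf x)) 0 = 0 ∧ (fderiv ℝ F x (Tf x)) 1 = 0 := by
  obtain ⟨c, -, h⟩ := hF.presT' x
  rw [h]
  constructor <;> simp [Tf]

end IsAuto

end

end Pool.Agent.Lib.MP_3704ac_gt
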