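import Pool.Agent.Lib.MP_3704ac_gt.Rigid1
import Pool.Agent.Lib.MP_3704ac_gt.Flow

/-!
# Maps of `ℝ⁴` preserving the distribution are lifts of maps of the `(u, s)`-plane
-/

set_option autoImplicit false

open Set Topology Filter
open scoped ContDiff

namespace Pool.Agent.Lib.MP_3704ac_gt

noncomputable section

/-- The point with given coordinates. -/
def pt (u s w t : ℝ) : E4 := !₂[u, s, w, t]

lemma pt_eta (p : E4) : pt (p 0) (p 1) (p 2) (p 3) = p := by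
  ext i
  fin_cases i <;> rfl

lemma hasDerivAt_vec {f0 f1 f2 f3 : ℝ → ℝ} {v0 v1 v2 v3 x : ℝ}
    (h0 : HasDerivAt f0 v0 x) (h1 : HasDerivAt f1 v1 x) (h2 : HasDerivAt f2 v2 x)
    (h3 : HasDerivAt f3 v3 x) :
    HasDerivAt (fun h => pt (f0 h) (f1 h) (f2 h) (f3 h)) (pt v0 v1 v2 v3) x := by
  rw [← hasDerivWithinAt_univ, hasDerivWithinAt_iff_hasFDerivWithinAt,
    hasFDerivWithinAt_euclidean]
  intro i
  rw [hasFDerivWithinAt_univ]
  fin_cases i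
  · refine h0.hasFDerivAt.congr_fderiv ?_
    ext
    simp [pt]
  · refine h1.hasFDerivAt.congr_fderiv ?_
    ext
    simp [pt]
  · refine h2.hasFDerivAt.congr_fderiv ?_
    ext
    simp [pt]
  · refine h3.hasFDerivAt.congr_fderiv ?_
    ext
    simp [pt]

lemma Wt_zero (ϑ : ℝ) : Wt ϑ 0 = ϑ := by
  unfold Wt fN
  simp

@[simp] lemma pt_apply_0 (u s w t : ℝ) : pt u s w t 0 = u := rfl
@[simp] lemma pt_apply_1 (u s w t : ℝ) : pt u s w t 1 = s := rfl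
@[simp] lemma pt_apply_2 (u s w t : ℝ) : pt u s w t 2 = w := rfl
@[simp] lemma pt_apply_3 (u s w t : ℝ) : pt u s w t 3 = t := rfl

lemma hasDerivAt_flow (u s ϑ t₀ h : ℝ) :
    HasDerivAt (fun h => pt u s (Wt ϑ h) (t₀ + h)) (Tf (pt u s (Wt ϑ h) (t₀ + h))) h :=
  hasDerivAt_vec (hasDerivAt_const h u) (hasDerivAt_const h s) (hasDerivAt_Wt_time ϑ h)
    ((hasDerivAt_id h).const_add t₀)

/-- Functions which are constant along `T`. -/
lemma flow_const {φ : E4 → ℝ} (hφ : ContDiff ℝ ∞ φ) (hT : ∀ x, fderiv ℝ φ x (Tf x) = 0)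
    (u s ϑ t₀ h : ℝ) : φ (pt u s (Wt ϑ h) (t₀ + h)) = φ (pt u s ϑ t₀) := by
  have h1 : ∀ h, HasDerivAt (fun h => φ (pt u s (Wt ϑ h) (t₀ + h))) 0 h := by
    intro h
    have h2 : HasFDerivAt φ (fderiv ℝ φ (pt u s (Wt ϑ h) (t₀ + h)))
        (pt u s (Wt ϑ h) (t₀ + h)) := (hφ.differentiable (by simp) _).hasFDerivAt
    have h3 := h2.comp_hasDerivAt h (hasDerivAt_flow u s ϑ t₀ h)
    rw [hT] at h3
    exact h3
  have h4 := is_const_of_deriv_eq_zero (fun h => (h1 h).differentiableAt)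
    (fun h => (h1 h).deriv) h 0
  simpa [Wt_zero] using h4

lemma flow_deriv_w {φ : E4 → ℝ} (hφ : ContDiff ℝ ∞ φ) (hT : ∀ x, fderiv ℝ φ x (Tf x) = 0)
    (u s ϑ t₀ h : ℝ) :
    fderiv ℝ φ (pt u s (Wt ϑ h) (t₀ + h)) W0 = fR ϑ h * fderiv ℝ φ (pt u s ϑ t₀) W0 := by
  have h1 : HasDerivAt (fun ϑ => pt u s (Wt ϑ h) (t₀ + h)) (pt 0 0 (fR ϑ h)⁻¹ 0) ϑ :=
    hasDerivAt_vec (hasDerivAt_const ϑ u) (hasDerivAt_const ϑ s) (hasDerivAt_Wt_space ϑ h)
      (hasDerivAt_const ϑ (t₀ + h))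
  have h2 : HasDerivAt (fun ϑ => pt u s ϑ t₀) (pt 0 0 1 0) ϑ :=
    hasDerivAt_vec (hasDerivAt_const ϑ u) (hasDerivAt_const ϑ s) (hasDerivAt_id ϑ)
      (hasDerivAt_const ϑ t₀)
  have h3 : HasFDerivAt φ (fderiv ℝ φ (pt u s (Wt ϑ h) (t₀ + h)))
        (pt u s (Wt ϑ h) (t₀ + h)) := (hφ.differentiable (by simp) _).hasFDerivAt
  have h4 : HasFDerivAt φ (fderiv ℝ φ (pt u s ϑ t₀))
        (pt u s ϑ t₀) := (hφ.differentiable (by simp) _).hasFDerivAt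
  have h5 := h3.comp_hasDerivAt ϑ h1
  have h6 := h4.comp_hasDerivAt ϑ h2
  have h7 : (φ ∘ fun ϑ => pt u s (Wt ϑ h) (t₀ + h)) = (φ ∘ fun ϑ => pt u s ϑ t₀) := by
    funext ϑ
    exact flow_const hφ hT u s ϑ t₀ h
  rw [h7] at h5
  have h8 := h5.unique h6
  have e1 : pt 0 0 (fR ϑ h)⁻¹ 0 = (fR ϑ h)⁻¹ • W0 := by
    ext i
    fin_cases i <;> simp [pt, W0]
  have e2 : pt 0 0 1 0 = W0 := rfl
  rw [e1, e2, map_smul, smul_eq_mul] at h8
  have hR := (fR_pos ϑ h).ne'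
  rw [← h8]
  field_simp

lemma flow_deriv_u {φ : E4 → ℝ} (hφ : ContDiff ℝ ∞ φ) (hT : ∀ x, fderiv ℝ φ x (Tf x) = 0)
    (u s ϑ t₀ h : ℝ) :
    fderiv ℝ φ (pt u s (Wt ϑ h) (t₀ + h)) (pt 1 0 0 0) =
      fderiv ℝ φ (pt u s ϑ t₀) (pt 1 0 0 0) := by
  have h1 : HasDerivAt (fun u => pt u s (Wt ϑ h) (t₀ + h)) (pt 1 0 0 0) u :=
    hasDerivAt_vec (hasDerivAt_id u) (hasDerivAt_const u s) (hasDerivAt_const u _)
      (hasDerivAt_const u (t₀ + h))
  have h2 : HasDerivAt (fun u => pt u s ϑ t₀) (pt 1 0 0 0) u :=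
    hasDerivAt_vec (hasDerivAt_id u) (hasDerivAt_const u s) (hasDerivAt_const u _)
      (hasDerivAt_const u t₀)
  have h3 : HasFDerivAt φ (fderiv ℝ φ (pt u s (Wt ϑ h) (t₀ + h)))
        (pt u s (Wt ϑ h) (t₀ + h)) := (hφ.differentiable (by simp) _).hasFDerivAt
  have h4 : HasFDerivAt φ (fderiv ℝ φ (pt u s ϑ t₀))
        (pt u s ϑ t₀) := (hφ.differentiable (by simp) _).hasFDerivAt
  have h5 := h3.comp_hasDerivAt u h1
  have h6 := h4.comp_hasDerivAt u h2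
  have h7 : (φ ∘ fun u => pt u s (Wt ϑ h) (t₀ + h)) = (φ ∘ fun u => pt u s ϑ t₀) := by
    funext u
    exact flow_const hφ hT u s ϑ t₀ h
  rw [h7] at h5
  exact h5.unique h6

lemma flow_deriv_s {φ : E4 → ℝ} (hφ : ContDiff ℝ ∞ φ) (hT : ∀ x, fderiv ℝ φ x (Tf x) = 0)
    (u s ϑ t₀ h : ℝ) :
    fderiv ℝ φ (pt u s (Wt ϑ h) (t₀ + h)) (pt 0 1 0 0) =
      fderiv ℝ φ (pt u s ϑ t₀) (pt 0 1 0 0) := by
  have h1 : HasDerivAt (fun s => pt u s (Wt ϑ h) (t₀ + h)) (pt 0 1 0 0) s :=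
    hasDerivAt_vec (hasDerivAt_const s u) (hasDerivAt_id s) (hasDerivAt_const s _)
      (hasDerivAt_const s (t₀ + h))
  have h2 : HasDerivAt (fun s => pt u s ϑ t₀) (pt 0 1 0 0) s :=
    hasDerivAt_vec (hasDerivAt_const s u) (hasDerivAt_id s) (hasDerivAt_const s _)
      (hasDerivAt_const s t₀)
  have h3 : HasFDerivAt φ (fderiv ℝ φ (pt u s (Wt ϑ h) (t₀ + h)))
        (pt u s (Wt ϑ h) (t₀ + h)) := (hφ.differentiable (by simp) _).hasFDerivAt
  have h4 : HasFDerivAt φ (fderiv ℝ φ (pt u s ϑ t₀))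
        (pt u s ϑ t₀) := (hφ.differentiable (by simp) _).hasFDerivAt
  have h5 := h3.comp_hasDerivAt s h1
  have h6 := h4.comp_hasDerivAt s h2
  have h7 : (φ ∘ fun s => pt u s (Wt ϑ h) (t₀ + h)) = (φ ∘ fun s => pt u s ϑ t₀) := by
    funext s
    exact flow_const hφ hT u s ϑ t₀ h
  rw [h7] at h5
  exact h5.unique h6

lemma Xf_pt (u s w t : ℝ) : Xf (pt u s w t) = (Real.exp t * Real.cos w) • pt 1 0 0 0 +
    (Real.exp (-t) * Real.sin w) • pt 0 1 0 0 - Real.cos (2 * w) • W0 := by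
  ext i
  fin_cases i <;> simp [Xf, W0, pt]

lemma Tf_pt (u s w t : ℝ) : Tf (pt u s w t) = Real.sin (2 * w) • W0 + pt 0 0 0 1 := by
  ext i
  fin_cases i <;> simp [Tf, W0, pt]

/-- The key identity along the flow. -/
lemma flow_X {φ : E4 → ℝ} (hφ : ContDiff ℝ ∞ φ) (hT : ∀ x, fderiv ℝ φ x (Tf x) = 0)
    (u s ϑ t₀ h : ℝ) :
    √(fR ϑ h) * fderiv ℝ φ (pt u s (Wt ϑ h) (t₀ + h)) (Xf (pt u s (Wt ϑ h) (t₀ + h))) =
      fderiv ℝ φ (pt u s ϑ t₀) (Xf (pt u s ϑ t₀)) +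
        (fK ϑ h + Real.cos (2 * ϑ)) * fderiv ℝ φ (pt u s ϑ t₀) W0 := by
  rw [Xf_pt, Xf_pt, map_sub, map_add, map_smul, map_smul, map_smul, map_sub, map_add, map_smul,
    map_smul, map_smul, flow_deriv_w hφ hT, flow_deriv_u hφ hT, flow_deriv_s hφ hT]
  simp only [smul_eq_mul]
  have h1 := cos_Wt ϑ h
  have h2 := sin_Wt ϑ h
  have h3 := cos_two_Wt ϑ h
  have h4 : Real.exp h * Real.exp (-h) = 1 := by
    rw [← Real.exp_add, add_neg_cancel, Real.exp_zero]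
  have e1 : Real.exp (t₀ + h) = Real.exp t₀ * Real.exp h := Real.exp_add _ _
  have e2 : Real.exp (-(t₀ + h)) = Real.exp (-t₀) * Real.exp (-h) := by
    rw [neg_add, Real.exp_add]
  have e3 : fK ϑ h = -(√(fR ϑ h) * (fR ϑ h * Real.cos (2 * Wt ϑ h))) := by
    rw [h3]
    unfold fK
    ring
  rw [e1, e2, e3]
  linear_combination (Real.exp t₀ * Real.exp h * fderiv ℝ φ (pt u s ϑ t₀) (pt 1 0 0 0)) * h1 +
    (Real.exp (-t₀) * Real.exp (-h) * fderiv ℝ φ (pt u s ϑ t₀) (pt 0 1 0 0)) * h2 +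
    (Real.exp t₀ * Real.cos ϑ * fderiv ℝ φ (pt u s ϑ t₀) (pt 1 0 0 0) +
      Real.exp (-t₀) * Real.sin ϑ * fderiv ℝ φ (pt u s ϑ t₀) (pt 0 1 0 0)) * h4

lemma dense_sin_ne : Dense {x : ℝ | Real.sin (2 * x) ≠ 0} := by
  have h1 : {x : ℝ | Real.sin (2 * x) = 0} ⊆ range (fun n : ℤ => (n : ℝ) * Real.pi / 2) := by
    intro x hx
    obtain ⟨n, hn⟩ := Real.sin_eq_zero_iff.mp hx
    exact ⟨n, by simp only; linarith⟩
  exact ((countable_range _).mono h1).dense_compl ℝ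

namespace IsAuto

variable {F : E4 → E4} (hF : IsAuto F)
include hF

lemma fderiv_comp_T (x : E4) :
    fderiv ℝ (fun p => F p 0) x (Tf x) = 0 ∧ fderiv ℝ (fun p => F p 1) x (Tf x) = 0 := by
  rw [hF.fderiv_comp, hF.fderiv_comp]
  exact hF.fderiv_T_zero x

lemma dir_ne_zero (c : ℝ) (hc : c ≠ 0) (τ w : ℝ) (h0 : c * (Real.exp τ * Real.cos w) = 0)
    (h1 : c * (Real.exp (-τ) * Real.sin w) = 0) : False := by
  have hee : Real.exp τ * Real.exp (-τ) = 1 := by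
    rw [← Real.exp_add, add_neg_cancel, Real.exp_zero]
  apply hc
  linear_combination (Real.exp (-τ) * Real.cos w) * h0 + (Real.exp τ * Real.sin w) * h1 -
    (c * (Real.sin w ^ 2 + Real.cos w ^ 2)) * hee - c * Real.sin_sq_add_cos_sq w

/-- The `(u, s)`-components of the image of `∂_ω` vanish (generic case). -/
lemma w_zero_aux (u s ϑ t₀ : ℝ) (hϑ : Real.sin (2 * ϑ) ≠ 0) :
    fderiv ℝ (fun p => F p 0) (pt u s ϑ t₀) W0 = 0 ∧
      fderiv ℝ (fun p => F p 1) (pt u s ϑ t₀) W0 = 0 := by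
  obtain ⟨b, hb0, hb1⟩ := hF.exists_b (pt u s ϑ t₀)
  obtain ⟨c, a, ha, hX⟩ := hF.presX' (pt u s ϑ t₀)
  have hb : b = 0 := by
    by_contra hb
    obtain ⟨h, hh⟩ := fK_surjective hϑ (-(a / b) - Real.cos (2 * ϑ))
    have k0 := flow_X (hF.contDiff_comp 0) (fun x => (hF.fderiv_comp_T x).1) u s ϑ t₀ h
    have k1 := flow_X (hF.contDiff_comp 1) (fun x => (hF.fderiv_comp_T x).2) u s ϑ t₀ h
    obtain ⟨c', a', ha', hX'⟩ := hF.presX' (pt u s (Wt ϑ h) (t₀ + h))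
    obtain ⟨q0, q1, -, -⟩ := comb_apply c a (F (pt u s ϑ t₀))
    obtain ⟨r0, r1, -, -⟩ := comb_apply c' a' (F (pt u s (Wt ϑ h) (t₀ + h)))
    rw [hF.fderiv_comp, hF.fderiv_comp, hF.fderiv_comp, hX, hX', q0, r0, hb0, hh] at k0
    rw [hF.fderiv_comp, hF.fderiv_comp, hF.fderiv_comp, hX, hX', q1, r1, hb1, hh] at k1
    have hR : 0 < √(fR ϑ h) := Real.sqrt_pos.mpr (fR_pos ϑ h)
    have hbb : a / b * b = a := div_mul_cancel₀ a hb
    apply dir_ne_zero (F := F) hF (√(fR ϑ h) * a') (mul_ne_zero hR.ne' ha')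
      (F (pt u s (Wt ϑ h) (t₀ + h)) 3) (F (pt u s (Wt ϑ h) (t₀ + h)) 2)
    · linear_combination k0 - (Real.exp (F (pt u s ϑ t₀) 3) * Real.cos (F (pt u s ϑ t₀) 2)) * hbb
    · linear_combination k1 - (Real.exp (-F (pt u s ϑ t₀) 3) * Real.sin (F (pt u s ϑ t₀) 2)) * hbb
  rw [hF.fderiv_comp, hF.fderiv_comp, hb0, hb1, hb]
  simp

lemma continuous_pt_w (u s t : ℝ) : Continuous (fun w => pt u s w t) :=
  continuous_iff_continuousAt.mpr fun w =>
    (hasDerivAt_vec (hasDerivAt_const w u) (hasDerivAt_const w s) (hasDerivAt_id w)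
      (hasDerivAt_const w t)).continuousAt

lemma w_zero (i : Fin 4) (hi : i = 0 ∨ i = 1) (u s ϑ t : ℝ) :
    fderiv ℝ (fun p => F p i) (pt u s ϑ t) W0 = 0 := by
  have hc : Continuous (fun w => fderiv ℝ (fun p => F p i) (pt u s w t) W0) := by
    have h1 : Continuous (fderiv ℝ (fun p => F p i)) :=
      (hF.contDiff_comp i).continuous_fderiv (by simp)
    exact (h1.comp (continuous_pt_w hF u s t)).clm_apply continuous_const
  have h2 := Continuous.ext_on dense_sin_ne hc (continuous_const (y := (0 : ℝ))) (by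
    intro w hw
    rcases hi with rfl | rfl
    · exact (hF.w_zero_aux u s w t hw).1
    · exact (hF.w_zero_aux u s w t hw).2)
  exact congrFun h2 ϑ

lemma t_zero (i : Fin 4) (hi : i = 0 ∨ i = 1) (u s ϑ t : ℝ) :
    fderiv ℝ (fun p => F p i) (pt u s ϑ t) (pt 0 0 0 1) = 0 := by
  have h1 : fderiv ℝ (fun p => F p i) (pt u s ϑ t) (Tf (pt u s ϑ t)) = 0 := by
    rcases hi with rfl | rfl
    · exact (hF.fderiv_comp_T _).1
    · exact (hF.fderiv_comp_T _).2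
  rw [Tf_pt, map_add, map_smul, hF.w_zero i hi, smul_zero, zero_add] at h1
  exact h1

/-- The `(u, s)`-components of `F` depend only on `(u, s)`. -/
lemma comp_eq (i : Fin 4) (hi : i = 0 ∨ i = 1) (u s w t : ℝ) :
    F (pt u s w t) i = F (pt u s 0 0) i := by
  have h1 : ∀ w', HasDerivAt (fun w' => F (pt u s w' t) i) 0 w' := by
    intro w'
    have h2 : HasDerivAt (fun w' => pt u s w' t) (pt 0 0 1 0) w' :=
      hasDerivAt_vec (hasDerivAt_const _ u) (hasDerivAt_const _ s) (hasDerivAt_id _)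
        (hasDerivAt_const _ t)
    have h3 : HasFDerivAt (fun p => F p i) (fderiv ℝ (fun p => F p i) (pt u s w' t))
        (pt u s w' t) := ((hF.contDiff_comp i).differentiable (by simp) _).hasFDerivAt
    have h4 := h3.comp_hasDerivAt w' h2
    rw [show pt 0 0 1 0 = W0 from rfl, hF.w_zero i hi] at h4
    exact h4
  have h5 : ∀ t', HasDerivAt (fun t' => F (pt u s 0 t') i) 0 t' := by
    intro t'
    have h2 : HasDerivAt (fun t' => pt u s 0 t') (pt 0 0 0 1) t' :=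
      hasDerivAt_vec (hasDerivAt_const _ u) (hasDerivAt_const _ s) (hasDerivAt_const _ 0)
        (hasDerivAt_id _)
    have h3 : HasFDerivAt (fun p => F p i) (fderiv ℝ (fun p => F p i) (pt u s 0 t'))
        (pt u s 0 t') := ((hF.contDiff_comp i).differentiable (by simp) _).hasFDerivAt
    have h4 := h3.comp_hasDerivAt t' h2
    rw [hF.t_zero i hi] at h4
    exact h4
  have e1 := is_const_of_deriv_eq_zero (fun h => (h1 h).differentiableAt)
    (fun h => (h1 h).deriv) w 0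
  have e2 := is_const_of_deriv_eq_zero (fun h => (h5 h).differentiableAt)
    (fun h => (h5 h).deriv) t 0
  exact e1.trans e2

end IsAuto

end

end Pool.Agent.Lib.MP_3704ac_gt
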