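import Pool.Agent.Lib.MP_3704ac_gt.EngelStr
import Pool.Agent.Lib.MP_3704ac_gt.Rigid1

/-!
# Lifting automorphisms of the Engel structure
-/

set_option autoImplicit false

open Set Topology Manifold
open scoped ContDiff

namespace Pool.Agent.Lib.MP_3704ac_gt

noncomputable section

/-- The inverse of an automorphism is an automorphism. -/
lemma IsAuto.inverse {F F' : E4 → E4} (hF : IsAuto F) (hF' : ContDiff ℝ ∞ F')
    (h1 : ∀ x, F (F' x) = x) (h2 : ∀ x, F' (F x) = x) : IsAuto F' := by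
  have key1 : ∀ y v, fderiv ℝ F (F' y) (fderiv ℝ F' y v) = v := by
    intro y v
    have e1 : HasFDerivAt F (fderiv ℝ F (F' y)) (F' y) :=
      (hF.smooth.differentiable (by simp) _).hasFDerivAt
    have e2 : HasFDerivAt F' (fderiv ℝ F' y) y := (hF'.differentiable (by simp) _).hasFDerivAt
    have e3 := e1.comp y e2
    have e4 : F ∘ F' = id := funext h1
    rw [e4] at e3
    have e5 := e3.unique (hasFDerivAt_id y)
    exact congrArg (fun L : E4 →L[ℝ] E4 => L v) e5
  have key2 : ∀ y v, fderiv ℝ F' y (fderiv ℝ F (F' y) v) = v := by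
    intro y v
    have e1 : HasFDerivAt F (fderiv ℝ F (F' y)) (F' y) :=
      (hF.smooth.differentiable (by simp) _).hasFDerivAt
    have e2 : HasFDerivAt F' (fderiv ℝ F' (F (F' y))) (F (F' y)) :=
      (hF'.differentiable (by simp) _).hasFDerivAt
    have e3 := e2.comp (F' y) e1
    have e4 : F' ∘ F = id := funext h2
    rw [e4, h1] at e3
    have e5 := e3.unique (hasFDerivAt_id (F' y))
    exact congrArg (fun L : E4 →L[ℝ] E4 => L v) e5
  have hT : ∀ y, ∃ c : ℝ, fderiv ℝ F' y (Tf y) = c • Tf (F' y) := by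
    intro y
    obtain ⟨c, hc, hcT⟩ := hF.presT' (F' y)
    refine ⟨c⁻¹, ?_⟩
    have e := key2 y (Tf (F' y))
    rw [hcT, h1, map_smul] at e
    rw [← e, smul_smul, inv_mul_cancel₀ hc, one_smul]
  refine ⟨hF', ?_, ?_, ?_⟩
  · intro x v w hvw
    rw [← key1 x v, ← key1 x w, hvw]
  · intro y
    obtain ⟨c, hc⟩ := hT y
    exact ⟨c, 0, by rw [hc, zero_smul, add_zero]⟩
  · intro y
    obtain ⟨c, hc⟩ := hT y
    obtain ⟨c', a', ha', hX⟩ := hF.presX' (F' y)
    have e := key2 y (Xf (F' y))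
    rw [hX, h1, map_add, map_smul, map_smul, hc] at e
    refine ⟨-(a'⁻¹ * c' * c), a'⁻¹, ?_⟩
    have e2 : fderiv ℝ F' y (Xf y) = a'⁻¹ • (a' • fderiv ℝ F' y (Xf y)) := by
      rw [smul_smul, inv_mul_cancel₀ ha', one_smul]
    have e3 : a' • fderiv ℝ F' y (Xf y) = Xf (F' y) - c' • c • Tf (F' y) :=
      eq_sub_of_add_eq' e
    rw [e2, e3]
    module

lemma smul_eq_one_of_fixed {g : GG} {x : E4} (h : g • x = x) : g = 1 := by
  have h1 : g • x = (1 : GG) • x := by rw [h, one_smul]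
  exact IsCancelSMul.right_cancel _ _ _ h1

lemma mem_DD {x : E4} {v : E4}
    (h : (mfderiv (𝓡 4) (𝓡 4) (proj GG : E4 → MM) x v : E4) ∈ (DD (proj GG x) : Submodule ℝ E4)) :
    ∃ c a : ℝ, v = c • Tf x + a • Xf x := by
  unfold DD at h
  rw [descend_eq_dpr Tf_inv, descend_eq_dpr Xf_inv] at h
  obtain ⟨c, a, hca⟩ := Submodule.mem_span_pair.mp h
  refine ⟨c, a, dpr_injective x ?_⟩
  rw [map_add, map_smul, map_smul, dpr_apply x v]
  exact hca.symm

lemma Tf_mem_DD (x : E4) :
    (mfderiv (𝓡 4) (𝓡 4) (proj GG : E4 → MM) x (Tf x) : E4) ∈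
      (DD (proj GG x) : Submodule ℝ E4) := by
  unfold DD
  rw [descend_eq_dpr Tf_inv, descend_eq_dpr Xf_inv, ← dpr_apply]
  exact Submodule.subset_span (Or.inl rfl)

lemma Xf_mem_DD (x : E4) :
    (mfderiv (𝓡 4) (𝓡 4) (proj GG : E4 → MM) x (Xf x) : E4) ∈
      (DD (proj GG x) : Submodule ℝ E4) := by
  unfold DD
  rw [descend_eq_dpr Tf_inv, descend_eq_dpr Xf_inv, ← dpr_apply]
  exact Submodule.subset_span (Or.inr rfl)

theorem exists_lift (f : Diffeomorph (𝓡 4) (𝓡 4) MM MM ∞)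
    (hf : ∀ x : MM, ∀ v : TangentSpace (𝓡 4) x, v ∈ DD x →
        mfderiv (𝓡 4) (𝓡 4) (⇑f) x v ∈ DD (f x)) :
    ∃ F F' : E4 → E4, IsAuto F ∧ IsAuto F' ∧ (∀ x, F (F' x) = x) ∧ (∀ x, F' (F x) = x) ∧
      (∀ x, proj GG (F x) = f (proj GG x)) ∧
      (∀ γ : GG, ∃ θ : GG, ∀ x, F (γ • x) = θ • F x) ∧
      (∀ γ : GG, ∃ θ : GG, ∀ x, F' (γ • x) = θ • F' x) := by
  obtain ⟨y₀, hy₀⟩ := proj_surjective GG (f (proj GG 0))
  obtain ⟨F, hFc, hF0, hF⟩ := lift_exists GG f f.continuous 0 y₀ hy₀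
  obtain ⟨F', hFc', hF0', hF'⟩ := lift_exists GG f.symm f.symm.continuous y₀ 0 (by
    rw [hy₀, Diffeomorph.symm_apply_apply])
  have h1 : ∀ x, F (F' x) = x := by
    obtain ⟨g, hg⟩ := lift_unique GG (F := fun x => F (F' x)) (F' := fun x => x)
      (hFc.comp hFc') continuous_id (fun x => by
        rw [hF, hF', Diffeomorph.apply_symm_apply])
    have : g = 1 := by
      apply smul_eq_one_of_fixed (x := y₀)
      rw [← hg, hF0', hF0]
    intro x
    rw [hg, this, one_smul]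
  have h2 : ∀ x, F' (F x) = x := by
    obtain ⟨g, hg⟩ := lift_unique GG (F := fun x => F' (F x)) (F' := fun x => x)
      (hFc'.comp hFc) continuous_id (fun x => by
        rw [hF', hF, Diffeomorph.symm_apply_apply])
    have : g = 1 := by
      apply smul_eq_one_of_fixed (x := 0)
      rw [← hg, hF0, hF0']
    intro x
    rw [hg, this, one_smul]
  have hFs : ContDiff ℝ ∞ F := contDiff_lift GG contDiff_smul_el f.contMDiff hFc hF
  have hFs' : ContDiff ℝ ∞ F' := contDiff_lift GG contDiff_smul_el f.symm.contMDiff hFc' hF'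
  have hd := mfderiv_lift GG contDiff_smul_el f.contMDiff hFc hF
  have hauto : IsAuto F := by
    refine ⟨hFs, ?_, ?_, ?_⟩
    · intro x v w hvw
      have e1 : HasFDerivAt F (fderiv ℝ F x) x := (hFs.differentiable (by simp) _).hasFDerivAt
      have e2 : HasFDerivAt F' (fderiv ℝ F' (F x)) (F x) :=
        (hFs'.differentiable (by simp) _).hasFDerivAt
      have e3 := e2.comp x e1
      have e4 : F' ∘ F = id := funext h2
      rw [e4] at e3
      have e5 := e3.unique (hasFDerivAt_id x)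
      have e6 : ∀ v, fderiv ℝ F' (F x) (fderiv ℝ F x v) = v := fun v =>
        congrArg (fun L : E4 →L[ℝ] E4 => L v) e5
      rw [← e6 v, ← e6 w, hvw]
    · intro x
      apply mem_DD
      have h3 := hf (proj GG x) _ (Tf_mem_DD x)
      rw [← hF] at h3
      refine Eq.mp ?_ h3
      exact congrArg (fun w : E4 => w ∈ (DD (proj GG (F x)) : Submodule ℝ E4)) (hd x (Tf x)).symm
    · intro x
      apply mem_DD
      have h3 := hf (proj GG x) _ (Xf_mem_DD x)
      rw [← hF] at h3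
      refine Eq.mp ?_ h3
      exact congrArg (fun w : E4 => w ∈ (DD (proj GG (F x)) : Submodule ℝ E4)) (hd x (Xf x)).symm
  refine ⟨F, F', hauto, hauto.inverse hFs' h1 h2, h1, h2, hF, ?_, ?_⟩
  · intro γ
    exact lift_unique GG (F := fun x => F (γ • x)) (hFc.comp (continuous_const_smul γ)) hFc
      (fun x => by rw [hF, hF, proj_smul])
  · intro γ
    exact lift_unique GG (F := fun x => F' (γ • x)) (hFc'.comp (continuous_const_smul γ)) hFc'
      (fun x => by rw [hF', hF', proj_smul])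

end

end Pool.Agent.Lib.MP_3704ac_gt
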