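import Pool.Agent.Lib.MP_3704ac_gt.Rigid2
import Pool.Agent.Lib.MP_3704ac_gt.Rigid3
import Pool.Agent.Lib.MP_3704ac_gt.Plane

/-!
# Rigidity
-/

set_option autoImplicit false

open Set Topology Manifold
open scoped ContDiff

namespace Pool.Agent.Lib.MP_3704ac_gt

noncomputable section

lemma fderiv_smul_injective (γ : GG) (x : E4) :
    Function.Injective (fderiv ℝ (fun p : E4 => γ • p) x) := by
  obtain ⟨n, j, k, rfl⟩ := exists_el γ
  intro v w h
  rw [fderiv_smul_el, fderiv_smul_el] at h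
  have h0 := congrArg (fun p : E4 => p 0) h
  have h1 := congrArg (fun p : E4 => p 1) h
  have h2 := congrArg (fun p : E4 => p 2) h
  have h3 := congrArg (fun p : E4 => p 3) h
  have c1 : (-1 : ℝ) ^ j ≠ 0 := zpow_ne_zero _ (by norm_num)
  apply ext4
  · exact mul_left_cancel₀ (mul_ne_zero c1 (zpow_pos lam_pos k).ne') h0
  · exact mul_left_cancel₀ (mul_ne_zero c1 (zpow_pos mu_pos k).ne') h1
  · exact h2
  · exact h3

lemma IsAuto.smul {F : E4 → E4} (hF : IsAuto F) (γ : GG) : IsAuto (fun x => γ • F x) := by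
  have hd : ∀ x v, fderiv ℝ (fun x => γ • F x) x v =
      fderiv ℝ (fun p : E4 => γ • p) (F x) (fderiv ℝ F x v) := by
    intro x v
    have e1 : HasFDerivAt F (fderiv ℝ F x) x := (hF.smooth.differentiable (by simp) _).hasFDerivAt
    have e2 : HasFDerivAt (fun p : E4 => γ • p) (fderiv ℝ (fun p : E4 => γ • p) (F x)) (F x) :=
      ((contDiff_smul_el γ).differentiable (by simp) _).hasFDerivAt
    have e3 : HasFDerivAt (fun x => γ • F x) _ x := e2.comp x e1
    rw [e3.fderiv]
    rfl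
  refine ⟨(contDiff_smul_el γ).comp hF.smooth, ?_, ?_, ?_⟩
  · intro x v w hvw
    rw [hd, hd] at hvw
    exact hF.inj x (fderiv_smul_injective γ _ hvw)
  · intro x
    obtain ⟨c, a, h⟩ := hF.presT x
    exact ⟨c, a, by rw [hd, h, map_add, map_smul, map_smul, Tf_inv, Xf_inv]⟩
  · intro x
    obtain ⟨c, a, h⟩ := hF.presX x
    exact ⟨c, a, by rw [hd, h, map_add, map_smul, map_smul, Tf_inv, Xf_inv]⟩

/-- The plane map of an automorphism. -/
def plane (F : E4 → E4) (x : ℝ × ℝ) : ℝ × ℝ :=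
  (F (pt x.1 x.2 0 0) 0, F (pt x.1 x.2 0 0) 1)

lemma IsAuto.plane_eq {F : E4 → E4} (hF : IsAuto F) (p : E4) :
    (F p 0, F p 1) = plane F (p 0, p 1) := by
  conv_lhs => rw [← pt_eta p]
  apply Prod.ext
  · exact hF.comp_eq 0 (Or.inl rfl) _ _ _ _
  · exact hF.comp_eq 1 (Or.inr rfl) _ _ _ _

lemma smul_el_coord (n : ℤ × ℤ) (j k : ℤ) (p : E4) :
    ((el n j k • p) 0, (el n j k • p) 1) = pa n j k (p 0, p 1) := rfl

lemma continuous_pt : Continuous (fun x : ℝ × ℝ => pt x.1 x.2 0 0) := by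
  unfold pt
  fun_prop

lemma IsAuto.planeMap {F : E4 → E4} (hF : IsAuto F)
    (h : ∀ γ : GG, ∃ θ : GG, ∀ x, F (γ • x) = θ • F x) : PlaneMap (plane F) := by
  refine ⟨?_, ?_⟩
  · unfold plane
    exact ((hF.contDiff_comp 0).continuous.comp continuous_pt).prodMk
      ((hF.contDiff_comp 1).continuous.comp continuous_pt)
  · intro n j k
    obtain ⟨θ, hθ⟩ := h (el n j k)
    obtain ⟨n', j', k', rfl⟩ := exists_el θ
    refine ⟨n', j', k', fun x => ?_⟩
    have e1 := hθ (pt x.1 x.2 0 0)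
    have e2 := hF.plane_eq (el n j k • pt x.1 x.2 0 0)
    rw [smul_el_coord, e1, smul_el_coord] at e2
    exact e2.symm

lemma hasFDerivAt_coord_id (i : Fin 4) (x v : E4) : fderiv ℝ (fun p : E4 => p i) x v = v i := by
  rw [(hasFDerivAt_proj i x).fderiv]
  rfl

section final

variable {F : E4 → E4} (hF : IsAuto F) (h0 : ∀ p, F p 0 = p 0) (h1 : ∀ p, F p 1 = p 1)

/-- The scaling factor. -/
def scal (F : E4 → E4) (p : E4) : ℝ :=
  Real.exp (-(F p 3 - p 3)) * Real.cos (p 2) * Real.cos (F p 2) +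
    Real.exp (F p 3 - p 3) * Real.sin (p 2) * Real.sin (F p 2)

include hF

lemma continuous_scal : Continuous (scal F) := by
  unfold scal
  have c2 : Continuous (fun p => F p 2) := (hF.contDiff_comp 2).continuous
  have c3 : Continuous (fun p => F p 3) := (hF.contDiff_comp 3).continuous
  have d2 : Continuous (fun p : E4 => p 2) := (contDiff_coord 2).continuous
  have d3 : Continuous (fun p : E4 => p 3) := (contDiff_coord 3).continuous
  have e1 : Continuous (fun p : E4 => Real.exp (-(F p 3 - p 3))) :=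
    Real.continuous_exp.comp (c3.sub d3).neg
  have e2 : Continuous (fun p : E4 => Real.exp (F p 3 - p 3)) :=
    Real.continuous_exp.comp (c3.sub d3)
  exact ((e1.mul (Real.continuous_cos.comp d2)).mul (Real.continuous_cos.comp c2)).add
    ((e2.mul (Real.continuous_sin.comp d2)).mul (Real.continuous_sin.comp c2))

include h0 h1

lemma scal_spec (p : E4) : ∃ c a : ℝ, a ≠ 0 ∧ scal F p = a ∧
    fderiv ℝ F p (Xf p) = c • Tf (F p) + a • Xf (F p) ∧
    Real.exp (p 3) * Real.cos (p 2) = a * (Real.exp (F p 3) * Real.cos (F p 2)) ∧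
    Real.exp (-p 3) * Real.sin (p 2) = a * (Real.exp (-F p 3) * Real.sin (F p 2)) ∧
    Real.cos (p 2) = a * (Real.exp (F p 3 - p 3) * Real.cos (F p 2)) ∧
    Real.sin (p 2) = a * (Real.exp (-(F p 3 - p 3)) * Real.sin (F p 2)) := by
  obtain ⟨c, a, ha, hX⟩ := hF.presX' p
  obtain ⟨q0, q1, -, -⟩ := comb_apply c a (F p)
  have e0 : Real.exp (p 3) * Real.cos (p 2) = a * (Real.exp (F p 3) * Real.cos (F p 2)) := by
    rw [← q0, ← hX, ← hF.fderiv_comp]
    have : (fun p => F p 0) = fun p => p 0 := funext h0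
    rw [this, hasFDerivAt_coord_id]
    simp [Xf]
  have e1 : Real.exp (-p 3) * Real.sin (p 2) = a * (Real.exp (-F p 3) * Real.sin (F p 2)) := by
    rw [← q1, ← hX, ← hF.fderiv_comp]
    have : (fun p => F p 1) = fun p => p 1 := funext h1
    rw [this, hasFDerivAt_coord_id]
    simp [Xf]
  have hpp : Real.exp (p 3) * Real.exp (-p 3) = 1 := by
    rw [← Real.exp_add, add_neg_cancel, Real.exp_zero]
  have x1 : Real.exp (F p 3 - p 3) = Real.exp (F p 3) * Real.exp (-p 3) := by
    rw [← Real.exp_add, sub_eq_add_neg]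
  have x2 : Real.exp (-(F p 3 - p 3)) = Real.exp (-F p 3) * Real.exp (p 3) := by
    rw [← Real.exp_add]
    ring_nf
  have e2 : Real.cos (p 2) = a * (Real.exp (F p 3 - p 3) * Real.cos (F p 2)) := by
    rw [x1]
    linear_combination Real.exp (-p 3) * e0 - Real.cos (p 2) * hpp
  have e3 : Real.sin (p 2) = a * (Real.exp (-(F p 3 - p 3)) * Real.sin (F p 2)) := by
    rw [x2]
    linear_combination Real.exp (p 3) * e1 - Real.sin (p 2) * hpp
  refine ⟨c, a, ha, ?_, hX, e0, e1, e2, e3⟩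
  unfold scal
  rw [e2, e3]
  have hee : Real.exp (F p 3 - p 3) * Real.exp (-(F p 3 - p 3)) = 1 := by
    rw [← Real.exp_add, add_neg_cancel, Real.exp_zero]
  linear_combination (a * (Real.cos (F p 2) ^ 2 + Real.sin (F p 2) ^ 2)) * hee +
    a * Real.sin_sq_add_cos_sq (F p 2)

lemma scal_cube (p : E4) : scal F p ^ 3 * Real.cos (2 * F p 2) = Real.cos (2 * p 2) := by
  obtain ⟨c, a, ha, hs, hX, e0, e1, e2, e3⟩ := scal_spec hF h0 h1 p
  rw [hs]
  have hheta := hF.heta_of_pres Xf hF.presX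
  have hder : fderiv ℝ (heta (fun x => F x 0) (fun x => F x 1) (fun x => F x 2)
      (fun x => F x 3) Xf) p (Xf p) = 0 := by
    have : heta (fun x => F x 0) (fun x => F x 1) (fun x => F x 2) (fun x => F x 3) Xf =
      fun _ => 0 := funext hheta
    rw [this]
    simp
  rw [fderiv_heta (hF.contDiff_comp 0) (hF.contDiff_comp 1) (hF.contDiff_comp 2)
    (hF.contDiff_comp 3) contDiff_Xf, hF.fderiv_comp, hF.fderiv_comp, hX] at hder
  obtain ⟨-, -, q2, q3⟩ := comb_apply c a (F p)
  have d1 : dd (fun x => F x 1) Xf = fun x => Xf x 1 := by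
    funext x
    unfold dd
    have : (fun p => F p 1) = fun p => p 1 := funext h1
    rw [this, hasFDerivAt_coord_id]
  have d0 : dd (fun x => F x 0) Xf = fun x => Xf x 0 := by
    funext x
    unfold dd
    have : (fun p => F p 0) = fun p => p 0 := funext h0
    rw [this, hasFDerivAt_coord_id]
  have hXd : DifferentiableAt ℝ Xf p := contDiff_Xf.differentiable (by simp) p
  rw [q2, q3, d0, d1, ← fderiv_coord hXd, ← fderiv_coord hXd, fderiv_Xf] at hder
  simp only [Xf] at hder
  simp at hder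
  rw [e0, e1] at hder
  have hee : Real.exp (F p 3) * Real.exp (-F p 3) = 1 := by
    rw [← Real.exp_add, add_neg_cancel, Real.exp_zero]
  have hpp : Real.exp (p 3) * Real.exp (-p 3) = 1 := by
    rw [← Real.exp_add, add_neg_cancel, Real.exp_zero]
  have g1 := Real.sin_sq_add_cos_sq (F p 2)
  have g2 := Real.sin_two_mul (F p 2)
  have g3 := Real.sin_sq_add_cos_sq (p 2)
  linear_combination a * hder - a ^ 3 * Real.cos (2 * F p 2) * hee +
    a ^ 2 * (Real.exp (F p 3) * Real.exp (-F p 3)) * c * g2 +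
    a ^ 2 * (Real.exp (F p 3) * Real.exp (-F p 3)) *
      (c * Real.sin (2 * F p 2) - a * Real.cos (2 * F p 2)) * g1 -
    Real.cos (2 * p 2) * Real.exp (-p 3) * Real.cos (p 2) * e0 -
    Real.cos (2 * p 2) * Real.exp (p 3) * Real.sin (p 2) * e1 +
    Real.cos (2 * p 2) * (Real.cos (p 2) ^ 2 + Real.sin (p 2) ^ 2) * hpp +
    Real.cos (2 * p 2) * g3

lemma scal_sq (p : E4) : scal F p ^ 2 = fR (p 2) (F p 3 - p 3) ∧
    scal F p ^ 2 * Real.cos (2 * F p 2) =
      Real.exp (-(2 * (F p 3 - p 3))) * Real.cos (p 2) ^ 2 -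
        Real.exp (2 * (F p 3 - p 3)) * Real.sin (p 2) ^ 2 := by
  obtain ⟨c, a, ha, hs, hX, e0, e1, e2, e3⟩ := scal_spec hF h0 h1 p
  rw [hs]
  set h := F p 3 - p 3 with hh
  have hee : Real.exp h * Real.exp (-h) = 1 := by
    rw [← Real.exp_add, add_neg_cancel, Real.exp_zero]
  have x1 : Real.exp (-(2 * h)) = Real.exp (-h) * Real.exp (-h) := by
    rw [← Real.exp_add]
    ring_nf
  have x2 : Real.exp (2 * h) = Real.exp h * Real.exp h := by
    rw [← Real.exp_add]
    ring_nf
  have y1 : Real.exp (-h) * Real.cos (p 2) = a * Real.cos (F p 2) := by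
    rw [e2]
    linear_combination a * Real.cos (F p 2) * hee
  have y2 : Real.exp h * Real.sin (p 2) = a * Real.sin (F p 2) := by
    rw [e3]
    linear_combination a * Real.sin (F p 2) * hee
  have z1 : Real.exp (-(2 * h)) * Real.cos (p 2) ^ 2 = a ^ 2 * Real.cos (F p 2) ^ 2 := by
    rw [x1]
    linear_combination (Real.exp (-h) * Real.cos (p 2) + a * Real.cos (F p 2)) * y1
  have z2 : Real.exp (2 * h) * Real.sin (p 2) ^ 2 = a ^ 2 * Real.sin (F p 2) ^ 2 := by
    rw [x2]
    linear_combination (Real.exp h * Real.sin (p 2) + a * Real.sin (F p 2)) * y2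
  constructor
  · unfold fR
    rw [z1, z2]
    linear_combination (-a ^ 2) * Real.sin_sq_add_cos_sq (F p 2)
  · rw [z1, z2, Real.cos_two_mul']
    ring

lemma scal_ne_zero (p : E4) : scal F p ≠ 0 := by
  obtain ⟨c, a, ha, hs, -⟩ := scal_spec hF h0 h1 p
  rw [hs]
  exact ha

lemma scal_pos (p : E4) : 0 < scal F p := by
  have h00 : scal F 0 = 1 := by
    obtain ⟨c, a, ha, hs, hX, e0, e1, e2, e3⟩ := scal_spec hF h0 h1 0
    have hcube := scal_cube hF h0 h1 0
    have hsin : Real.sin (F 0 2) = 0 := by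
      have : a * (Real.exp (-(F 0 3 - (0 : E4) 3)) * Real.sin (F 0 2)) = 0 := by
        rw [← e3]
        simp
      rcases mul_eq_zero.mp this with h | h
      · exact absurd h ha
      · rcases mul_eq_zero.mp h with h | h
        · exact absurd h (Real.exp_pos _).ne'
        · exact h
    have hcos : Real.cos (2 * F 0 2) = 1 := by
      rw [Real.cos_two_mul', Real.cos_sq', hsin]
      norm_num
    rw [hcos] at hcube
    have h3 : scal F 0 ^ 3 = 1 := by simpa using hcube
    have h4 : (scal F 0 - 1) * (scal F 0 ^ 2 + scal F 0 + 1) = 0 := by linear_combination h3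
    rcases mul_eq_zero.mp h4 with h | h
    · linarith
    · nlinarith [sq_nonneg (scal F 0 + 1 / 2)]
  by_contra hcon
  push Not at hcon
  obtain ⟨q, hq⟩ := mem_range_of_exists_le_of_exists_ge (continuous_scal hF) (c := 0)
    ⟨p, hcon⟩ ⟨0, by rw [h00]; norm_num⟩
  exact scal_ne_zero hF h0 h1 q hq

/-- An automorphism which induces the identity on the `(u, s)`-plane is a deck
transformation. -/
lemma final_step (p : E4) : proj GG (F p) = proj GG p := by
  have hpos := scal_pos hF h0 h1 p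
  obtain ⟨s1, s2⟩ := scal_sq hF h0 h1 p
  have s3 := scal_cube hF h0 h1 p
  have hsqrt : √(fR (p 2) (F p 3 - p 3)) = scal F p := by
    rw [← s1, Real.sqrt_sq hpos.le]
  have hh : F p 3 - p 3 = 0 := by
    apply fK_eq_zero_imp (ϑ := p 2)
    rw [fK_zero]
    unfold fK
    rw [hsqrt]
    linear_combination (scal F p) * s2 - s3
  obtain ⟨c, a, ha, hs, hX, e0, e1, e2, e3⟩ := scal_spec hF h0 h1 p
  have ha1 : a = 1 := by
    rw [hh, hs] at s1
    rw [hs] at hpos
    have : a ^ 2 = 1 := by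
      rw [s1]
      unfold fR
      simp
    nlinarith
  rw [ha1, hh] at e2 e3
  simp only [Real.exp_zero, neg_zero, one_mul] at e2 e3
  have hang := Real.Angle.cos_sin_inj e2.symm e3.symm
  obtain ⟨m, hm⟩ := Real.Angle.angle_eq_iff_two_pi_dvd_sub.mp hang
  have hF' : F p = el 0 (2 * m) 0 • p := by
    rw [el_smul]
    apply ext4
    · rw [h0]
      simp [actFun, lu_zero, zpow_mul]
    · rw [h1]
      simp [actFun, ls_zero, zpow_mul]
    · simp only [actFun]
      change F p 2 = p 2 + ((2 * m : ℤ) : ℝ) * Real.pi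
      push_cast
      linarith
    · simp only [actFun]
      change F p 3 = p 3 + ((0 : ℤ) : ℝ) * per
      push_cast
      linarith
  rw [hF', proj_smul]

end final

/-- The Engel structure has no automorphism except the identity. -/
theorem rigidity (f : Diffeomorph (𝓡 4) (𝓡 4) MM MM ∞)
    (hf : ∀ x : MM, ∀ v : TangentSpace (𝓡 4) x, v ∈ DD x →
        mfderiv (𝓡 4) (𝓡 4) (⇑f) x v ∈ DD (f x)) (x : MM) : f x = x := by
  obtain ⟨F, F', hF, hF', h1, h2, hproj, heq, heq'⟩ := exists_lift f hf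
  have hp1 : ∀ x, plane F (plane F' x) = x := by
    intro x
    have e := hF.plane_eq (F' (pt x.1 x.2 0 0))
    rw [h1] at e
    exact e.symm
  have hp2 : ∀ x, plane F' (plane F x) = x := by
    intro x
    have e := hF'.plane_eq (F (pt x.1 x.2 0 0))
    rw [h2] at e
    exact e.symm
  obtain ⟨n, j, k, hnjk⟩ := plane_rigid (hF.planeMap heq) (hF'.planeMap heq') hp1 hp2
  set γ : GG := (el n j k)⁻¹ with hγ
  have hG := hF.smul γ
  obtain ⟨n', j', k', hel⟩ := exists_el γ
  have key : ∀ p : E4, pa n' j' k' (pa n j k (p 0, p 1)) = (p 0, p 1) := by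
    intro p
    rw [← smul_el_coord, ← smul_el_coord, ← hel, hγ, inv_smul_smul]
  have hcoord : ∀ p : E4, ((γ • F p) 0, (γ • F p) 1) = (p 0, p 1) := by
    intro p
    rw [hel, smul_el_coord, hF.plane_eq, hnjk, key]
  have hG0 : ∀ p, (γ • F p) 0 = p 0 := fun p => (Prod.ext_iff.mp (hcoord p)).1
  have hG1 : ∀ p, (γ • F p) 1 = p 1 := fun p => (Prod.ext_iff.mp (hcoord p)).2
  obtain ⟨p, rfl⟩ := proj_surjective GG x
  rw [← hproj, ← proj_smul GG γ (F p)]
  exact final_step hG hG0 hG1 p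

end

end Pool.Agent.Lib.MP_3704ac_gt
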